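import Pool.Agent.H72.SB.Csa

/-!
# Multiples of a Brauer class
-/

open Module TensorProduct
open Pool.Agent.H72.SB

universe u

namespace Pool.Agent.H49.Cyc

variable {k : Type u} [Field k]

/-- `IsMultiple A i B` says that `[B] = i [A]` in the Brauer group: these algebras are obtained from
`A` and `k` by tensor products, opposite algebras and Brauer equivalence. -/
inductive IsMultiple (A : CSA.{u, u} k) : ℤ → CSA.{u, u} k → Prop
  | self : IsMultiple A 1 A
  | one (C : CSA.{u, u} k) : Nonempty (C ≃ₐ[k] k) → IsMultiple A 0 C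
  | mul (i j : ℤ) (B C E : CSA.{u, u} k) : IsMultiple A i B → IsMultiple A j C →
      Nonempty (E ≃ₐ[k] B ⊗[k] C) → IsMultiple A (i + j) E
  | inv (i : ℤ) (B C : CSA.{u, u} k) : IsMultiple A i B →
      Nonempty (C ≃ₐ[k] (B : Type u)ᵐᵒᵖ) → IsMultiple A (-i) C
  | equiv (i : ℤ) (B C : CSA.{u, u} k) : IsMultiple A i B → IsBrauerEquivalent B C →
      IsMultiple A i C

theorem exists_isMultiple {A B : CSA.{u, u} k} (h : InCyclic A B) : ∃ i, IsMultiple A i B := by
  induction h with
  | self => exact ⟨1, .self⟩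
  | one C e => exact ⟨0, .one C e⟩
  | mul B C E _ _ e hB hC =>
    obtain ⟨i, hi⟩ := hB
    obtain ⟨j, hj⟩ := hC
    exact ⟨i + j, .mul i j B C E hi hj e⟩
  | inv B C _ e hB =>
    obtain ⟨i, hi⟩ := hB
    exact ⟨-i, .inv i B C hi e⟩
  | equiv B C _ e hB =>
    obtain ⟨i, hi⟩ := hB
    exact ⟨i, .equiv i B C hi e⟩

end Pool.Agent.H49.Cyc
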