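import Pool.Agent.H49.Cyc.Step

/-!
# Cyclic algebras whose constants are powers of each other
-/

open Module TensorProduct
open Pool.Agent.H72.SB hiding IsFunctionField

namespace Pool.Agent.H49.Cyc

open Pool.Agent.H49.GSB

universe u

variable {k : Type u} [Field k] {L : Type u} [Field L] [Algebra k L] {n m : ℕ} {σ : L ≃ₐ[k] L}
  {a : k}

/-- The case `i = 1` modulo `gcd(m, n)`. -/
theorem common_one [Infinite k] [FiniteDimensional k L] (hL : finrank k L = n) (ha : a ≠ 0)
    {A B : CSA.{u, u} k} (hA : finrank k A = n ^ 2) (hB : finrank k B = n ^ 2) (hm : 1 ≤ m)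
    (hmn : m < n) {i : ℕ} (hin : Nat.Coprime i n) (dA : CycData L n σ a A)
    (dB : CycData L n σ (a ^ i) B) (hi : Nat.gcd m n ∣ i - 1) :
    ∃ (F : Type u) (_ : Field F) (_ : Algebra k F),
      H72.SB.IsFunctionField A m F ∧ H72.SB.IsFunctionField B m F := by
  have hn : 1 < n := by omega
  have : NeZero n := ⟨by omega⟩
  have hi0 : i ≠ 0 := by
    rintro rfl
    rw [Nat.coprime_zero_left] at hin
    omega
  obtain ⟨c, hc⟩ := hi
  obtain ⟨l, t, hlt⟩ := exists_inverse hn hin
  have hgn : Nat.gcd m n ≤ n := Nat.le_of_dvd (by omega) (Nat.gcd_dvd_right m n)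
  obtain ⟨F, i1, i2, hF⟩ := exists_functionField A hA hgn
  have h1 := functionField_transfer hL ha (by omega : i = 1 + Nat.gcd m n * c) hlt dA dB hgn
    (ofH72 hA hF)
  have h2 := toH72 hB h1
  have h3 := functionField_gcd A hA hm hmn hF
  have h4 := functionField_gcd B hB hm hmn h2
  exact ⟨_, _, _, h3, h4⟩

theorem isCentral_opp {A : Type u} [Ring A] [Algebra k A] [Algebra.IsCentral k A] :
    Algebra.IsCentral k Aᵐᵒᵖ where
  out := by
    intro x hx
    rw [Subalgebra.mem_center_iff] at hx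
    have h1 : x.unop ∈ Subalgebra.center k A := by
      rw [Subalgebra.mem_center_iff]
      intro y
      have := congrArg MulOpposite.unop (hx (MulOpposite.op y))
      simpa using this.symm
    obtain ⟨c, hc⟩ := Algebra.mem_bot.1 (Algebra.IsCentral.out h1)
    refine Algebra.mem_bot.2 ⟨c, ?_⟩
    apply MulOpposite.unop_injective
    rw [← hc]
    rfl

/-- The opposite algebra as a central simple algebra. -/
noncomputable def opCSA (B : CSA.{u, u} k) : CSA.{u, u} k :=
  have : Algebra.IsCentral k (B : Type u)ᵐᵒᵖ := isCentral_opp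
  { carrier := (B : Type u)ᵐᵒᵖ }

theorem common [Infinite k] [FiniteDimensional k L] (hL : finrank k L = n) (ha : a ≠ 0)
    {A B : CSA.{u, u} k} (hA : finrank k A = n ^ 2) (hB : finrank k B = n ^ 2) (hm : 1 ≤ m)
    (hmn : m < n) {i : ℕ} (hin : Nat.Coprime i n) (dA : CycData L n σ a A)
    (dB : CycData L n σ (a ^ i) B) (hi : Nat.gcd m n ∣ i - 1 ∨ Nat.gcd m n ∣ i + 1) :
    ∃ (F : Type u) (_ : Field F) (_ : Algebra k F),
      H72.SB.IsFunctionField A m F ∧ H72.SB.IsFunctionField B m F := by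
  rcases hi with hi | hi
  · exact common_one hL ha hA hB hm hmn hin dA dB hi
  · have hn : 1 < n := by omega
    have hi0 : i ≠ 0 := by
      rintro rfl
      rw [Nat.coprime_zero_left] at hin
      omega
    have hai : a ^ i ≠ 0 := pow_ne_zero _ ha
    have h1 : (a ^ i) ^ n * (a ^ i)⁻¹ = a ^ (i * (n - 1)) := by
      obtain ⟨r, rfl⟩ : ∃ r, n = r + 1 := ⟨n - 1, by omega⟩
      rw [pow_succ, mul_assoc, mul_inv_cancel₀ hai, mul_one, ← pow_mul, Nat.add_sub_cancel]
    have d' : CycData L n σ (a ^ (i * (n - 1))) (opCSA B : Type u) := by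
      rw [← h1]
      exact (dB.op (by omega) hai).twist hai
    have hB' : finrank k (opCSA B) = n ^ 2 := by
      rw [← hB]
      exact (MulOpposite.opLinearEquiv k).finrank_eq.symm
    have hco : Nat.Coprime (i * (n - 1)) n := by
      refine Nat.Coprime.mul_left hin ?_
      rw [Nat.coprime_self_sub_left (by omega)]
      exact Nat.coprime_one_left n
    have hdiv : Nat.gcd m n ∣ i * (n - 1) - 1 := by
      obtain ⟨q, hq⟩ := hi
      obtain ⟨r, hr⟩ := Nat.gcd_dvd_right m n
      have h2 : i * (n - 1) - 1 = i * n - (i + 1) := by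
        rw [Nat.mul_sub, mul_one]; omega
      rw [h2]
      exact Nat.dvd_sub (Dvd.dvd.mul_left (Nat.gcd_dvd_right m n) i) ⟨q, hq⟩
    obtain ⟨F, i1, i2, h3, h4⟩ := common_one hL ha hA hB' hm hmn hco dA d' hdiv
    refine ⟨F, i1, i2, h3, ?_⟩
    exact (op_iff (A := B) (B := opCSA B) hB hm hmn AlgEquiv.refl F).2 h4

/-- Every unit modulo `g` is `1` or `-1` if `g` is `1`, `2`, `3`, `4` or `6`. -/
theorem dvd_of_small {g i : ℕ} (h : Nat.Coprime i g) (hi : i ≠ 0)
    (hg : g = 1 ∨ g = 2 ∨ g = 3 ∨ g = 4 ∨ g = 6) : g ∣ i - 1 ∨ g ∣ i + 1 := by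
  have key : ∀ d, d ∣ g → d ≠ 1 → ¬ d ∣ i := by
    intro d hd hd1 hdi
    have := Nat.dvd_gcd hdi hd
    rw [h] at this
    exact hd1 (Nat.dvd_one.1 this)
  rcases hg with rfl | rfl | rfl | rfl | rfl
  · left; exact one_dvd _
  · have := key 2 (by norm_num) (by norm_num); omega
  · have := key 3 (by norm_num) (by norm_num); omega
  · have := key 2 (by norm_num) (by norm_num); omega
  · have h2 := key 2 (by norm_num) (by norm_num)
    have h3 := key 3 (by norm_num) (by norm_num)
    obtain ⟨q, r, hr, hqr⟩ : ∃ q r, r < 6 ∧ i = 6 * q + r :=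
      ⟨i / 6, i % 6, Nat.mod_lt _ (by norm_num), (Nat.div_add_mod i 6).symm⟩
    interval_cases r <;> omega

end Pool.Agent.H49.Cyc
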