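import Pool.Agent.H49.Cyc.BrA
import Pool.Agent.H49.Cyc.Main

/-!
# The theorem of Skolem and Noether for maximal subfields
-/

open Module TensorProduct MulOpposite

namespace Pool.Agent.H49.Cyc

open Pool.Agent.H49.GSB

universe u

/-- Modules of the same dimension over a simple algebra are isomorphic. -/
theorem exists_equiv_smul {K S M N : Type*} [Field K] [Ring S] [Algebra K S]
    [FiniteDimensional K S] [IsSimpleRing S] [AddCommGroup M] [Module S M] [Module K M]
    [IsScalarTower K S M] [AddCommGroup N] [Module S N] [Module K N] [IsScalarTower K S N]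
    [FiniteDimensional K M] [FiniteDimensional K N]
    (h : Module.finrank K M = Module.finrank K N) :
    ∃ φ : M ≃ₗ[K] N, ∀ (s : S) (x : M), φ (s • x) = s • φ x := by
  obtain ⟨e⟩ := exists_linearEquiv (K := K) (S := S) h
  exact ⟨e.restrictScalars K, fun s x => e.map_smul s x⟩

/-- Two actions of a simple algebra on a space are isomorphic. -/
theorem exists_intertwiner {k S A : Type*} [Field k] [Ring S] [Algebra k S] [Ring A] [Algebra k A]
    [FiniteDimensional k S] [IsSimpleRing S] [FiniteDimensional k A]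
    (g₁ g₂ : S →ₐ[k] Module.End k A) :
    ∃ φ : A ≃ₗ[k] A, ∀ s x, φ (g₁ s x) = g₂ s (φ x) := by
  let m₁ : Module S A := Module.compHom A (g₁ : S →+* Module.End k A)
  let m₂ : Module S A := Module.compHom A (g₂ : S →+* Module.End k A)
  have i₁ : @IsScalarTower k S A _ m₁.toSMul _ := @IsScalarTower.mk k S A _ m₁.toSMul _ (by
    intro c s x
    change g₁ (c • s) x = c • g₁ s x
    rw [map_smul]; rfl)
  have i₂ : @IsScalarTower k S A _ m₂.toSMul _ := @IsScalarTower.mk k S A _ m₂.toSMul _ (by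
    intro c s x
    change g₂ (c • s) x = c • g₂ s x
    rw [map_smul]; rfl)
  obtain ⟨φ, hφ⟩ := @exists_equiv_smul k S A A _ _ _ _ _ _ m₁ _ i₁ _ m₂ _ i₂ _ _ rfl
  exact ⟨φ, fun s x => hφ s x⟩

variable {k : Type u} [Field k] {L : Type u} [Field L] [Algebra k L] {n : ℕ} {σ : L ≃ₐ[k] L}

/-- Two embeddings of a field are conjugate. -/
theorem exists_conj [FiniteDimensional k L] {A : Type u} [Ring A] [Algebra k A]
    [FiniteDimensional k A] [IsSimpleRing A] [Algebra.IsCentral k A] (f₁ f₂ : L →ₐ[k] A) :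
    ∃ w : A, IsUnit w ∧ ∀ l, f₁ l * w = w * f₂ l := by
  have : Algebra.IsCentral k Aᵐᵒᵖ := isCentral_opp
  have : IsSimpleRing (L ⊗[k] Aᵐᵒᵖ) := isSimple_tensor
  let g : (L →ₐ[k] A) → (L ⊗[k] Aᵐᵒᵖ →ₐ[k] Module.End k A) := fun f =>
    (AlgHom.mulLeftRight k A).comp (Algebra.TensorProduct.map f (AlgHom.id k Aᵐᵒᵖ))
  have hg : ∀ f l (b x : A), g f (l ⊗ₜ op b) x = f l * x * b := by
    intro f l b x
    simp [g]
  obtain ⟨φ, hφ⟩ := exists_intertwiner (g f₂) (g f₁)
  have h1 : ∀ x, φ x = φ 1 * x := by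
    intro x
    have := hφ (1 ⊗ₜ op x) 1
    rw [hg, hg, map_one, map_one, one_mul, one_mul, one_mul] at this
    exact this
  have h2 : ∀ l, f₁ l * φ 1 = φ 1 * f₂ l := by
    intro l
    have := hφ (l ⊗ₜ op 1) 1
    rw [hg, hg, mul_one, mul_one, mul_one, h1] at this
    exact this.symm
  refine ⟨φ 1, ?_, h2⟩
  obtain ⟨y, hy⟩ := φ.surjective 1
  rw [h1] at hy
  have : IsArtinianRing A := IsArtinianRing.of_finite k A
  exact IsUnit.of_mul_eq_one y hy

/-- D3: an algebra with a cyclic maximal subfield is cyclic. -/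
theorem exists_data [IsGalois k L] [FiniteDimensional k L] (hL : finrank k L = n)
    (hσ : ∀ τ : L ≃ₐ[k] L, τ ∈ Subgroup.zpowers σ) {A : Type u} [Ring A] [Algebra k A]
    [FiniteDimensional k A] [IsSimpleRing A] [Algebra.IsCentral k A] (hA : finrank k A = n ^ 2)
    (f : L →ₐ[k] A) : ∃ a : k, a ≠ 0 ∧ Nonempty (CycData L n σ a A) := by
  obtain ⟨w, hw, hc⟩ := exists_conj f (f.comp (σ : L →ₐ[k] L))
  have hc' : ∀ l, f l * w = w * f (σ l) := hc
  have hσ' : ∀ i j : ℕ, i < n → j < n → σ ^ i = σ ^ j → i = j := fun i j hi hj h =>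
    pow_inj_of_gen hL hσ hi hj h
  have hbij : Function.Bijective (sumLin n f w) := by
    refine bij_of_inj ?_ (sumLin n f w) (sumLin_injective hσ' f w hw hc')
    rw [hA, Module.finrank_pi_fintype]
    simp [hL, pow_two]
  -- `w ^ n` is central
  have h1 : ∀ l, f l * w ^ n = w ^ n * f l := by
    intro l
    rw [gen_mul_pow f w hc', pow_n_of_gen hL hσ]
    rfl
  have h2 : w ^ n ∈ Subalgebra.center k A := by
    rw [Subalgebra.mem_center_iff]
    intro x
    obtain ⟨g, rfl⟩ := hbij.2 x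
    rw [sumLin_apply, Finset.sum_mul, Finset.mul_sum]
    refine Finset.sum_congr rfl fun j _ => ?_
    rw [mul_assoc, h1, ← mul_assoc, ← mul_assoc, ← pow_add, ← pow_add, add_comm]
  obtain ⟨a, ha⟩ := Algebra.mem_bot.1 (Algebra.IsCentral.out h2)
  refine ⟨a, ?_, ⟨CycData.ofUnit hL hA hσ' f w hw hc' ha.symm⟩⟩
  rintro rfl
  rw [map_zero] at ha
  exact not_isUnit_zero (ha ▸ hw.pow n)

end Pool.Agent.H49.Cyc
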