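import Pool.Agent.H49.Cyc.BrD
import Pool.Agent.H49.Cyc.Skolem
import Pool.Agent.H49.Cyc.Mult

/-!
# Cyclic algebras: multiples of the class
-/

set_option autoImplicit false

open Module TensorProduct Matrix MulOpposite
open Pool.Agent.H72.SB hiding IsFunctionField

namespace Pool.Agent.H49.Cyc

open Pool.Agent.H49.GSB

universe u

section unique

variable {k : Type u} [Field k]

/-- The action of matrices on columns. -/
def mv (k : Type u) [Field k] (p : ℕ) (B : Type u) [Ring B] [Algebra k B] :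
    Matrix (Fin p) (Fin p) B →ₐ[k] Module.End k (Fin p → B) where
  toFun M :=
    { toFun := fun v => M.mulVec v
      map_add' := fun v w => Matrix.mulVec_add M v w
      map_smul' := fun c v => Matrix.mulVec_smul M c v }
  map_one' := by
    apply LinearMap.ext
    intro v
    exact Matrix.one_mulVec v
  map_mul' M N := by
    apply LinearMap.ext
    intro v
    exact (Matrix.mulVec_mulVec v M N).symm
  map_zero' := by
    apply LinearMap.ext
    intro v
    exact Matrix.zero_mulVec v
  map_add' M N := by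
    apply LinearMap.ext
    intro v
    exact Matrix.add_mulVec M N v
  commutes' c := by
    apply LinearMap.ext
    intro v
    change (algebraMap k (Matrix (Fin p) (Fin p) B) c).mulVec v = c • v
    rw [Algebra.algebraMap_eq_smul_one, Matrix.smul_mulVec, Matrix.one_mulVec]

theorem mv_apply (p : ℕ) (B : Type u) [Ring B] [Algebra k B] (M : Matrix (Fin p) (Fin p) B)
    (v : Fin p → B) : mv k p B M v = M.mulVec v := rfl

/-- The commutant of the matrices consists of the right multiplications. -/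
theorem commutant {p : ℕ} {B : Type u} [Ring B] (i0 : Fin p) (T : (Fin p → B) → (Fin p → B))
    (hT : ∀ (s : Matrix (Fin p) (Fin p) B) (v : Fin p → B), T (s.mulVec v) = s.mulVec (T v))
    (v : Fin p → B) (i : Fin p) : T v i = v i * T (Pi.single i0 1) i0 := by
  classical
  let s : Matrix (Fin p) (Fin p) B := Matrix.of fun i j => if j = i0 then v i else 0
  have h1 : s.mulVec (Pi.single i0 1) = v := by
    funext i
    rw [Matrix.mulVec, dotProduct, Finset.sum_eq_single i0]
    · simp [s]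
    · intro b _ hb
      rw [Pi.single_eq_of_ne hb, mul_zero]
    · intro h; exact absurd (Finset.mem_univ _) h
  conv_lhs => rw [← h1, hT]
  rw [Matrix.mulVec, dotProduct, Finset.sum_eq_single i0]
  · simp [s]
  · intro b _ hb
    simp [s, hb]
  · intro h; exact absurd (Finset.mem_univ _) h

/-- Cancellation of matrices. -/
theorem equiv_of_matrix {p : ℕ} (hp : p ≠ 0) {B C : CSA.{u, u} k}
    (e : Matrix (Fin p) (Fin p) B ≃ₐ[k] Matrix (Fin p) (Fin p) C) : Nonempty (B ≃ₐ[k] C) := by
  have : NeZero p := ⟨hp⟩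
  have hdim : finrank k B = finrank k C := by
    have h1 := e.toLinearEquiv.finrank_eq
    rw [Module.finrank_matrix, Module.finrank_matrix] at h1
    have h2 : 0 < Fintype.card (Fin p) * Fintype.card (Fin p) := by
      rw [Fintype.card_fin]
      positivity
    exact Nat.eq_of_mul_eq_mul_left h2 h1
  have hdim' : finrank k (Fin p → B) = finrank k (Fin p → C) := by
    rw [Module.finrank_pi_fintype, Module.finrank_pi_fintype]
    exact Finset.sum_congr rfl fun _ _ => hdim
  let t : (Fin p → B) ≃ₗ[k] (Fin p → C) := LinearEquiv.ofFinrankEq _ _ hdim'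
  obtain ⟨φ', hφ'⟩ := exists_intertwiner (mv k p B)
    (((t.symm.conjAlgEquiv k : Module.End k (Fin p → C) ≃ₐ[k] Module.End k (Fin p → B)).toAlgHom).comp
      ((mv k p C).comp e.toAlgHom))
  let φ : (Fin p → B) ≃ₗ[k] (Fin p → C) := φ'.trans t
  have hφ : ∀ s v, φ (s.mulVec v) = (e s).mulVec (φ v) := by
    intro s v
    have h1 := congrArg t (hφ' s v)
    change φ (s.mulVec v) = t (t.symm ((e s).mulVec (t (φ' v)))) at h1
    rwa [LinearEquiv.apply_symm_apply] at h1
  let R : C → (Fin p → C) → (Fin p → C) := fun c w i => w i * c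
  have hR : ∀ c s w, R c (Matrix.mulVec s w) = Matrix.mulVec s (R c w) := by
    intro c s w
    funext i
    change (∑ j, s i j * w j) * c = ∑ j, s i j * (w j * c)
    rw [Finset.sum_mul]
    exact Finset.sum_congr rfl fun j _ => mul_assoc _ _ _
  let T : C → (Fin p → B) → (Fin p → B) := fun c v => φ.symm (R c (φ v))
  have hT : ∀ c s v, T c (Matrix.mulVec s v) = Matrix.mulVec s (T c v) := by
    intro c s v
    apply φ.injective
    change φ (φ.symm (R c (φ (s.mulVec v)))) = φ (s.mulVec (φ.symm (R c (φ v))))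
    rw [hφ, LinearEquiv.apply_symm_apply, hφ, LinearEquiv.apply_symm_apply, hR]
  let i0 : Fin p := 0
  let e0 : Fin p → B := Pi.single i0 1
  have key : ∀ c v i, T c v i = v i * T c e0 i0 := fun c v i => commutant i0 (T c) (hT c) v i
  let ψ : C →ₐ[k] B :=
    { toFun := fun c => T c e0 i0
      map_one' := by
        change (φ.symm (R 1 (φ e0))) i0 = 1
        have h1 : R 1 (φ e0) = φ e0 := funext fun i => mul_one _
        rw [h1, LinearEquiv.symm_apply_apply]
        exact Pi.single_eq_same _ _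
      map_mul' := fun c c' => by
        have h1 : T (c * c') e0 = T c' (T c e0) := by
          change φ.symm (R (c * c') (φ e0)) = φ.symm (R c' (φ (φ.symm (R c (φ e0)))))
          rw [LinearEquiv.apply_symm_apply]
          congr 1
          funext i
          exact (mul_assoc _ _ _).symm
        change T (c * c') e0 i0 = T c e0 i0 * T c' e0 i0
        rw [h1, key c' (T c e0) i0]
      map_zero' := by
        change (φ.symm (R 0 (φ e0))) i0 = 0
        have h1 : R 0 (φ e0) = 0 := funext fun i => mul_zero _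
        rw [h1, map_zero]
        rfl
      map_add' := fun c c' => by
        change (φ.symm (R (c + c') (φ e0))) i0 =
          (φ.symm (R c (φ e0))) i0 + (φ.symm (R c' (φ e0))) i0
        have h1 : R (c + c') (φ e0) = R c (φ e0) + R c' (φ e0) := funext fun i => mul_add _ _ _
        rw [h1, map_add]
        rfl
      commutes' := fun r => by
        change (φ.symm (R (algebraMap k C r) (φ e0))) i0 = algebraMap k B r
        have h1 : R (algebraMap k C r) (φ e0) = r • φ e0 := by
          funext i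
          change φ e0 i * algebraMap k C r = r • φ e0 i
          rw [← Algebra.commutes, Algebra.smul_def]
        rw [h1, map_smul, LinearEquiv.symm_apply_apply]
        change r • (Pi.single i0 1 : Fin p → B) i0 = _
        rw [Pi.single_eq_same, Algebra.algebraMap_eq_smul_one] }
  have hinj : Function.Injective ψ := ψ.toRingHom.injective
  exact ⟨(AlgEquiv.ofBijective ψ (bij_of_inj hdim.symm ψ.toLinearMap hinj)).symm⟩

/-- Brauer equivalent algebras of the same dimension are isomorphic. -/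
theorem equiv_of_brauer {B C : CSA.{u, u} k} (h : IsBrauerEquivalent B C)
    (hdim : finrank k B = finrank k C) : Nonempty (B ≃ₐ[k] C) := by
  obtain ⟨p, q, hp, hq, ⟨e⟩⟩ := h
  have h1 := e.toLinearEquiv.finrank_eq
  rw [Module.finrank_matrix, Module.finrank_matrix, hdim, Fintype.card_fin, Fintype.card_fin] at h1
  have h2 : p * p = q * q := Nat.eq_of_mul_eq_mul_right (Module.finrank_pos (R := k) (M := C)) h1
  have h3 : p = q := Nat.mul_self_inj.1 h2
  subst h3
  exact equiv_of_matrix hp e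

theorem brauer_of_equiv {B C : CSA.{u, u} k} (e : B ≃ₐ[k] C) : IsBrauerEquivalent B C :=
  ⟨1, 1, one_ne_zero, one_ne_zero, ⟨e.mapMatrix⟩⟩

end unique

section

variable {k : Type u} [Field k] {L : Type u} [Field L] [Algebra k L] {n : ℕ} {σ : L ≃ₐ[k] L}
  {a : k}

/-- Transport of the data. -/
noncomputable def CycData.congr {A B : Type u} [Ring A] [Algebra k A] [Ring B] [Algebra k B]
    (d : CycData L n σ a A) (e : A ≃ₐ[k] B) : CycData L n σ a B where
  inc := e.toAlgHom.comp d.inc
  z := e d.z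
  comm l := by
    change e (d.inc l) * e d.z = e d.z * e (d.inc (σ l))
    rw [← map_mul, d.comm, map_mul]
  pow := by rw [← map_pow, d.pow, AlgEquiv.commutes]
  bij := by
    have h : (fun f : Fin n → L => ∑ j : Fin n, (e d.z) ^ (j : ℕ) *
        (e.toAlgHom.comp d.inc) (f j)) =
        e ∘ (fun f : Fin n → L => ∑ j : Fin n, d.z ^ (j : ℕ) * d.inc (f j)) := by
      funext f
      rw [Function.comp_apply, map_sum]
      refine Finset.sum_congr rfl fun j _ => ?_
      rw [map_mul, map_pow]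
      rfl
    rw [h]
    exact e.bijective.comp d.bij

/-- The endomorphism algebra of `L` is cyclic with constant `1`. -/
theorem end_data [IsGalois k L] [FiniteDimensional k L] (hL : finrank k L = n)
    (hσ : ∀ τ : L ≃ₐ[k] L, τ ∈ Subgroup.zpowers σ) :
    Nonempty (CycData L n σ 1 (Module.End k L)) := by
  have h1 : ∀ i j : ℕ, i < n → j < n → σ ^ i = σ ^ j → i = j :=
    fun i j hi hj h => pow_inj_of_gen hL hσ hi hj h
  have hnt : Nontrivial (Module.End k L) := inferInstance
  have hdim : finrank k (Module.End k L) = n ^ 2 := by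
    rw [Module.finrank_linearMap, hL, pow_two]
  have hpow : ∀ q : ℕ, (σ.symm.toLinearMap : Module.End k L) ^ q = ((σ⁻¹) ^ q).toLinearMap := by
    intro q
    induction q with
    | zero => rfl
    | succ q ih =>
      rw [pow_succ, pow_succ, ih]
      rfl
  have hw : (σ.symm.toLinearMap : Module.End k L) ^ n = algebraMap k (Module.End k L) 1 := by
    rw [hpow, inv_pow, pow_n_of_gen hL hσ, inv_one, map_one]
    rfl
  have hu : IsUnit (σ.symm.toLinearMap : Module.End k L) := by
    refine ⟨⟨σ.symm.toLinearMap, σ.toLinearMap, ?_, ?_⟩, rfl⟩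
    · apply LinearMap.ext
      intro x
      exact σ.symm_apply_apply x
    · apply LinearMap.ext
      intro x
      exact σ.apply_symm_apply x
  have hc : ∀ l, (Algebra.lmul k L : L →ₐ[k] Module.End k L) l * σ.symm.toLinearMap =
      σ.symm.toLinearMap * (Algebra.lmul k L : L →ₐ[k] Module.End k L) (σ l) := by
    intro l
    apply LinearMap.ext
    intro x
    change l * σ.symm x = σ.symm (σ l * x)
    rw [map_mul, AlgEquiv.symm_apply_apply]
  exact ⟨@CycData.ofUnit k _ L _ _ n σ (Module.End k L) _ _ hnt _ _ hL hdim h1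
    (Algebra.lmul k L) (σ.symm.toLinearMap) hu hc 1 hw⟩

/-- The Brauer class of a tensor product. -/
theorem brauer_tensor {B C E X Y : CSA.{u, u} k} (hB : IsBrauerEquivalent B X)
    (hC : IsBrauerEquivalent C Y) (e : E ≃ₐ[k] B ⊗[k] C) {D : CSA.{u, u} k} {N : ℕ} (hN : N ≠ 0)
    (e' : X ⊗[k] Y ≃ₐ[k] Matrix (Fin N) (Fin N) D) : IsBrauerEquivalent E D := by
  obtain ⟨p, q, hp, hq, ⟨e1⟩⟩ := hB
  obtain ⟨r, s, hr, hs, ⟨e2⟩⟩ := hC
  refine ⟨p * r, q * s * N, by positivity, by positivity, ⟨?_⟩⟩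
  have f1 : Matrix (Fin (p * r)) (Fin (p * r)) E ≃ₐ[k]
      Matrix (Fin p × Fin r) (Fin p × Fin r) (B ⊗[k] C) :=
    (Matrix.reindexAlgEquiv k E finProdFinEquiv).symm.trans e.mapMatrix
  have f2 : Matrix (Fin p × Fin r) (Fin p × Fin r) (B ⊗[k] C) ≃ₐ[k]
      Matrix (Fin p) (Fin p) B ⊗[k] Matrix (Fin r) (Fin r) C :=
    (Matrix.kroneckerTMulAlgEquiv (Fin p) (Fin r) k k B C).symm
  have f3 : Matrix (Fin p) (Fin p) B ⊗[k] Matrix (Fin r) (Fin r) C ≃ₐ[k]
      Matrix (Fin q) (Fin q) X ⊗[k] Matrix (Fin s) (Fin s) Y := Algebra.TensorProduct.congr e1 e2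
  have f4 : Matrix (Fin q) (Fin q) X ⊗[k] Matrix (Fin s) (Fin s) Y ≃ₐ[k]
      Matrix (Fin q × Fin s) (Fin q × Fin s) (X ⊗[k] Y) :=
    Matrix.kroneckerTMulAlgEquiv (Fin q) (Fin s) k k X Y
  have f5 : Matrix (Fin q × Fin s) (Fin q × Fin s) (X ⊗[k] Y) ≃ₐ[k]
      Matrix (Fin (q * s)) (Fin (q * s)) (Matrix (Fin N) (Fin N) D) :=
    (Matrix.reindexAlgEquiv k _ finProdFinEquiv).trans e'.mapMatrix
  have f6 : Matrix (Fin (q * s)) (Fin (q * s)) (Matrix (Fin N) (Fin N) D) ≃ₐ[k]
      Matrix (Fin (q * s * N)) (Fin (q * s * N)) D :=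
    (Matrix.compAlgEquiv (Fin (q * s)) (Fin N) D k).trans
      (Matrix.reindexAlgEquiv k D finProdFinEquiv)
  exact ((((f1.trans f2).trans f3).trans f4).trans f5).trans f6

theorem brauer_op {B C X Y : CSA.{u, u} k} (hB : IsBrauerEquivalent B X)
    (e : C ≃ₐ[k] (B : Type u)ᵐᵒᵖ) (e' : Y ≃ₐ[k] (X : Type u)ᵐᵒᵖ) : IsBrauerEquivalent C Y := by
  obtain ⟨p, q, hp, hq, ⟨e1⟩⟩ := hB
  refine ⟨p, q, hp, hq, ⟨?_⟩⟩
  exact (((e.mapMatrix.trans (AlgEquiv.mopMatrix (R := k) (α := B) (m := Fin p))).trans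
    (AlgEquiv.op e1)).trans (AlgEquiv.mopMatrix (R := k) (α := X) (m := Fin q)).symm).trans
      e'.symm.mapMatrix

/-- D4a: the multiples of a cyclic algebra. -/
theorem brauer_of_isMultiple [IsGalois k L] [FiniteDimensional k L] (hn : 0 < n)
    (hL : finrank k L = n) (hσ : ∀ τ : L ≃ₐ[k] L, τ ∈ Subgroup.zpowers σ) (ha : a ≠ 0)
    {A : CSA.{u, u} k} (dA : CycData L n σ a A) {i : ℤ} {B : CSA.{u, u} k}
    (h : IsMultiple A i B) : ∀ C : CSA.{u, u} k, Nonempty (CycData L n σ (a ^ i) C) →
      IsBrauerEquivalent B C := by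
  have hσn := pow_n_of_gen hL hσ
  induction h with
  | self =>
    rintro C ⟨d⟩
    rw [zpow_one] at d
    obtain ⟨e⟩ := nonempty_equiv dA d
    exact brauer_of_equiv e
  | one C e =>
    rintro C' ⟨d⟩
    rw [zpow_zero] at d
    obtain ⟨e⟩ := e
    obtain ⟨d'⟩ := end_data hL hσ
    obtain ⟨e'⟩ := nonempty_equiv d d'
    have e2 : C' ≃ₐ[k] Matrix (Fin (finrank k L)) (Fin (finrank k L)) C :=
      (e'.trans (algEquivMatrix (Module.finBasis k L))).trans e.symm.mapMatrix
    exact brauer_of_matrix (by rw [hL]; exact hn.ne') e2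
  | mul i j B C E _ _ e hB hC =>
    rintro C' ⟨d⟩
    obtain ⟨e⟩ := e
    have hai : a ^ i ≠ 0 := zpow_ne_zero _ ha
    have haj : a ^ j ≠ 0 := zpow_ne_zero _ ha
    obtain ⟨X, hX, ⟨dX⟩⟩ := exists_cyc hn hL σ hσ hai
    obtain ⟨Y, hY, ⟨dY⟩⟩ := exists_cyc hn hL σ hσ haj
    rw [zpow_add₀ ha] at d
    have : IsSimpleRing (X ⊗[k] Y) := isSimple_tensor_ring
    obtain ⟨e'⟩ := tensor_equiv hn hL hσn hai dX dY d
    exact brauer_tensor (hB X ⟨dX⟩) (hC Y ⟨dY⟩) e hn.ne' e'
  | inv i B C _ e hB =>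
    rintro C' ⟨d⟩
    obtain ⟨e⟩ := e
    have hai : a ^ i ≠ 0 := zpow_ne_zero _ ha
    obtain ⟨X, hX, ⟨dX⟩⟩ := exists_cyc hn hL σ hσ hai
    rw [_root_.zpow_neg] at d
    obtain ⟨e'⟩ := nonempty_equiv d (dX.op hn hai)
    exact brauer_op (hB X ⟨dX⟩) e e'
  | equiv i B C _ e hB =>
    intro C' hC'
    exact e.symm.trans (hB C' hC')

/-- The data for an algebra of degree `n` in the class. -/
theorem data_of_isMultiple [IsGalois k L] [FiniteDimensional k L] (hn : 0 < n)
    (hL : finrank k L = n) (hσ : ∀ τ : L ≃ₐ[k] L, τ ∈ Subgroup.zpowers σ) (ha : a ≠ 0)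
    {A : CSA.{u, u} k} (dA : CycData L n σ a A) {i : ℤ} {B : CSA.{u, u} k}
    (hB : finrank k B = n ^ 2) (h : IsMultiple A i B) :
    Nonempty (CycData L n σ (a ^ i) B) := by
  obtain ⟨C, hC, ⟨d⟩⟩ := exists_cyc hn hL σ hσ (zpow_ne_zero i ha)
  obtain ⟨e⟩ := equiv_of_brauer (brauer_of_isMultiple hn hL hσ ha dA h C ⟨d⟩) (hB.trans hC.symm)
  exact ⟨d.congr e.symm⟩

end

end Pool.Agent.H49.Cyc
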