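import Pool.Agent.H49.Cyc.Arrange
import Pool.Agent.H49.Cyc.BrE
import Pool.Agent.H49.GSB.Final

/-!
# Cyclic algebras which generate the same subgroup of the Brauer group
-/

open Module TensorProduct
open Pool.Agent.H72.SB hiding IsFunctionField

namespace Pool.Agent.H49.Cyc

open Pool.Agent.H49.GSB

universe u

variable {k : Type u} [Field k]

theorem coprime_of_dvd {g : ℕ} {i : ℤ} (h : (g : ℤ) ∣ i - 1 ∨ (g : ℤ) ∣ i + 1) :
    IsCoprime i (g : ℤ) := by
  rcases h with ⟨c, hc⟩ | ⟨c, hc⟩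
  · exact ⟨1, -c, by linarith⟩
  · exact ⟨-1, c, by linarith⟩

theorem dvd_nat {g r : ℕ} {i : ℤ} (hr : r ≠ 0) (hri : (g : ℤ) ∣ r - i)
    (h : (g : ℤ) ∣ i - 1 ∨ (g : ℤ) ∣ i + 1) : g ∣ r - 1 ∨ g ∣ r + 1 := by
  rcases h with h | h
  · left
    have h1 : (g : ℤ) ∣ ((r - 1 : ℕ) : ℤ) := by
      have := dvd_add hri h
      rw [Nat.cast_sub (by omega)]
      rwa [show (r : ℤ) - i + (i - 1) = r - (1 : ℕ) by push_cast; ring] at this
    exact_mod_cast h1
  · right
    have h1 : (g : ℤ) ∣ ((r + 1 : ℕ) : ℤ) := by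
      have := dvd_add hri h
      rwa [show (r : ℤ) - i + (i + 1) = (r + 1 : ℕ) by push_cast; ring] at this
    exact_mod_cast h1

theorem inCyclic_of_isMultiple {A B : CSA.{u, u} k} {i : ℤ} (h : IsMultiple A i B) :
    InCyclic A B := by
  induction h with
  | self => exact .self
  | one C e => exact .one C e
  | mul i j B C E _ _ e hB hC => exact .mul B C E hB hC e
  | inv i B C _ e hB => exact .inv B C hB e
  | equiv i B C _ e hB => exact .equiv B C hB e

theorem common_cyclic [Infinite k] {A B : CSA.{u, u} k} {n m : ℕ} {i j : ℤ}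
    (hA : finrank k A = n ^ 2) (hB : finrank k B = n ^ 2) (hm : 1 ≤ m) (hmn : m < n)
    (hAB : IsMultiple A i B) (hBA : IsMultiple B j A) (L : Type u) [Field L] [Algebra k L]
    [IsGalois k L] [IsCyclic (L ≃ₐ[k] L)] (hL : finrank k L = n) (f : L →ₐ[k] A)
    (h : Nat.gcd m n ∈ ({1, 2, 3, 4, 6} : Set ℕ) ∨ (Nat.gcd m n : ℤ) ∣ i - 1 ∨
      (Nat.gcd m n : ℤ) ∣ i + 1) :
    ∃ (F : Type u) (_ : Field F) (_ : Algebra k F),
      H72.SB.IsFunctionField A m F ∧ H72.SB.IsFunctionField B m F := by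
  have : FiniteDimensional k L := FiniteDimensional.of_finrank_pos (by omega)
  obtain ⟨σ, hσ⟩ := IsCyclic.exists_generator (α := L ≃ₐ[k] L)
  obtain ⟨a, ha, ⟨dA⟩⟩ := exists_data hL hσ hA f
  have hn : n ≠ 0 := by omega
  have key : ∀ (r : ℕ), Nat.Coprime r n → Nonempty (CycData L n σ (a ^ r) B) →
      (Nat.gcd m n ∣ r - 1 ∨ Nat.gcd m n ∣ r + 1) → ∃ (F : Type u) (_ : Field F) (_ : Algebra k F),
      H72.SB.IsFunctionField A m F ∧ H72.SB.IsFunctionField B m F := by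
    rintro r hr ⟨dB⟩ h
    exact common hL ha hA hB hm hmn hr dA dB h
  have hr0 : ∀ r, Nat.Coprime r n → r ≠ 0 := by
    rintro r hr rfl
    rw [Nat.coprime_zero_left] at hr
    omega
  have hdata : ∀ i : ℤ, IsMultiple A i B → Nonempty (CycData L n σ (a ^ i) B) := fun i hi =>
    data_of_isMultiple (by omega) hL hσ ha dA hB hi
  rcases h with h | h
  · obtain ⟨r, h1, -, h2⟩ := exists_exponent (g := 1) hn ha hdata (inCyclic_of_isMultiple hBA) hAB
      (one_dvd n) (by rw [Nat.cast_one]; exact isCoprime_one_right)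
    refine key r h1 h2 ?_
    exact dvd_of_small (h1.coprime_dvd_right (Nat.gcd_dvd_right m n)) (hr0 r h1) (by simpa using h)
  · obtain ⟨r, h1, h3, h2⟩ := exists_exponent hn ha hdata (inCyclic_of_isMultiple hBA) hAB
      (Nat.gcd_dvd_right m n) (coprime_of_dvd h)
    exact key r h1 h2 (dvd_nat (hr0 r h1) h3 h)

/-- The main theorem. -/
theorem same_iff_cyclic {A B : CSA.{u, u} k} {n m : ℕ} {i j : ℤ}
    (hA : finrank k A = n ^ 2) (hB : finrank k B = n ^ 2) (hm : 1 ≤ m) (hmn : m < n)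
    (hAB : IsMultiple A i B) (hBA : IsMultiple B j A) (L : Type u) [Field L] [Algebra k L]
    [IsGalois k L] [IsCyclic (L ≃ₐ[k] L)] (hL : finrank k L = n) (f : L →ₐ[k] A)
    (h : Nat.gcd m n ∈ ({1, 2, 3, 4, 6} : Set ℕ) ∨ (Nat.gcd m n : ℤ) ∣ i - 1 ∨
      (Nat.gcd m n : ℤ) ∣ i + 1) :
    (∃ (F : Type u) (_ : Field F) (_ : Algebra k F),
      H72.SB.IsFunctionField A m F ∧ H72.SB.IsFunctionField B m F) ∧
    ∀ (F : Type u) [Field F] [Algebra k F],
      H72.SB.IsFunctionField A m F ↔ H72.SB.IsFunctionField B m F := by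
  rcases finite_or_infinite k with hk | hk
  · obtain ⟨e⟩ := nonempty_algEquiv_of_finite A B (by rw [hA, hB])
    obtain ⟨F, i1, i2, hF⟩ := Pool.Agent.H72.SB.exists_functionField A hA hmn.le
    exact ⟨⟨F, i1, i2, hF, hF.congr e⟩, fun F _ _ => ⟨fun h => h.congr e, fun h => h.congr e.symm⟩⟩
  · obtain ⟨F₀, i1, i2, h1, h2⟩ := common_cyclic hA hB hm hmn hAB hBA L hL f h
    refine ⟨⟨F₀, i1, i2, h1, h2⟩, fun F _ _ => ⟨fun h3 => ?_, fun h3 => ?_⟩⟩
    · obtain ⟨e⟩ := functionField_unique A hA (by omega) h1 h3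
      exact h2.congr_field e
    · obtain ⟨e⟩ := functionField_unique B hB (by omega) h2 h3
      exact h1.congr_field e

end Pool.Agent.H49.Cyc
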