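import Pool.Agent.H49.Cyc.Skolem
import Pool.Agent.H49.Cyc.Mult

/-!
# The choice of the exponent
-/

open Module TensorProduct MulOpposite
open Pool.Agent.H72.SB hiding IsFunctionField

namespace Pool.Agent.H49.Cyc

open Pool.Agent.H49.GSB

universe u

/-- An arithmetic progression `a + t b` with `a`, `b` coprime contains a number prime to `n`. -/
theorem exists_coprime_shift {a b : ℤ} (h : IsCoprime a b) {n : ℕ} (hn : n ≠ 0) :
    ∃ t : ℤ, IsCoprime (a + t * b) n := by
  classical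
  let T : ℕ := ∏ p ∈ n.primeFactors.filter (fun p : ℕ => ¬ (p : ℤ) ∣ a), p
  refine ⟨T, ?_⟩
  rw [Int.isCoprime_iff_gcd_eq_one]
  by_contra hcon
  obtain ⟨p, hp, hpd⟩ := Nat.exists_prime_and_dvd hcon
  have h1 : (p : ℤ) ∣ a + T * b := (Int.natCast_dvd_natCast.2 hpd).trans (Int.gcd_dvd_left _ _)
  have h2 : p ∣ n := by
    have := (Int.natCast_dvd_natCast.2 hpd).trans (Int.gcd_dvd_right (a + T * b) n)
    exact_mod_cast this
  have hpn : p ∈ n.primeFactors := Nat.mem_primeFactors.2 ⟨hp, h2, hn⟩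
  have hpi : Prime (p : ℤ) := Nat.prime_iff_prime_int.1 hp
  by_cases hpa : (p : ℤ) ∣ a
  · have h3 : (p : ℤ) ∣ T * b := (Int.dvd_add_right hpa).1 h1
    rcases hpi.dvd_or_dvd h3 with h4 | h4
    · have h5 : p ∣ T := by exact_mod_cast h4
      rw [Prime.dvd_finsetProd_iff hp.prime] at h5
      obtain ⟨q, hq, hpq⟩ := h5
      rw [Finset.mem_filter, Nat.mem_primeFactors] at hq
      have h6 := (Nat.prime_dvd_prime_iff_eq hp hq.1.1).1 hpq
      subst h6
      exact hq.2 hpa
    · have h5 : (p : ℤ) ∣ 1 := by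
        obtain ⟨u, v, huv⟩ := h
        rw [← huv]
        exact dvd_add (Dvd.dvd.mul_left hpa u) (Dvd.dvd.mul_left h4 v)
      exact hpi.not_isUnit (isUnit_of_dvd_one h5)
  · have h3 : (p : ℤ) ∣ T := by
      have : p ∣ T := Finset.dvd_prod_of_mem _ (Finset.mem_filter.2 ⟨hpn, hpa⟩)
      exact_mod_cast this
    exact hpa ((Int.dvd_add_left (Dvd.dvd.mul_right h3 b)).1 h1)

variable {k : Type u} [Field k]

/-- Composition. -/
theorem IsMultiple.trans {A B C : CSA.{u, u} k} {i j : ℤ} (h : IsMultiple A i B)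
    (h' : IsMultiple B j C) : IsMultiple A (i * j) C := by
  induction h' with
  | self => rw [mul_one]; exact h
  | one C e => rw [mul_zero]; exact .one C e
  | mul j₁ j₂ B' C' E _ _ e h1 h2 => rw [mul_add]; exact .mul _ _ B' C' E h1 h2 e
  | inv j B' C' _ e h1 => rw [mul_neg]; exact .inv _ B' C' h1 e
  | equiv j B' C' _ e h1 => exact .equiv _ B' C' h1 e

/-- The base field as a central simple algebra. -/
noncomputable def kCSA (k : Type u) [Field k] : CSA.{u, u} k := { carrier := k }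

/-- Matrices over the base field as a central simple algebra. -/
noncomputable def matCSA (k : Type u) [Field k] (N : ℕ) (hN : N ≠ 0) : CSA.{u, u} k :=
  have : NeZero N := ⟨hN⟩
  { carrier := Matrix (Fin N) (Fin N) k }

theorem mat_equiv (N : ℕ) (hN : N ≠ 0) : IsBrauerEquivalent (matCSA k N hN) (kCSA k) := by
  refine ⟨1, N, one_ne_zero, hN, ⟨?_⟩⟩
  have e1 : Matrix (Fin 1) (Fin 1) (Matrix (Fin N) (Fin N) k) ≃ₐ[k]
      Matrix (Fin (1 * N)) (Fin (1 * N)) k :=
    (Matrix.compAlgEquiv (Fin 1) (Fin N) k k).trans (Matrix.reindexAlgEquiv k k finProdFinEquiv)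
  exact e1.trans (Matrix.reindexAlgEquiv k k (finCongr (one_mul N)))

/-- `A ⊗ Aᵒᵖ` is a matrix algebra. -/
theorem mulLeftRight_bijective (A : Type u) [Ring A] [Algebra k A] [FiniteDimensional k A]
    [IsSimpleRing A] [Algebra.IsCentral k A] : Function.Bijective (AlgHom.mulLeftRight k A) := by
  classical
  have hsurj : Function.Surjective (AlgHom.mulLeftRight k A) := by
    intro T
    let b := Module.finBasis k A
    obtain ⟨r, hr⟩ := exists_bimod T (Finset.univ.image b)
    refine ⟨r, b.ext fun i => ?_⟩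
    rw [hr (b i) (Finset.mem_image_of_mem _ (Finset.mem_univ i))]
    exact act_apply r (b i)
  refine ⟨?_, hsurj⟩
  refine (LinearMap.injective_iff_surjective_of_finrank_eq_finrank
    (f := (AlgHom.mulLeftRight k A).toLinearMap) ?_).2 hsurj
  rw [Module.finrank_tensorProduct, Module.finrank_linearMap,
    (MulOpposite.opLinearEquiv k : A ≃ₗ[k] Aᵐᵒᵖ).finrank_eq]

/-- The difference. -/
theorem IsMultiple.sub_one {A : CSA.{u, u} k} {x : ℤ} (h : IsMultiple A x A) :
    IsMultiple A (x + -1) (kCSA k) := by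
  have h1 : IsMultiple A (-1) (opCSA A) := .inv 1 A (opCSA A) .self ⟨AlgEquiv.refl⟩
  have hN : finrank k A ≠ 0 := Module.finrank_pos.ne'
  have e : matCSA k (finrank k A) hN ≃ₐ[k] A ⊗[k] (A : Type u)ᵐᵒᵖ :=
    ((AlgEquiv.ofBijective _ (mulLeftRight_bijective (k := k) A)).trans
      (algEquivMatrix (Module.finBasis k A))).symm
  exact .equiv _ _ _ (.mul x (-1) A (opCSA A) _ h h1 ⟨e⟩) (mat_equiv _ hN)

/-- Changing the exponent. -/
theorem IsMultiple.add {A B : CSA.{u, u} k} {i x : ℤ} (h : IsMultiple A i B)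
    (hx : IsMultiple A x (kCSA k)) : IsMultiple A (i + x) B :=
  .mul i x B (kCSA k) B h hx ⟨(Algebra.TensorProduct.rid k k B).symm⟩

theorem IsMultiple.neg {A : CSA.{u, u} k} {x : ℤ} (h : IsMultiple A x (kCSA k)) :
    IsMultiple A (-x) (kCSA k) :=
  .inv x (kCSA k) (kCSA k) h ⟨AlgEquiv.toOpposite k k⟩

theorem IsMultiple.smul {A : CSA.{u, u} k} {x : ℤ} (h : IsMultiple A x (kCSA k)) (t : ℤ) :
    IsMultiple A (t * x) (kCSA k) := by
  have key : ∀ t : ℕ, IsMultiple A (t * x) (kCSA k) := by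
    intro t
    induction t with
    | zero => simpa using IsMultiple.one (A := A) (kCSA k) ⟨AlgEquiv.refl⟩
    | succ t ih =>
      have := ih.add h
      rwa [show ((t + 1 : ℕ) : ℤ) * x = t * x + x by push_cast; ring]
  obtain ⟨t, rfl | rfl⟩ := t.eq_nat_or_neg
  · exact key t
  · rw [neg_mul]
    exact (key t).neg

section

variable {L : Type u} [Field L] [Algebra k L] {n g : ℕ} {σ : L ≃ₐ[k] L} {a : k}

/-- D4b: the choice of the exponent. -/
theorem exists_exponent (hn : n ≠ 0) (ha : a ≠ 0) {A B : CSA.{u, u} k}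
    (hdata : ∀ i : ℤ, IsMultiple A i B → Nonempty (CycData L n σ (a ^ i) B))
    (hBA : InCyclic B A) {i : ℤ} (hi : IsMultiple A i B) (hg : g ∣ n) (hig : IsCoprime i (g : ℤ)) :
    ∃ r : ℕ, Nat.Coprime r n ∧ (g : ℤ) ∣ r - i ∧ Nonempty (CycData L n σ (a ^ r) B) := by
  obtain ⟨j, hj⟩ := exists_isMultiple hBA
  have hx : IsMultiple A (i * j + -1) (kCSA k) := (hi.trans hj).sub_one
  have h1 : IsCoprime i (g * (i * j + -1)) := by
    refine IsCoprime.mul_right hig ⟨j, -1, ?_⟩
    ring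
  obtain ⟨t, ht⟩ := exists_coprime_shift h1 hn
  have h2 : IsMultiple A (i + (t * g) * (i * j + -1)) B := hi.add (hx.smul _)
  obtain ⟨d⟩ := hdata _ h2
  obtain ⟨i', hi'⟩ : ∃ i', i + (t * g) * (i * j + -1) = i' := ⟨_, rfl⟩
  rw [hi'] at d
  have h3 : i + t * (g * (i * j + -1)) = i' := by rw [← hi']; ring
  rw [h3] at ht
  have hn' : (0 : ℤ) < n := by positivity
  let r : ℕ := (i' % n).toNat
  have hr : (r : ℤ) = i' % n := Int.toNat_of_nonneg (Int.emod_nonneg _ hn'.ne')
  have hdiv := Int.emod_add_mul_ediv i' n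
  refine ⟨r, ?_, ?_, ?_⟩
  · rw [← Nat.isCoprime_iff_coprime, hr]
    have h4 : i' % n = i' + n * (-(i' / n)) := by linarith
    rw [h4]
    exact IsCoprime.add_mul_left_left_iff.2 ht
  · have h4 : (r : ℤ) - i = g * (t * (i * j + -1)) + n * (-(i' / n)) := by
      rw [hr]
      have : i' % n = i' - n * (i' / n) := by linarith
      rw [this, ← hi']
      ring
    rw [h4]
    refine dvd_add (Dvd.intro _ rfl) (Dvd.dvd.mul_right ?_ _)
    exact_mod_cast hg
  · have h4 : (a ^ (-(i' / n))) ^ n * a ^ i' = a ^ r := by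
      rw [← zpow_natCast, ← zpow_mul, ← zpow_add₀ ha, ← zpow_natCast, hr]
      congr 1
      linarith
    rw [← h4]
    exact ⟨d.twist (zpow_ne_zero _ ha)⟩

end

end Pool.Agent.H49.Cyc
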