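import Pool.Agent.H49.Cyc.Frame

/-!
# Recovering the window determinants

If the products of `i` consecutive window determinants are rational up to a common factor, and `i` is
prime to `n`, then the window determinants are rational up to a common factor.
-/

namespace Pool.Agent.H49.Cyc

open Finset

section seq

variable {R : Type*} [CommRing R] {P : ℕ → R} {n m : ℕ} {α : R}

theorem prod_window (c j : ℕ) :
    (∏ r ∈ range m, ∏ t ∈ range c, P (j + r + 1 + m * t)) * P j =
      ∏ e ∈ range (1 + m * c), P (j + e) := by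
  induction c with
  | zero => simp
  | succ c ih =>
    have h1 : ∀ r, ∏ t ∈ range (c + 1), P (j + r + 1 + m * t) =
        (∏ t ∈ range c, P (j + r + 1 + m * t)) * P (j + (1 + m * c + r)) := by
      intro r
      rw [prod_range_succ, show j + r + 1 + m * c = j + (1 + m * c + r) by ring]
    rw [prod_congr rfl fun r _ => h1 r, prod_mul_distrib,
      show 1 + m * (c + 1) = 1 + m * c + m by ring, prod_range_add, ← ih]
    ring

theorem prod_blocks (i l j : ℕ) :
    ∏ e ∈ range l, ∏ f ∈ range i, P (j + i * e + f) = ∏ e ∈ range (i * l), P (j + e) := by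
  induction l with
  | zero => simp
  | succ l ih =>
    rw [prod_range_succ, ih, mul_add, mul_one, prod_range_add]
    congr 1
    exact prod_congr rfl fun f _ => by rw [add_assoc]

theorem prod_shift (N j : ℕ) :
    (∏ e ∈ range N, P (j + 1 + e)) * P j = (∏ e ∈ range N, P (j + e)) * P (j + N) := by
  rw [← prod_range_succ (fun e => P (j + e)), prod_range_succ' (fun e => P (j + e)), add_zero]
  congr 1
  exact prod_congr rfl fun f _ => by rw [show j + 1 + f = j + (f + 1) by ring]

theorem exists_factor (hP : ∀ j, IsUnit (P j)) (hn : ∀ j, P (j + n) = α ^ m * P j)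
    {S : Subring R} (hS : ∀ x ∈ S, IsUnit x → ∃ y ∈ S, x * y = 1) (hα : α ∈ S) (hαu : IsUnit α)
    {i l t : ℕ} (hil : i * l = 1 + n * t) {h : R} (hh : IsUnit h)
    (hPS : ∀ j, h * ∏ e ∈ range i, P (j + e) ∈ S) : ∃ μ, IsUnit μ ∧ ∀ j, μ * P j ∈ S := by
  have hN : ∀ q j, P (j + n * q) = α ^ (m * q) * P j := by
    intro q
    induction q with
    | zero => intro j; simp
    | succ q ih => intro j; rw [show j + n * (q + 1) = j + n * q + n by ring, hn, ih]; ring
  have hG : ∀ j, ∏ e ∈ range (n * t), P (j + e) =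
      α ^ (m * t * j) * ∏ e ∈ range (n * t), P (0 + e) := by
    intro j
    induction j with
    | zero => simp
    | succ j ih =>
      apply (hP j).mul_right_cancel
      rw [prod_shift, hN, ih]
      ring
  refine ⟨h ^ l * ∏ e ∈ range (n * t), P (0 + e), ?_, fun j => ?_⟩
  · refine (hh.pow l).mul ?_
    exact Finset.prod_induction _ IsUnit (fun a b ha hb => ha.mul hb) isUnit_one fun e _ => hP _
  · have h1 : ∏ e ∈ range l, (h * ∏ f ∈ range i, P (j + i * e + f)) ∈ S :=
      Subring.prod_mem S fun e _ => hPS _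
    rw [prod_mul_distrib, prod_const, card_range, prod_blocks, hil, add_comm 1, prod_range_succ,
      hG, hN] at h1
    have h2 : α ^ (m * t * j + m * t) ∈ S := S.pow_mem hα _
    obtain ⟨y, hy, hxy⟩ := hS _ h2 (hαu.pow _)
    have h3 := S.mul_mem hy h1
    have h4 : y * (h ^ l * (α ^ (m * t * j) * ∏ e ∈ range (n * t), P (0 + e)) *
        0 + h ^ l * (α ^ (m * t * j) * (∏ e ∈ range (n * t), P (0 + e)) *
          (α ^ (m * t) * P j))) =
        (α ^ (m * t * j + m * t) * y) * (h ^ l * (∏ e ∈ range (n * t), P (0 + e)) * P j) := by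
      ring
    have h5 : y * (h ^ l * (α ^ (m * t * j) * (∏ e ∈ range (n * t), P (0 + e)) *
          (α ^ (m * t) * P j))) = h ^ l * (∏ e ∈ range (n * t), P (0 + e)) * P j := by
      rw [mul_zero, zero_add] at h4
      rw [h4, hxy, one_mul]
    rwa [h5] at h3

end seq

namespace Frame

variable {R E : Type*} [CommRing R] [Ring E] {n m : ℕ} {s : R →+* R} {α : R}
  {𝔄 : Frame R E n s α} {b : Fin m → E}
  (hb : ∀ j l : Fin m, 𝔄.co j (b l) = if j = l then 1 else 0)
  {C : Matrix (Fin m) (Fin m) R} (hC : ∀ l, b l * 𝔄.z = ∑ i, b i * 𝔄.inc (C i l))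

include hb hC in
/-- If the echelon basis of the image is rational then so is the echelon basis. -/
theorem rat_of_rat {S : Subring R} (hS : ∀ x ∈ S, IsUnit x → ∃ y ∈ S, x * y = 1) (hα : α ∈ S)
    (hαu : IsUnit α) {c l t : ℕ} (hil : (1 + m * c) * l = 1 + n * t) {φ : Fin m → R}
    (hφ : ∀ l : Fin m, 𝔄.psi b c l * φ l = 1)
    (h : ∀ j (l : Fin m), 𝔄.psi b c j * 𝔄.co j (b l) * φ l ∈ S) (j : ℕ) (l : Fin m) :
    𝔄.co j (b l) ∈ S := by
  have hPu : ∀ j, IsUnit (𝔄.P b j) := P_isUnit hb hC
  -- the determinants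
  have hdet : ∀ j, (∏ l, φ l) * ∏ e ∈ range (1 + m * c), 𝔄.P b (j + e) ∈ S := by
    intro j
    have h1 : (Matrix.of fun r l : Fin m =>
        𝔄.psi b c (j + r) * 𝔄.co (j + r) (b l) * φ l).det ∈ S := by
      rw [Matrix.det_apply]
      refine Subring.sum_mem S fun τ _ => ?_
      rw [Units.smul_def, zsmul_eq_mul]
      exact S.mul_mem (intCast_mem S _) (Subring.prod_mem S fun r _ => h _ _)
    have h2 : (Matrix.of fun r l : Fin m => 𝔄.psi b c (j + r) * 𝔄.co (j + r) (b l) * φ l) =
        Matrix.of fun r l => φ l * (Matrix.of fun r l : Fin m => 𝔄.psi b c (j + (r : ℕ)) *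
          𝔄.win b j r l) r l := by
      ext r l
      simp only [Matrix.of_apply, win]
      ring
    rw [h2, Matrix.det_mul_row] at h1
    have h3 := Matrix.det_mul_column (fun r : Fin m => 𝔄.psi b c (j + (r : ℕ))) (𝔄.win b j)
    rw [h3] at h1
    rw [← prod_window, ← Fin.prod_univ_eq_prod_range (fun r => ∏ t ∈ range c,
      𝔄.P b (j + r + 1 + m * t)) m]
    exact h1
  have hφu : ∀ l, IsUnit (φ l) := fun l => IsUnit.of_mul_eq_one_right _ (hφ l)
  obtain ⟨μ, hμ, hμP⟩ := exists_factor hPu P_add_n hS hα hαu hil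
    (Finset.prod_induction _ IsUnit (fun a b ha hb => ha.mul hb) isUnit_one fun l _ => hφu l) hdet
  have hψ : ∀ j, μ ^ c * 𝔄.psi b c j ∈ S := by
    intro j
    have h1 : μ ^ c * 𝔄.psi b c j = ∏ t ∈ range c, μ * 𝔄.P b (j + 1 + m * t) := by
      rw [prod_mul_distrib, prod_const, card_range, psi]
    rw [h1]
    exact Subring.prod_mem S fun t _ => hμP _
  have hψu : ∀ j, IsUnit (𝔄.psi b c j) := psi_isUnit hb hC c
  obtain ⟨y, hy, hxy⟩ := hS _ (hψ j) ((hμ.pow c).mul (hψu j))
  have h1 := S.mul_mem (S.mul_mem hy (h j l)) (hψ l)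
  have h2 : y * (𝔄.psi b c j * 𝔄.co j (b l) * φ l) * (μ ^ c * 𝔄.psi b c l) =
      (μ ^ c * 𝔄.psi b c j * y) * (𝔄.psi b c l * φ l) * 𝔄.co j (b l) := by ring
  rwa [h2, hxy, hφ, one_mul, one_mul] at h1

end Frame

end Pool.Agent.H49.Cyc
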