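import Pool.Agent.H49.Cyc.Op

/-!
# Cyclic algebras: minimal support, universal property, simplicity
-/

set_option autoImplicit false

open Module TensorProduct

namespace Pool.Agent.H49.Cyc

universe u

variable {k : Type u} [Field k] {L : Type u} [Field L] [Algebra k L] {n : ℕ} {σ : L ≃ₐ[k] L}
  {a : k} {A : Type u} [Ring A] [Algebra k A]

/-- `σ` generates the Galois group, so its first `n` powers are distinct. -/
theorem pow_inj_of_gen [IsGalois k L] [FiniteDimensional k L] (hL : finrank k L = n)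
    (hσ : ∀ τ : L ≃ₐ[k] L, τ ∈ Subgroup.zpowers σ) {i j : ℕ} (hi : i < n) (hj : j < n)
    (h : σ ^ i = σ ^ j) : i = j := by
  have h1 : orderOf σ = n := by
    rw [orderOf_eq_card_of_forall_mem_zpowers hσ, IsGalois.card_aut_eq_finrank, hL]
  exact pow_injOn_Iio_orderOf (by rw [Set.mem_Iio, h1]; exact hi)
    (by rw [Set.mem_Iio, h1]; exact hj) h

theorem pow_n_of_gen [IsGalois k L] [FiniteDimensional k L] (hL : finrank k L = n)
    (hσ : ∀ τ : L ≃ₐ[k] L, τ ∈ Subgroup.zpowers σ) : σ ^ n = 1 := by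
  have h1 : orderOf σ = n := by
    rw [orderOf_eq_card_of_forall_mem_zpowers hσ, IsGalois.card_aut_eq_finrank, hL]
  rw [← h1]
  exact pow_orderOf_eq_one σ

theorem fixed_of_gen [IsGalois k L] [FiniteDimensional k L]
    (hσ : ∀ τ : L ≃ₐ[k] L, τ ∈ Subgroup.zpowers σ) {x : L} (hx : σ x = x) :
    ∃ c : k, algebraMap k L c = x := by
  have h1 : ∀ τ : L ≃ₐ[k] L, τ x = x := by
    intro τ
    have h2 : Subgroup.zpowers σ ≤ MulAction.stabilizer (L ≃ₐ[k] L) x := by
      rw [Subgroup.zpowers_le]
      exact hx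
    exact h2 (hσ τ)
  exact (IsGalois.mem_range_algebraMap_iff_fixed x).2 h1

/-- The minimal support argument: a nonempty family of nonzero vectors which is stable under
`g ↦ ((σ ^ m l - σ ^ i l) g m)` contains a vector with one nonzero coordinate. -/
theorem min_support (hσ : ∀ i j : ℕ, i < n → j < n → σ ^ i = σ ^ j → i = j)
    (P : (Fin n → L) → Prop)
    (hP : ∀ g, P g → ∀ (l : L) (i : Fin n), P fun m => ((σ ^ (m : ℕ)) l - (σ ^ (i : ℕ)) l) * g m)
    {g : Fin n → L} (hg : P g) (hg0 : g ≠ 0) : ∃ (i : Fin n) (c : L), c ≠ 0 ∧ P (Pi.single i c) := by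
  classical
  have key : ∀ s : ℕ, ∀ g : Fin n → L, P g → g ≠ 0 →
      (Finset.univ.filter fun j => g j ≠ 0).card ≤ s →
      ∃ (i : Fin n) (c : L), c ≠ 0 ∧ P (Pi.single i c) := by
    intro s
    induction s with
    | zero =>
      intro g _ hg0 hs
      exfalso
      apply hg0
      rw [Nat.le_zero, Finset.card_eq_zero, Finset.filter_eq_empty_iff] at hs
      funext j
      have := hs (Finset.mem_univ j)
      simpa using this
    | succ s ih =>
      intro g hg hg0 hs
      obtain ⟨i, hi⟩ : ∃ i, g i ≠ 0 := by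
        by_contra hcon
        push Not at hcon
        exact hg0 (funext hcon)
      by_cases h1 : ∃ j, j ≠ i ∧ g j ≠ 0
      · obtain ⟨j, hji, hj⟩ := h1
        have h2 : σ ^ (j : ℕ) ≠ σ ^ (i : ℕ) := fun h => hji (Fin.ext (hσ _ _ j.2 i.2 h))
        obtain ⟨l, hl⟩ : ∃ l, (σ ^ (j : ℕ)) l ≠ (σ ^ (i : ℕ)) l := by
          by_contra hcon
          push Not at hcon
          exact h2 (AlgEquiv.ext hcon)
        refine ih _ (hP g hg l i) ?_ ?_
        · intro h3
          have h4 := congrFun h3 j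
          simp only [Pi.zero_apply, mul_eq_zero] at h4
          rcases h4 with h4 | h4
          · exact hl (sub_eq_zero.1 h4)
          · exact hj h4
        · have h5 : (Finset.univ.filter fun m : Fin n => ((σ ^ (m : ℕ)) l - (σ ^ (i : ℕ)) l) * g m ≠ 0) ⊆
              (Finset.univ.filter fun j => g j ≠ 0).erase i := by
            intro m hm
            rw [Finset.mem_filter] at hm
            rw [Finset.mem_erase, Finset.mem_filter]
            refine ⟨?_, Finset.mem_univ _, right_ne_zero_of_mul hm.2⟩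
            rintro rfl
            apply hm.2
            rw [sub_self, zero_mul]
          have h6 := Finset.card_le_card h5
          rw [Finset.card_erase_of_mem (by simp [hi])] at h6
          omega
      · push Not at h1
        refine ⟨i, g i, hi, ?_⟩
        have h2 : Pi.single i (g i) = g := by
          funext j
          by_cases hj : j = i
          · rw [hj, Pi.single_eq_same]
          · rw [Pi.single_eq_of_ne hj, h1 j hj]
        rw [h2]
        exact hg
  exact key _ g hg hg0 le_rfl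

section general

variable {B : Type*} [Ring B] [Algebra k B]

theorem gen_mul_pow (f : L →ₐ[k] B) (w : B) (hw : ∀ l, f l * w = w * f (σ l)) (q : ℕ) (l : L) :
    f l * w ^ q = w ^ q * f ((σ ^ q) l) := by
  induction q generalizing l with
  | zero => simp
  | succ q ih =>
    rw [pow_succ', ← mul_assoc, hw, mul_assoc, ih, ← mul_assoc, ← pow_succ', pow_succ]
    rfl

/-- The linear map `g ↦ ∑ w ^ j f (g j)`. -/
noncomputable def sumLin (n : ℕ) (f : L →ₐ[k] B) (w : B) : (Fin n → L) →ₗ[k] B where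
  toFun g := ∑ j : Fin n, w ^ (j : ℕ) * f (g j)
  map_add' g h := by
    rw [← Finset.sum_add_distrib]
    exact Finset.sum_congr rfl fun j _ => by rw [Pi.add_apply, map_add, mul_add]
  map_smul' c g := by
    rw [RingHom.id_apply, Finset.smul_sum]
    exact Finset.sum_congr rfl fun j _ => by rw [Pi.smul_apply, map_smul, mul_smul_comm]

theorem sumLin_apply (f : L →ₐ[k] B) (w : B) (g : Fin n → L) :
    sumLin n f w g = ∑ j : Fin n, w ^ (j : ℕ) * f (g j) := rfl

theorem sumLin_single (f : L →ₐ[k] B) (w : B) (i : Fin n) (c : L) :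
    sumLin n f w (Pi.single i c) = w ^ (i : ℕ) * f c := by
  rw [sumLin_apply, Finset.sum_eq_single i]
  · rw [Pi.single_eq_same]
  · intro b _ hb
    rw [Pi.single_eq_of_ne hb, map_zero, mul_zero]
  · intro h; exact absurd (Finset.mem_univ _) h

theorem sumLin_diff (f : L →ₐ[k] B) (w : B) (hw : ∀ l, f l * w = w * f (σ l)) (g : Fin n → L)
    (l : L) (i : Fin n) :
    sumLin n f w (fun m => ((σ ^ (m : ℕ)) l - (σ ^ (i : ℕ)) l) * g m) =
      f l * sumLin n f w g - sumLin n f w g * f ((σ ^ (i : ℕ)) l) := by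
  rw [sumLin_apply, sumLin_apply, Finset.mul_sum, Finset.sum_mul, ← Finset.sum_sub_distrib]
  refine Finset.sum_congr rfl fun m _ => ?_
  rw [← mul_assoc, gen_mul_pow f w hw, mul_assoc, mul_assoc, ← map_mul, ← map_mul, ← mul_sub,
    ← map_sub]
  congr 2
  ring

/-- Independence of the powers of a unit which induces `σ`. -/
theorem sumLin_injective [Nontrivial B] (hσ : ∀ i j : ℕ, i < n → j < n → σ ^ i = σ ^ j → i = j)
    (f : L →ₐ[k] B) (w : B) (hu : IsUnit w) (hw : ∀ l, f l * w = w * f (σ l)) :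
    Function.Injective (sumLin n f w) := by
  rw [← LinearMap.ker_eq_bot, LinearMap.ker_eq_bot']
  intro g hg
  by_contra hg0
  obtain ⟨i, c, hc, h⟩ := min_support hσ (fun g => sumLin n f w g = 0)
    (fun g hg l i => by rw [sumLin_diff f w hw, hg, mul_zero, zero_mul, sub_zero]) hg hg0
  rw [sumLin_single] at h
  have h1 : IsUnit (w ^ (i : ℕ) * f c) := (hu.pow _).mul ((isUnit_iff_ne_zero.2 hc).map f)
  rw [h] at h1
  exact not_isUnit_zero h1

/-- A `CycData` from a unit inducing `σ` and the dimension. -/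
noncomputable def CycData.ofUnit {B : Type u} [Ring B] [Algebra k B] [Nontrivial B]
    [FiniteDimensional k L] [FiniteDimensional k B] (hL : finrank k L = n)
    (hB : finrank k B = n ^ 2)
    (hσ : ∀ i j : ℕ, i < n → j < n → σ ^ i = σ ^ j → i = j)
    (f : L →ₐ[k] B) (w : B) (hu : IsUnit w) (hw : ∀ l, f l * w = w * f (σ l))
    {b : k} (hb : w ^ n = algebraMap k B b) : CycData L n σ b B where
  inc := f
  z := w
  comm := hw
  pow := hb
  bij := by
    refine bij_of_inj ?_ (sumLin n f w) (sumLin_injective hσ f w hu hw)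
    rw [hB, Module.finrank_pi_fintype]
    simp [hL, pow_two]

end general

namespace CycData

variable {B : Type u} [Ring B] [Algebra k B]

theorem z_pow_red (d : CycData L n σ a A) (q : ℕ) :
    d.z ^ q = a ^ (q / n) • d.z ^ (q % n) := by
  conv_lhs => rw [← Nat.mod_add_div q n]
  rw [pow_add, pow_mul, d.pow, ← map_pow, ← Algebra.commutes, Algebra.smul_def]

/-- The linear map underlying the homomorphism given by the universal property. -/
noncomputable def liftLin (d : CycData L n σ a A) (f : L →ₐ[k] B) (w : B) : A →ₗ[k] B :=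
  sumLin n f w ∘ₗ d.equiv.symm.toLinearMap

theorem liftLin_equiv (d : CycData L n σ a A) (f : L →ₐ[k] B) (w : B) (g : Fin n → L) :
    d.liftLin f w (d.equiv g) = sumLin n f w g := by
  rw [liftLin, LinearMap.comp_apply, LinearEquiv.coe_coe, LinearEquiv.symm_apply_apply]

theorem liftLin_single (d : CycData L n σ a A) (hn : 0 < n) (f : L →ₐ[k] B) (w : B)
    (hw : w ^ n = algebraMap k B a) (q : ℕ) (l : L) :
    d.liftLin f w (d.z ^ q * d.inc l) = w ^ q * f l := by
  have h1 : ∀ i : Fin n, d.liftLin f w (d.z ^ (i : ℕ) * d.inc l) = w ^ (i : ℕ) * f l := by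
    intro i
    rw [← sumLin_single d.inc d.z i l, ← sumLin_single f w i l]
    exact d.liftLin_equiv f w _
  rw [d.z_pow_red q, smul_mul_assoc, map_smul, h1 ⟨q % n, Nat.mod_lt _ hn⟩, ← smul_mul_assoc]
  congr 1
  conv_rhs => rw [← Nat.mod_add_div q n]
  rw [pow_add, pow_mul, hw, ← map_pow, ← Algebra.commutes, Algebra.smul_def]

/-- The universal property of a cyclic algebra. -/
noncomputable def lift (d : CycData L n σ a A) (hn : 0 < n) (f : L →ₐ[k] B) (w : B)
    (hc : ∀ l, f l * w = w * f (σ l)) (hw : w ^ n = algebraMap k B a) : A →ₐ[k] B :=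
  AlgHom.ofLinearMap (d.liftLin f w)
    (by
      have := d.liftLin_single hn f w hw 0 1
      simpa using this)
    (by
      intro x y
      obtain ⟨g, rfl⟩ := d.bij.2 x
      obtain ⟨h, rfl⟩ := d.bij.2 y
      simp only [Finset.sum_mul_sum, map_sum]
      refine Finset.sum_congr rfl fun i _ => Finset.sum_congr rfl fun j _ => ?_
      rw [d.liftLin_single hn f w hw, d.liftLin_single hn f w hw]
      have h1 : d.z ^ (i : ℕ) * d.inc (g i) * (d.z ^ (j : ℕ) * d.inc (h j)) =
          d.z ^ ((i : ℕ) + j) * d.inc ((σ ^ (j : ℕ)) (g i) * h j) := by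
        rw [mul_assoc, ← mul_assoc (d.inc (g i)), d.inc_mul_pow, mul_assoc, ← map_mul, ← mul_assoc,
          pow_add]
      rw [h1, d.liftLin_single hn f w hw]
      rw [mul_assoc (w ^ (i : ℕ)), ← mul_assoc (f (g i)), gen_mul_pow f w hc, mul_assoc, ← map_mul,
        ← mul_assoc, pow_add])

theorem lift_single (d : CycData L n σ a A) (hn : 0 < n) (f : L →ₐ[k] B) (w : B)
    (hc : ∀ l, f l * w = w * f (σ l)) (hw : w ^ n = algebraMap k B a) (q : ℕ) (l : L) :
    d.lift hn f w hc hw (d.z ^ q * d.inc l) = w ^ q * f l := d.liftLin_single hn f w hw q l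

theorem lift_inc (d : CycData L n σ a A) (hn : 0 < n) (f : L →ₐ[k] B) (w : B)
    (hc : ∀ l, f l * w = w * f (σ l)) (hw : w ^ n = algebraMap k B a) (l : L) :
    d.lift hn f w hc hw (d.inc l) = f l := by
  have := d.lift_single hn f w hc hw 0 l
  simpa using this

theorem lift_z (d : CycData L n σ a A) (hn : 0 < n) (f : L →ₐ[k] B) (w : B)
    (hc : ∀ l, f l * w = w * f (σ l)) (hw : w ^ n = algebraMap k B a) :
    d.lift hn f w hc hw d.z = w := by
  have := d.lift_single hn f w hc hw 1 1
  simpa using this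

/-- The range of the lift commutes with everything that commutes with `f` and `w`. -/
theorem lift_commute (d : CycData L n σ a A) (hn : 0 < n) (f : L →ₐ[k] B) (w : B)
    (hc : ∀ l, f l * w = w * f (σ l)) (hw : w ^ n = algebraMap k B a) {y : B}
    (h1 : ∀ l, Commute (f l) y) (h2 : Commute w y) (x : A) :
    Commute (d.lift hn f w hc hw x) y := by
  obtain ⟨g, rfl⟩ := d.bij.2 x
  simp only [map_sum]
  refine Commute.sum_left _ _ _ fun j _ => ?_
  rw [d.lift_single hn f w hc hw]
  exact (h2.pow_left _).mul_left (h1 _)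

end CycData

/-- D2: uniqueness (for `n > 0`). -/
theorem nonempty_equiv' (hn : 0 < n) {B : Type u} [Ring B] [Algebra k B]
    (hA : CycData L n σ a A) (hB : CycData L n σ a B) : Nonempty (A ≃ₐ[k] B) := by
  refine ⟨AlgEquiv.ofBijective (hA.lift hn hB.inc hB.z hB.comm hB.pow) ?_⟩
  have h : ⇑(hA.lift hn hB.inc hB.z hB.comm hB.pow) = hB.equiv ∘ hA.equiv.symm := rfl
  rw [h]
  exact hB.equiv.bijective.comp hA.equiv.symm.bijective

/-- D2: uniqueness. -/
theorem nonempty_equiv {B : Type u} [Ring B] [Algebra k B]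
    (hA : CycData L n σ a A) (hB : CycData L n σ a B) : Nonempty (A ≃ₐ[k] B) := by
  rcases Nat.eq_zero_or_pos n with rfl | hn
  · -- both algebras are zero
    have hA' : Subsingleton A := by
      constructor
      intro x y
      obtain ⟨g, rfl⟩ := hA.bij.2 x
      obtain ⟨h, rfl⟩ := hA.bij.2 y
      simp
    have hB' : Subsingleton B := by
      constructor
      intro x y
      obtain ⟨g, rfl⟩ := hB.bij.2 x
      obtain ⟨h, rfl⟩ := hB.bij.2 y
      simp
    exact ⟨AlgEquiv.ofLinearEquiv (0 : A ≃ₗ[k] B) (Subsingleton.elim _ _)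
      (fun _ _ => Subsingleton.elim _ _)⟩
  · exact nonempty_equiv' hn hA hB

theorem CycData.nontrivial (d : CycData L n σ a A) (hn : 0 < n) : Nontrivial A := by
  have : NeZero n := ⟨hn.ne'⟩
  exact d.equiv.symm.toEquiv.nontrivial

theorem CycData.isUnit_z (d : CycData L n σ a A) (hn : 0 < n) (ha : a ≠ 0) : IsUnit d.z :=
  ⟨⟨d.z, d.zi, d.z_mul_zi hn ha, d.zi_mul_z hn ha⟩, rfl⟩

theorem CycData.finrank_eq [FiniteDimensional k L] (d : CycData L n σ a A)
    (hL : finrank k L = n) : finrank k A = n ^ 2 := by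
  rw [finrank_of_data d, hL, pow_two]

section central

variable [IsGalois k L] [FiniteDimensional k L]

theorem CycData.isCentral (d : CycData L n σ a A) (hn : 0 < n) (hL : finrank k L = n)
    (hσ : ∀ τ : L ≃ₐ[k] L, τ ∈ Subgroup.zpowers σ) : Algebra.IsCentral k A where
  out := by
    intro x hx
    rw [Subalgebra.mem_center_iff] at hx
    have : NeZero n := ⟨hn.ne'⟩
    obtain ⟨g, rfl⟩ := d.bij.2 x
    have h0 : ∀ i : Fin n, (i : ℕ) ≠ 0 → g i = 0 := by
      intro i hi
      by_contra hgi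
      have h2 : σ ^ (i : ℕ) ≠ σ ^ 0 := fun h => hi (pow_inj_of_gen hL hσ i.2 hn h)
      obtain ⟨l, hl⟩ : ∃ l, (σ ^ (i : ℕ)) l ≠ (σ ^ 0) l := by
        by_contra hcon
        push Not at hcon
        exact h2 (AlgEquiv.ext hcon)
      have h3 := sumLin_diff d.inc d.z d.comm g l ⟨0, hn⟩
      have h4 : d.inc l * sumLin n d.inc d.z g - sumLin n d.inc d.z g * d.inc ((σ ^ 0) l) = 0 := by
        rw [sub_eq_zero]
        exact hx (d.inc l)
      have h5 := h3.trans h4
      have h5' : sumLin n d.inc d.z (fun m => ((σ ^ (m : ℕ)) l - (σ ^ 0) l) * g m) =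
          sumLin n d.inc d.z 0 := by rw [map_zero]; exact h5
      have h6 := d.bij.1 h5'
      have h7 := congrFun h6 i
      simp only [Pi.zero_apply, mul_eq_zero] at h7
      rcases h7 with h7 | h7
      · exact hl (sub_eq_zero.1 h7)
      · exact hgi h7
    have h1 : ∑ j : Fin n, d.z ^ (j : ℕ) * d.inc (g j) = d.inc (g ⟨0, hn⟩) := by
      rw [Finset.sum_eq_single ⟨0, hn⟩]
      · simp
      · intro b _ hb
        rw [h0 b (fun h => hb (Fin.ext h)), map_zero, mul_zero]
      · intro h; exact absurd (Finset.mem_univ _) h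
    beta_reduce at hx
    rw [h1] at hx
    beta_reduce
    rw [h1]
    -- fixed by `σ`
    have h2 : σ (g ⟨0, hn⟩) = g ⟨0, hn⟩ := by
      have h3 := hx d.z
      rw [d.comm] at h3
      -- z * inc g = z * inc (σ g)
      rcases Nat.lt_or_ge 1 n with h1n | h1n
      · have h4 := d.bij.1 (a₁ := Pi.single ⟨1, h1n⟩ (g ⟨0, hn⟩))
          (a₂ := Pi.single ⟨1, h1n⟩ (σ (g ⟨0, hn⟩))) (by
            have e1 := sumLin_single d.inc d.z ⟨1, h1n⟩ (g ⟨0, hn⟩)
            have e2 := sumLin_single d.inc d.z ⟨1, h1n⟩ (σ (g ⟨0, hn⟩))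
            rw [pow_one] at e1 e2
            exact e1.trans (h3.trans e2.symm))
        have h5 := congrFun h4 ⟨1, h1n⟩
        rw [Pi.single_eq_same, Pi.single_eq_same] at h5
        exact h5.symm
      · have hn1 : n = 1 := by omega
        have h6 := pow_n_of_gen hL hσ
        rw [hn1, pow_one] at h6
        rw [h6]
        rfl
    obtain ⟨c, hc⟩ := fixed_of_gen hσ h2
    refine Algebra.mem_bot.2 ⟨c, ?_⟩
    rw [← hc, AlgHom.commutes]

theorem CycData.isSimple (d : CycData L n σ a A) (hn : 0 < n) (ha : a ≠ 0) (hL : finrank k L = n)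
    (hσ : ∀ τ : L ≃ₐ[k] L, τ ∈ Subgroup.zpowers σ) : IsSimpleRing A := by
  have hnt := d.nontrivial hn
  refine ⟨⟨fun I => ?_⟩⟩
  by_cases hI : I = ⊥
  · exact Or.inl hI
  right
  obtain ⟨x, hx, hx0⟩ : ∃ x ∈ I, x ≠ 0 := by
    by_contra hcon
    push Not at hcon
    apply hI
    rw [eq_bot_iff]
    intro x hx
    rw [TwoSidedIdeal.mem_bot]
    exact hcon x hx
  obtain ⟨g, rfl⟩ := d.bij.2 x
  have hg0 : g ≠ 0 := by
    rintro rfl
    apply hx0
    simp
  obtain ⟨i, c, hc, h⟩ := min_support (n := n) (σ := σ)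
    (fun i j hi hj h => pow_inj_of_gen hL hσ hi hj h)
    (fun g => sumLin n d.inc d.z g ∈ I)
    (fun g hg l i => by
      rw [sumLin_diff d.inc d.z d.comm]
      exact I.sub_mem (I.mul_mem_left _ _ hg) (I.mul_mem_right _ _ hg)) hx hg0
  rw [sumLin_single] at h
  have h1 : IsUnit (d.z ^ (i : ℕ) * d.inc c) :=
    ((d.isUnit_z hn ha).pow _).mul ((isUnit_iff_ne_zero.2 hc).map d.inc)
  obtain ⟨y, hy⟩ := h1.exists_left_inv
  have h2 : (1 : A) ∈ I := by
    rw [← hy]
    exact I.mul_mem_left _ _ h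
  rw [eq_top_iff]
  intro x _
  have := I.mul_mem_left x 1 h2
  rwa [mul_one] at this

/-- A cyclic algebra as a central simple algebra. -/
noncomputable def CycData.csa (d : CycData L n σ a A) (hn : 0 < n) (ha : a ≠ 0)
    (hL : finrank k L = n) (hσ : ∀ τ : L ≃ₐ[k] L, τ ∈ Subgroup.zpowers σ) : CSA.{u, u} k :=
  have := d.isCentral hn hL hσ
  have := d.isSimple hn ha hL hσ
  have := finite_of_data d
  { carrier := A }

end central

end Pool.Agent.H49.Cyc
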