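import Pool.Agent.H49.Cyc.BrC

/-!
# Cyclic algebras: tensor products
-/

set_option autoImplicit false

open Module TensorProduct Matrix

namespace Pool.Agent.H49.Cyc

universe u

variable {k : Type u} [Field k] {L : Type u} [Field L] [Algebra k L] {n : ℕ}

section shift

variable {D : Type u} [Ring D] [Algebra k D]

/-- The shift matrix with `b` at the wrap. -/
def shiftM (k : Type u) [Field k] (n : ℕ) (b : k) (D : Type u) [Ring D] [Algebra k D] :
    Matrix (Fin n) (Fin n) D :=
  Matrix.of fun i j => if (i : ℕ) = j + 1 then 1 else if (i : ℕ) + n = j + 1 then algebraMap k D b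
    else 0

theorem shiftM_apply (b : k) (i j : Fin n) : shiftM k n b D i j =
    if (i : ℕ) = j + 1 then 1 else if (i : ℕ) + n = j + 1 then algebraMap k D b else 0 := rfl

/-- Powers of the shift matrix. -/
theorem shiftM_pow (b : k) (q : ℕ) (hq : q ≤ n) (i j : Fin n) : (shiftM k n b D ^ q) i j =
    if (i : ℕ) = j + q then 1 else if (i : ℕ) + n = j + q then algebraMap k D b else 0 := by
  induction q generalizing i j with
  | zero =>
    have hj := j.2
    rw [pow_zero, Matrix.one_apply]
    by_cases h : i = j
    · subst h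
      simp
    · rw [if_neg h, if_neg (fun h1 => h (Fin.ext (by simpa using h1))), if_neg (by omega)]
  | succ q ih =>
    have hi := i.2
    have hj := j.2
    rw [pow_succ', Matrix.mul_apply]
    rcases Nat.eq_zero_or_pos (i : ℕ) with h0 | h0
    · -- only the last index
      rw [Finset.sum_eq_single (⟨n - 1, by omega⟩ : Fin n)]
      · rw [shiftM_apply, ih (by omega)]
        simp only
        rw [if_neg (by omega), if_pos (by omega)]
        by_cases h1 : n - 1 = (j : ℕ) + q
        · rw [if_pos h1, mul_one, if_neg (by omega), if_pos (by omega)]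
        · rw [if_neg h1, if_neg (by omega), mul_zero, if_neg (by omega), if_neg (by omega)]
      · intro m _ hm
        have hm' : (m : ℕ) ≠ n - 1 := fun h => hm (Fin.ext h)
        have := m.2
        rw [shiftM_apply, if_neg (by omega), if_neg (by omega), zero_mul]
      · intro h; exact absurd (Finset.mem_univ _) h
    · rw [Finset.sum_eq_single (⟨(i : ℕ) - 1, by omega⟩ : Fin n)]
      · rw [shiftM_apply, ih (by omega)]
        simp only
        rw [if_pos (by omega), one_mul]
        by_cases h1 : (i : ℕ) - 1 = (j : ℕ) + q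
        · rw [if_pos h1, if_pos (by omega)]
        · rw [if_neg h1, if_neg (by omega : ¬ (i : ℕ) = j + (q + 1))]
          by_cases h2 : (i : ℕ) - 1 + n = (j : ℕ) + q
          · rw [if_pos h2, if_pos (by omega)]
          · rw [if_neg h2, if_neg (by omega)]
      · intro m _ hm
        have hm' : (m : ℕ) ≠ (i : ℕ) - 1 := fun h => hm (Fin.ext h)
        have := m.2
        rw [shiftM_apply, if_neg (by omega), if_neg (by omega), zero_mul]
      · intro h; exact absurd (Finset.mem_univ _) h

theorem shiftM_pow_n (b : k) : shiftM k n b D ^ n = algebraMap k (Matrix (Fin n) (Fin n) D) b := by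
  ext i j
  have hi := i.2
  have hj := j.2
  rw [shiftM_pow b n le_rfl, Matrix.algebraMap_matrix_apply, if_neg (by omega)]
  by_cases h : i = j
  · subst h
    rw [if_pos rfl, if_pos rfl]
  · rw [if_neg h, if_neg (fun h1 => h (Fin.ext (by omega)))]

/-- The diagonal matrices with the conjugates. -/
noncomputable def diagM (n : ℕ) (σ : L ≃ₐ[k] L) (f : L →ₐ[k] D) :
    L →ₐ[k] Matrix (Fin n) (Fin n) D where
  toFun l := Matrix.diagonal fun j : Fin n => f ((σ ^ (j : ℕ)) l)
  map_one' := by simp
  map_mul' l m := by simp [Matrix.diagonal_mul_diagonal]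
  map_zero' := by simp
  map_add' l m := by simp
  commutes' c := by
    ext i j
    rw [Matrix.algebraMap_matrix_apply, Matrix.diagonal_apply]
    simp

theorem diagM_apply (σ : L ≃ₐ[k] L) (f : L →ₐ[k] D) (l : L) :
    diagM n σ f l = Matrix.diagonal fun j : Fin n => f ((σ ^ (j : ℕ)) l) := rfl

theorem diag_shift (σ : L ≃ₐ[k] L) (hσn : σ ^ n = 1) (f : L →ₐ[k] D) (b : k) (l : L) :
    diagM n σ f l * shiftM k n b D = shiftM k n b D * diagM n σ f (σ l) := by
  ext i j
  rw [diagM_apply, diagM_apply, Matrix.diagonal_mul, Matrix.mul_diagonal, shiftM_apply]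
  by_cases h1 : (i : ℕ) = j + 1
  · rw [if_pos h1, mul_one, one_mul, h1, pow_succ]
    rfl
  · rw [if_neg h1]
    by_cases h2 : (i : ℕ) + n = j + 1
    · rw [if_pos h2, Algebra.commutes]
      congr 2
      have h3 : σ ^ ((i : ℕ) + n) = σ ^ (i : ℕ) := by rw [pow_add, hσn, mul_one]
      rw [← h3, h2, pow_succ]
      rfl
    · rw [if_neg h2, mul_zero, zero_mul]

end shift

end Pool.Agent.H49.Cyc
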