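import Pool.Agent.H49.Cyc.BrA

/-!
# Cyclic algebras: existence
-/

set_option autoImplicit false


open Module TensorProduct

namespace Pool.Agent.H49.Cyc

universe u

variable {k : Type u} [Field k] {L : Type u} [Field L] [Algebra k L] {n : ℕ}

/-- The space of the functions `v : ℤ → L` with `v (j - n) = a v (j)`. -/
def perV (L : Type u) [Field L] [Algebra k L] (n : ℕ) (a : k) : Submodule k (ℤ → L) where
  carrier := {v | ∀ j, v (j - n) = a • v j}
  add_mem' := by
    intro v w hv hw j
    rw [Pi.add_apply, Pi.add_apply, hv, hw, smul_add]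
  zero_mem' := by
    intro j
    simp
  smul_mem' := by
    intro c v hv j
    rw [Pi.smul_apply, Pi.smul_apply, hv, smul_comm]

/-- The shift. -/
def perZ (L : Type u) [Field L] [Algebra k L] (n : ℕ) (a : k) : Module.End k (perV L n a) where
  toFun v := ⟨fun j => v.1 (j - 1), by
    intro j
    have := v.2 (j - 1)
    rw [← this]
    exact congrArg v.1 (by ring)⟩
  map_add' v w := rfl
  map_smul' c v := rfl

theorem perZ_pow (L : Type u) [Field L] [Algebra k L] (n : ℕ) (a : k) (q : ℕ) (v : perV L n a)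
    (j : ℤ) : ((perZ L n a ^ q) v).1 j = v.1 (j - q) := by
  induction q generalizing j with
  | zero => simp
  | succ q ih =>
    rw [pow_succ']
    change ((perZ L n a ^ q) v).1 (j - 1) = _
    rw [ih]
    exact congrArg v.1 (by push_cast; ring)

/-- The action of `l`. -/
noncomputable def perD (n : ℕ) (a : k) (σ : L ≃ₐ[k] L) (hσn : σ ^ n = 1) :
    L →ₐ[k] Module.End k (perV L n a) where
  toFun l :=
    { toFun := fun v => ⟨fun j => (σ ^ j) l * v.1 j, by
        intro j
        have h1 : σ ^ (j - (n : ℤ)) = σ ^ j := by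
          rw [zpow_sub, zpow_natCast, hσn, inv_one, mul_one]
        beta_reduce
        rw [h1, v.2 j, mul_smul_comm]⟩
      map_add' := fun v w => Subtype.ext (funext fun j => mul_add _ _ _)
      map_smul' := fun c v => Subtype.ext (funext fun j => mul_smul_comm _ _ _) }
  map_one' := by
    ext v j
    change (σ ^ j) 1 * v.1 j = v.1 j
    rw [map_one, one_mul]
  map_mul' l m := by
    ext v j
    change (σ ^ j) (l * m) * v.1 j = (σ ^ j) l * ((σ ^ j) m * v.1 j)
    rw [map_mul, mul_assoc]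
  map_zero' := by
    ext v j
    change (σ ^ j) 0 * v.1 j = 0
    rw [map_zero, zero_mul]
  map_add' l m := by
    ext v j
    change (σ ^ j) (l + m) * v.1 j = (σ ^ j) l * v.1 j + (σ ^ j) m * v.1 j
    rw [map_add, add_mul]
  commutes' c := by
    ext v j
    change (σ ^ j) (algebraMap k L c) * v.1 j = c • v.1 j
    rw [AlgEquiv.commutes, Algebra.smul_def]

theorem perD_apply (a : k) (σ : L ≃ₐ[k] L) (hσn : σ ^ n = 1) (l : L) (v : perV L n a) (j : ℤ) :
    (perD n a σ hσn l v).1 j = (σ ^ j) l * v.1 j := rfl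

theorem per_comm (a : k) (σ : L ≃ₐ[k] L) (hσn : σ ^ n = 1) (l : L) :
    perD n a σ hσn l * perZ L n a = perZ L n a * perD n a σ hσn (σ l) := by
  ext v j
  change (σ ^ j) l * v.1 (j - 1) = (σ ^ (j - 1)) (σ l) * v.1 (j - 1)
  congr 1
  rw [zpow_sub_one]
  change _ = (σ ^ j) (σ⁻¹ (σ l))
  congr 1
  exact (σ.symm_apply_apply l).symm

theorem per_pow (a : k) : perZ L n a ^ n = algebraMap k (Module.End k (perV L n a)) a := by
  ext v j
  rw [perZ_pow, v.2 j]
  rfl

/-- The test vector. -/
noncomputable def perDelta (L : Type u) [Field L] [Algebra k L] {n : ℕ} (hn : 0 < n) {a : k}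
    (ha : a ≠ 0) : perV L n a :=
  ⟨fun j => if (n : ℤ) ∣ j then algebraMap k L (a ^ (-(j / n))) else 0, by
    intro j
    have hn' : (n : ℤ) ≠ 0 := by exact_mod_cast hn.ne'
    have h1 : (n : ℤ) ∣ j - n ↔ (n : ℤ) ∣ j := by
      rw [dvd_sub_self_right]
    beta_reduce
    by_cases hj : (n : ℤ) ∣ j
    · rw [if_pos (h1.2 hj), if_pos hj, Algebra.smul_def, ← map_mul]
      congr 1
      obtain ⟨q, rfl⟩ := hj
      have e1 : ((n : ℤ) * q - n) / n = q - 1 := by
        rw [show (n : ℤ) * q - n = n * (q - 1) by ring]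
        exact Int.mul_ediv_cancel_left _ hn'
      have e2 : ((n : ℤ) * q) / n = q := Int.mul_ediv_cancel_left _ hn'
      rw [e1, e2, ← zpow_one_add₀ ha]
      congr 1
      ring
    · rw [if_neg (fun h => hj (h1.1 h)), if_neg hj, smul_zero]⟩

theorem perDelta_ne (L : Type u) [Field L] [Algebra k L] {n : ℕ} (hn : 0 < n) {a : k}
    (ha : a ≠ 0) : perDelta L hn ha ≠ 0 := by
  intro h
  have h1 := congrArg (fun v : perV L n a => v.1 0) h
  change (if (n : ℤ) ∣ 0 then algebraMap k L (a ^ (-((0 : ℤ) / n))) else 0) = 0 at h1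
  simp at h1

section sub

variable {B : Type u} [Ring B] [Algebra k B] {σ : L ≃ₐ[k] L} {a : k}

theorem single_mem (hn : 0 < n) (f : L →ₐ[k] B) (w : B) (hw : w ^ n = algebraMap k B a)
    (q : ℕ) (l : L) : w ^ q * f l ∈ LinearMap.range (sumLin n f w) := by
  have h1 : w ^ q * f l = (a ^ (q / n)) • (w ^ (q % n) * f l) := by
    conv_lhs => rw [← Nat.mod_add_div q n]
    rw [pow_add, pow_mul, hw, ← map_pow, ← Algebra.commutes, Algebra.smul_def, mul_assoc]
  rw [h1]
  refine Submodule.smul_mem _ _ ⟨Pi.single ⟨q % n, Nat.mod_lt _ hn⟩ l, ?_⟩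
  rw [sumLin_single]

/-- The subalgebra generated by the image of `L` and `w`. -/
noncomputable def cycSub (hn : 0 < n) (f : L →ₐ[k] B) (w : B)
    (hc : ∀ l, f l * w = w * f (σ l)) (hw : w ^ n = algebraMap k B a) : Subalgebra k B where
  carrier := LinearMap.range (sumLin n f w)
  mul_mem' := by
    rintro x y ⟨g, rfl⟩ ⟨h, rfl⟩
    rw [sumLin_apply, sumLin_apply, Finset.sum_mul_sum]
    refine Submodule.sum_mem _ fun i _ => Submodule.sum_mem _ fun j _ => ?_
    have h1 : w ^ (i : ℕ) * f (g i) * (w ^ (j : ℕ) * f (h j)) =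
        w ^ ((i : ℕ) + j) * f ((σ ^ (j : ℕ)) (g i) * h j) := by
      rw [mul_assoc, ← mul_assoc (f (g i)), gen_mul_pow f w hc, mul_assoc, ← map_mul, ← mul_assoc,
        pow_add]
    rw [h1]
    exact single_mem hn f w hw _ _
  add_mem' := fun hx hy => Submodule.add_mem _ hx hy
  algebraMap_mem' c := by
    have := single_mem hn f w hw 0 (algebraMap k L c)
    rwa [pow_zero, one_mul, AlgHom.commutes] at this

theorem mem_cycSub {hn : 0 < n} {f : L →ₐ[k] B} {w : B}
    {hc : ∀ l, f l * w = w * f (σ l)} {hw : w ^ n = algebraMap k B a} {x : B} :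
    x ∈ cycSub hn f w hc hw ↔ x ∈ LinearMap.range (sumLin n f w) := Iff.rfl

/-- It is a cyclic algebra if the powers of `w` are independent. -/
noncomputable def cycSubData (hn : 0 < n) (f : L →ₐ[k] B) (w : B)
    (hc : ∀ l, f l * w = w * f (σ l)) (hw : w ^ n = algebraMap k B a)
    (hinj : Function.Injective (sumLin n f w)) : CycData L n σ a (cycSub hn f w hc hw) where
  inc := f.codRestrict (cycSub hn f w hc hw) (fun l => by
    have := single_mem hn f w hw 0 l
    rwa [pow_zero, one_mul] at this)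
  z := ⟨w, by
    have := single_mem hn f w hw 1 1
    rwa [pow_one, map_one, mul_one] at this⟩
  comm l := Subtype.ext (hc l)
  pow := Subtype.ext hw
  bij := by
    have hval : ∀ g : Fin n → L, ((∑ j : Fin n, (⟨w, by
        have := single_mem hn f w hw 1 1
        rwa [pow_one, map_one, mul_one] at this⟩ : cycSub hn f w hc hw) ^ (j : ℕ) *
          (f.codRestrict (cycSub hn f w hc hw) (fun l => by
            have := single_mem hn f w hw 0 l
            rwa [pow_zero, one_mul] at this)) (g j) : cycSub hn f w hc hw) : B) =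
        sumLin n f w g := by
      intro g
      rw [AddSubmonoidClass.coe_finsetSum, sumLin_apply]
      rfl
    constructor
    · intro g h hgh
      apply hinj
      rw [← hval g, ← hval h]
      exact congrArg Subtype.val hgh
    · rintro ⟨x, hx⟩
      obtain ⟨g, rfl⟩ := mem_cycSub.1 hx
      exact ⟨g, Subtype.ext (hval g)⟩

end sub

theorem CycData.exists_csa [IsGalois k L] [FiniteDimensional k L] {σ : L ≃ₐ[k] L} {a : k}
    {A : Type u} [Ring A] [Algebra k A] (d : CycData L n σ a A) (hn : 0 < n) (ha : a ≠ 0)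
    (hL : finrank k L = n) (hσ : ∀ τ : L ≃ₐ[k] L, τ ∈ Subgroup.zpowers σ) :
    ∃ C : CSA.{u, u} k, finrank k C = n ^ 2 ∧ Nonempty (CycData L n σ a C) :=
  ⟨d.csa hn ha hL hσ, d.finrank_eq hL, ⟨d⟩⟩


theorem perV_nontrivial (L : Type u) [Field L] [Algebra k L] {n : ℕ} (hn : 0 < n) {a : k}
    (ha : a ≠ 0) : Nontrivial (perV L n a) := ⟨⟨perDelta L hn ha, 0, perDelta_ne L hn ha⟩⟩

/-- The operators. -/
theorem exists_ops (hn : 0 < n) (σ : L ≃ₐ[k] L) (hσn : σ ^ n = 1) {a : k} (ha : a ≠ 0) :
    ∃ (B : Type u) (_ : Ring B) (_ : Algebra k B) (_ : Nontrivial B) (f : L →ₐ[k] B) (w : B),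
      (∀ l, f l * w = w * f (σ l)) ∧ w ^ n = algebraMap k B a := by
  have hnt := perV_nontrivial L hn ha
  exact ⟨Module.End k (perV L n a), inferInstance, inferInstance, inferInstance, perD n a σ hσn,
    perZ L n a, per_comm a σ hσn, per_pow a⟩

/-- D1: existence of the cyclic algebra. -/
theorem exists_cyc [IsGalois k L] [FiniteDimensional k L] (hn : 0 < n) (hL : finrank k L = n)
    (σ : L ≃ₐ[k] L) (hσ : ∀ τ : L ≃ₐ[k] L, τ ∈ Subgroup.zpowers σ) {a : k} (ha : a ≠ 0) :
    ∃ C : CSA.{u, u} k, finrank k C = n ^ 2 ∧ Nonempty (CycData L n σ a C) := by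
  obtain ⟨B, i1, i2, i3, f, w, hc, hw⟩ := exists_ops hn σ (pow_n_of_gen hL hσ) ha
  have h1 : ∀ i j : ℕ, i < n → j < n → σ ^ i = σ ^ j → i = j :=
    fun i j hi hj h => pow_inj_of_gen hL hσ hi hj h
  have hu : IsUnit w := by
    have h := (isUnit_iff_ne_zero.2 ha).map (algebraMap k B)
    rw [← hw] at h
    exact (isUnit_pow_iff hn.ne').1 h
  have d := cycSubData hn f w hc hw (sumLin_injective h1 f w hu hc)
  exact d.exists_csa hn ha hL hσ

end Pool.Agent.H49.Cyc
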