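import Pool.Agent.H49.Cyc.BrB
import Pool.Agent.H49.GSB.Simple

/-!
# Cyclic algebras: the tensor product
-/

set_option autoImplicit false

open Module TensorProduct Matrix MulOpposite

namespace Pool.Agent.H49.Cyc

open Pool.Agent.H49.GSB

universe u

section simple

variable {k A B : Type*} [Field k] [Ring A] [Algebra k A] [Ring B] [Algebra k B]

theorem BrD_lTensor_act (a : A) (c : Aᵐᵒᵖ) (u : B ⊗[k] A) :
    LinearMap.lTensor B (act (a ⊗ₜ[k] c)) u =
      (1 ⊗ₜ a : B ⊗[k] A) * u * (1 ⊗ₜ c.unop : B ⊗[k] A) := by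
  induction u using TensorProduct.induction_on with
  | zero => simp
  | tmul x y =>
    rw [LinearMap.lTensor_tmul, act_apply, bimod_smul]
    simp
  | add x y hx hy => rw [map_add, hx, hy, mul_add, add_mul]

attribute [local instance] instModuleTensorProductMop in
/-- The tensor product of a simple algebra and a central simple algebra is simple. -/
theorem isSimple_tensor_ring [IsSimpleRing B] [IsSimpleRing A] [Algebra.IsCentral k A]
    [FiniteDimensional k A] : IsSimpleRing (B ⊗[k] A) := by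
  classical
  have hinj : Function.Injective (Algebra.TensorProduct.includeLeft : B →ₐ[k] B ⊗[k] A) :=
    Algebra.TensorProduct.includeLeft_injective (S := k) (algebraMap k A).injective
  have : Nontrivial (B ⊗[k] A) := hinj.nontrivial
  apply IsSimpleRing.of_eq_bot_or_eq_top
  intro J
  by_contra! hJ
  obtain ⟨hJ0, hJ1⟩ := hJ
  apply hJ1
  -- a nonzero element
  obtain ⟨u, huJ, hu⟩ : ∃ u ∈ J, u ≠ 0 := by
    by_contra! h
    apply hJ0
    rw [eq_bot_iff]
    intro x hx
    rw [TwoSidedIdeal.mem_bot]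
    exact h x hx
  let b := Module.finBasis k A
  let e := TensorProduct.equivFinsuppOfBasisRight (M := B) b
  obtain ⟨i, hi⟩ : ∃ i, e u i ≠ 0 := by
    by_contra! h
    apply hu
    apply e.injective
    ext i
    rw [h i, map_zero]
    rfl
  -- the operators of the bimodule preserve `J`
  have hact : ∀ r : A ⊗[k] Aᵐᵒᵖ, LinearMap.lTensor B (act r) u ∈ J := by
    intro r
    induction r using TensorProduct.induction_on with
    | zero =>
      have h : LinearMap.lTensor B (act (0 : A ⊗[k] Aᵐᵒᵖ)) u = 0 := by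
        have : act (0 : A ⊗[k] Aᵐᵒᵖ) = 0 := by simp [act]
        rw [this]; simp
      rw [h]; exact J.zero_mem
    | tmul a c =>
      rw [BrD_lTensor_act]
      exact J.mul_mem_right _ _ (J.mul_mem_left _ _ huJ)
    | add r s hr hs =>
      have h : LinearMap.lTensor B (act (r + s)) u =
          LinearMap.lTensor B (act r) u + LinearMap.lTensor B (act s) u := by
        have : act (r + s) = act r + act s := by simp [act]
        rw [this, LinearMap.lTensor_add]; rfl
      rw [h]; exact J.add_mem hr hs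
  -- the operator which sends the `i`-th basis vector to one
  let T : A →ₗ[k] A := (Algebra.linearMap k A) ∘ₗ (b.coord i)
  obtain ⟨r, hr⟩ := exists_bimod T (Finset.univ.image b)
  have hrT : act r = T := by
    apply b.ext
    intro j
    rw [act_apply, hr (b j) (Finset.mem_image_of_mem _ (Finset.mem_univ j))]
  have h1 := hact r
  rw [hrT] at h1
  have h2 : ∀ x : B ⊗[k] A, LinearMap.lTensor B T x = (e x i) ⊗ₜ (1 : A) := by
    intro x
    induction x using TensorProduct.induction_on with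
    | zero => simp
    | tmul c a =>
      rw [LinearMap.lTensor_tmul, TensorProduct.equivFinsuppOfBasisRight_apply_tmul_apply]
      change c ⊗ₜ[k] (algebraMap k A (b.coord i a)) = _
      rw [Module.Basis.coord_apply, Algebra.algebraMap_eq_smul_one, ← TensorProduct.smul_tmul]
    | add x y hx hy => rw [map_add, hx, hy, map_add, Finsupp.add_apply, TensorProduct.add_tmul]
  rw [h2] at h1
  -- the ideal of `B`
  have h3 : TwoSidedIdeal.comap (Algebra.TensorProduct.includeLeft : B →ₐ[k] B ⊗[k] A) J = ⊤ := by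
    refine (IsSimpleRing.simple.eq_bot_or_eq_top _).resolve_left ?_
    intro h
    apply hi
    have h4 : e u i ∈ TwoSidedIdeal.comap
        (Algebra.TensorProduct.includeLeft : B →ₐ[k] B ⊗[k] A) J := by
      rw [TwoSidedIdeal.mem_comap]
      exact h1
    rw [h, TwoSidedIdeal.mem_bot] at h4
    exact h4
  have h4 : (1 : B) ∈ TwoSidedIdeal.comap
      (Algebra.TensorProduct.includeLeft : B →ₐ[k] B ⊗[k] A) J := by
    rw [h3]
    trivial
  rw [TwoSidedIdeal.mem_comap, map_one] at h4
  rw [eq_top_iff]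
  intro x _
  have := J.mul_mem_left x 1 h4
  rwa [mul_one] at this

end simple

section tensor

variable {k : Type u} [Field k] {L : Type u} [Field L] [Algebra k L] {n : ℕ} {σ : L ≃ₐ[k] L}
  {D : Type u} [Ring D] [Algebra k D]

theorem scalar_shift (b : k) (d : D) :
    Matrix.scalar (Fin n) d * shiftM k n b D = shiftM k n b D * Matrix.scalar (Fin n) d := by
  ext i j
  rw [Matrix.scalar_apply, Matrix.diagonal_mul, Matrix.mul_diagonal, shiftM_apply]
  by_cases h1 : (i : ℕ) = j + 1
  · rw [if_pos h1, mul_one, one_mul]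
  · rw [if_neg h1]
    by_cases h2 : (i : ℕ) + n = j + 1
    · rw [if_pos h2, Algebra.commutes]
    · rw [if_neg h2, mul_zero, zero_mul]

/-- The algebra `(L/k, σ, b) ⊗ (L/k, σ, c)` is `Mₙ` of `(L/k, σ, b c)`. -/
theorem tensor_equiv [FiniteDimensional k L] (hn : 0 < n) (hL : finrank k L = n)
    (hσn : σ ^ n = 1) {b c : k} (hb : b ≠ 0) {X Y : Type u} [Ring X] [Algebra k X]
    [Ring Y] [Algebra k Y] [IsSimpleRing (X ⊗[k] Y)]
    (dX : CycData L n σ b X) (dY : CycData L n σ c Y) (dD : CycData L n σ (b * c) D) :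
    Nonempty (X ⊗[k] Y ≃ₐ[k] Matrix (Fin n) (Fin n) D) := by
  have : NeZero n := ⟨hn.ne'⟩
  have i1 := finite_of_data dX
  have i2 := finite_of_data dY
  have i3 := finite_of_data dD
  let M := Matrix (Fin n) (Fin n) D
  let f1 : L →ₐ[k] M := diagM n σ dD.inc
  let Z : M := shiftM k n b D
  have hZ : Z ^ n = algebraMap k M b := shiftM_pow_n b
  have hc1 : ∀ l, f1 l * Z = Z * f1 (σ l) := diag_shift σ hσn dD.inc b
  let s : D →ₐ[k] M := Matrix.scalarAlgHom (Fin n) k
  have hs : ∀ d : D, Commute (s d) Z := scalar_shift b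
  obtain ⟨Zi, hZi⟩ : ∃ Zi : M, Zi = algebraMap k M b⁻¹ * Z ^ (n - 1) := ⟨_, rfl⟩
  have hZZi : Z * Zi = 1 := by
    rw [hZi, ← mul_assoc, ← Algebra.commutes, mul_assoc, ← pow_succ', Nat.sub_add_cancel hn, hZ,
      ← map_mul, inv_mul_cancel₀ hb, map_one]
  have hZiZ : Zi * Z = 1 := by
    rw [hZi, mul_assoc, ← pow_succ, Nat.sub_add_cancel hn, hZ, ← map_mul, inv_mul_cancel₀ hb, map_one]
  have hZc : Commute Z Zi := by rw [commute_iff_eq, hZZi, hZiZ]
  have hsi : ∀ d : D, Commute (s d) Zi := fun d => by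
    rw [hZi]
    exact (Algebra.commute_algebraMap_right b⁻¹ (s d)).mul_right ((hs d).pow_right _)
  obtain ⟨W, hWd⟩ : ∃ W : M, W = Zi * s dD.z := ⟨_, rfl⟩
  have hf2 : ∀ l, s (dD.inc l) * W = W * s (dD.inc (σ l)) := by
    intro l
    rw [hWd, ← mul_assoc, (hsi _).eq, mul_assoc, mul_assoc, ← map_mul, ← map_mul, dD.comm]
  have hW : W ^ n = algebraMap k M c := by
    have h1 : Commute Zi (s dD.z) := (hsi _).symm
    rw [hWd, h1.mul_pow, ← map_pow, dD.pow]
    have h2 : Z ^ n * Zi ^ n = 1 := by rw [← hZc.mul_pow, hZZi, one_pow]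
    have h3 : Zi ^ n = algebraMap k M b⁻¹ := by
      calc Zi ^ n = algebraMap k M b⁻¹ * (Z ^ n * Zi ^ n) := by
            rw [← mul_assoc, hZ, ← map_mul, inv_mul_cancel₀ hb, map_one, one_mul]
        _ = _ := by rw [h2, mul_one]
    rw [h3, AlgHom.commutes, ← map_mul, ← mul_assoc, inv_mul_cancel₀ hb, one_mul]
  have hf1Zi : ∀ l, f1 l * Zi = Zi * f1 (σ.symm l) := by
    intro l
    have h1 := hc1 (σ.symm l)
    rw [AlgEquiv.apply_symm_apply] at h1
    calc f1 l * Zi = (Zi * Z) * f1 l * Zi := by rw [hZiZ, one_mul]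
      _ = Zi * (Z * f1 l) * Zi := by rw [mul_assoc Zi Z]
      _ = Zi * (f1 (σ.symm l) * Z) * Zi := by rw [h1]
      _ = Zi * f1 (σ.symm l) * (Z * Zi) := by simp only [mul_assoc]
      _ = _ := by rw [hZZi, mul_one]
  have hf1s : ∀ l, f1 (σ.symm l) * s dD.z = s dD.z * f1 l := by
    intro l
    change Matrix.diagonal _ * Matrix.diagonal _ = Matrix.diagonal _ * Matrix.diagonal _
    rw [Matrix.diagonal_mul_diagonal, Matrix.diagonal_mul_diagonal]
    congr 1
    funext j
    change dD.inc _ * dD.z = dD.z * dD.inc _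
    rw [dD.comm]
    congr 2
    have h1 : σ * σ ^ (j : ℕ) * σ⁻¹ = σ ^ (j : ℕ) := by
      rw [← pow_succ', pow_succ, mul_inv_cancel_right]
    exact congrArg (fun τ : L ≃ₐ[k] L => τ l) h1
  have hcomm1 : ∀ l m, Commute (f1 l) (s (dD.inc m)) := by
    intro l m
    change Matrix.diagonal _ * Matrix.diagonal _ = Matrix.diagonal _ * Matrix.diagonal _
    rw [Matrix.diagonal_mul_diagonal, Matrix.diagonal_mul_diagonal]
    congr 1
    funext j
    change dD.inc _ * dD.inc _ = dD.inc _ * dD.inc _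
    rw [← map_mul, ← map_mul, mul_comm m]
  have hcomm2 : ∀ l, Commute (f1 l) W := by
    intro l
    rw [commute_iff_eq, hWd, ← mul_assoc, hf1Zi, mul_assoc, hf1s, mul_assoc]
  have hcomm3 : ∀ m, Commute Z (s (dD.inc m)) := fun m => (hs _).symm
  have hcomm4 : Commute Z W := by
    rw [hWd]
    exact hZc.mul_right (hs _).symm
  let φ1 : X →ₐ[k] M := dX.lift hn f1 Z hc1 hZ
  let φ2 : Y →ₐ[k] M := dY.lift hn (s.comp dD.inc) W hf2 hW
  have hφ : ∀ x y, Commute (φ1 x) (φ2 y) := by
    intro x y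
    have h1 : ∀ m, Commute (φ1 x) (s (dD.inc m)) := fun m =>
      dX.lift_commute hn f1 Z hc1 hZ (fun l => hcomm1 l m) (hcomm3 m) x
    have h2 : Commute (φ1 x) W := dX.lift_commute hn f1 Z hc1 hZ hcomm2 hcomm4 x
    exact (dY.lift_commute hn (s.comp dD.inc) W hf2 hW (fun l => (h1 l).symm) h2.symm y).symm
  let φ : X ⊗[k] Y →ₐ[k] M := Algebra.TensorProduct.lift φ1 φ2 hφ
  have hMn : Nontrivial M := by
    have := dD.nontrivial hn
    infer_instance
  have hinj : Function.Injective φ := φ.toRingHom.injective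
  have hdim : finrank k (X ⊗[k] Y) = finrank k M := by
    change finrank k (X ⊗[k] Y) = finrank k (Matrix (Fin n) (Fin n) D)
    rw [Module.finrank_tensorProduct, dX.finrank_eq hL, dY.finrank_eq hL,
      Module.finrank_matrix, dD.finrank_eq hL]
    simp only [Fintype.card_fin]
    ring
  exact ⟨AlgEquiv.ofBijective φ (bij_of_inj hdim φ.toLinearMap hinj)⟩

end tensor

end Pool.Agent.H49.Cyc
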