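import Pool.Agent.H49.Cyc.Defs
import Pool.Agent.H49.GSB.Lam
import Pool.Agent.H49.GSB.Base

/-!
# Coordinates in a cyclic algebra after extension of scalars
-/

open Module TensorProduct

namespace Pool.Agent.H49.Cyc

open Pool.Agent.H49.GSB

universe u

variable {k : Type u} [Field k] {L : Type u} [Field L] [Algebra k L] {n : ℕ} {σ : L ≃ₐ[k] L}
  {a : k} {A : Type u} [Ring A] [Algebra k A]

namespace CycData

variable (d : CycData L n σ a A)

/-- the decomposition -/
noncomputable def equiv : (Fin n → L) ≃ₗ[k] A :=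
  LinearEquiv.ofBijective
    { toFun := fun f => ∑ j : Fin n, d.z ^ (j : ℕ) * d.inc (f j)
      map_add' := fun f g => by
        rw [← Finset.sum_add_distrib]
        exact Finset.sum_congr rfl fun j _ => by rw [Pi.add_apply, map_add, mul_add]
      map_smul' := fun c f => by
        rw [RingHom.id_apply, Finset.smul_sum]
        exact Finset.sum_congr rfl fun j _ => by rw [Pi.smul_apply, map_smul, mul_smul_comm] }
    d.bij

theorem equiv_apply (f : Fin n → L) :
    d.equiv f = ∑ j : Fin n, d.z ^ (j : ℕ) * d.inc (f j) := rfl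

/-- The coordinates; `co (j + n) = a⁻¹ co j`. -/
noncomputable def co [NeZero n] (j : ℕ) : A →ₗ[k] L :=
  (a⁻¹) ^ (j / n) • (LinearMap.proj (Fin.ofNat n j) ∘ₗ d.equiv.symm.toLinearMap)

theorem co_apply [NeZero n] (j : ℕ) (x : A) :
    d.co j x = (a⁻¹) ^ (j / n) • d.equiv.symm x (Fin.ofNat n j) := rfl

theorem co_fin [NeZero n] (j : Fin n) (x : A) : d.co j x = d.equiv.symm x j := by
  rw [co_apply, Nat.div_eq_of_lt j.2, pow_zero, one_smul]
  simp

theorem co_add_n [NeZero n] (j : ℕ) : d.co (j + n) = a⁻¹ • d.co j := by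
  have hn : 0 < n := Nat.pos_of_ne_zero (NeZero.ne n)
  ext x
  have h : Fin.ofNat n (j + n) = Fin.ofNat n j := by
    apply Fin.ext
    simp
  rw [LinearMap.smul_apply, co_apply, co_apply, Nat.add_div_right _ hn, smul_smul, pow_succ', h]

theorem sum_co [NeZero n] (x : A) : ∑ j : Fin n, d.z ^ (j : ℕ) * d.inc (d.co j x) = x := by
  conv_rhs => rw [← d.equiv.apply_symm_apply x, equiv_apply]
  exact Finset.sum_congr rfl fun j _ => by rw [co_fin]

theorem co_mk [NeZero n] (f : Fin n → L) (j : Fin n) :
    d.co j (∑ j : Fin n, d.z ^ (j : ℕ) * d.inc (f j)) = f j := by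
  rw [co_fin, ← equiv_apply, LinearEquiv.symm_apply_apply]

/-- Coordinates of `z ^ j l`. -/
theorem co_single [NeZero n] (i : Fin n) (l : L) (j : Fin n) :
    d.co j (d.z ^ (i : ℕ) * d.inc l) = if j = i then l else 0 := by
  have h : d.z ^ (i : ℕ) * d.inc l =
      ∑ j : Fin n, d.z ^ (j : ℕ) * d.inc ((Pi.single i l : Fin n → L) j) := by
    rw [Finset.sum_eq_single i]
    · rw [Pi.single_eq_same]
    · intro b _ hb
      rw [Pi.single_eq_of_ne hb, map_zero, mul_zero]
    · intro h; exact absurd (Finset.mem_univ _) h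
  rw [h, co_mk, Pi.single_apply]

theorem co_ext [NeZero n] {x y : A} (h : ∀ j : Fin n, d.co j x = d.co j y) : x = y := by
  rw [← d.sum_co x, ← d.sum_co y]
  exact Finset.sum_congr rfl fun j _ => by rw [h]

/-- Coordinates of `z ^ i l` in terms of natural numbers. -/
theorem co_single_nat [NeZero n] {i j : ℕ} (hi : i < n) (hj : j < n) (l : L) :
    d.co j (d.z ^ i * d.inc l) = if j = i then l else 0 := by
  have := d.co_single ⟨i, hi⟩ l ⟨j, hj⟩
  simpa only [Fin.mk.injEq] using this

theorem co_mul_inc [NeZero n] (j : ℕ) (x : A) (l : L) : d.co j (x * d.inc l) = d.co j x * l := by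
  have key : ∀ j : Fin n, d.co j (x * d.inc l) = d.co j x * l := by
    intro j
    conv_lhs => rw [← d.sum_co x, Finset.sum_mul]
    simp only [mul_assoc, ← map_mul]
    exact d.co_mk (fun j => d.co j x * l) j
  rw [co_apply, co_apply, ← co_fin, ← co_fin, key, smul_mul_assoc]

/-- `z` is invertible. -/
theorem co_mul_z [NeZero n] (ha : a ≠ 0) (j : ℕ) (x : A) :
    d.co (j + 1) (x * d.z) = σ (d.co j x) := by
  have hn : 0 < n := Nat.pos_of_ne_zero (NeZero.ne n)
  -- reduce to `j < n`
  have red : ∀ j, (∀ x, d.co (j + 1) (x * d.z) = σ (d.co j x)) →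
      ∀ x, d.co (j + n + 1) (x * d.z) = σ (d.co (j + n) x) := by
    intro j h x
    rw [show j + n + 1 = j + 1 + n by ring, co_add_n, co_add_n, LinearMap.smul_apply, h,
      LinearMap.smul_apply, map_smul]
  have base : ∀ j, j < n → ∀ x, d.co (j + 1) (x * d.z) = σ (d.co j x) := by
    intro j hj x
    conv_lhs => rw [← d.sum_co x, Finset.sum_mul, map_sum]
    have h1 : ∀ i : Fin n, d.co (j + 1) (d.z ^ (i : ℕ) * d.inc (d.co i x) * d.z) =
        if (i : ℕ) = j then σ (d.co j x) else 0 := by
      intro i
      rw [mul_assoc, d.comm, ← mul_assoc, ← pow_succ]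
      rcases Nat.lt_or_ge (i + 1) n with hi | hi
      · rcases Nat.lt_or_ge (j + 1) n with hj1 | hj1
        · rw [d.co_single_nat hi hj1]
          by_cases hij : (i : ℕ) = j
          · rw [if_pos (by omega), if_pos hij, hij]
          · rw [if_neg (by omega), if_neg hij]
        · have hjn : j + 1 = 0 + n := by omega
          rw [hjn, co_add_n, LinearMap.smul_apply, d.co_single_nat hi hn, if_neg (by omega),
            smul_zero, if_neg (by omega)]
      · have hin : (i : ℕ) + 1 = n := by have := i.2; omega
        have h2 : d.z ^ ((i : ℕ) + 1) * d.inc (σ (d.co i x)) =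
            a • (d.z ^ 0 * d.inc (σ (d.co i x))) := by
          rw [hin, d.pow, pow_zero, one_mul, Algebra.smul_def]
        rw [h2, map_smul]
        rcases Nat.lt_or_ge (j + 1) n with hj1 | hj1
        · rw [d.co_single_nat hn hj1, if_neg (by omega), smul_zero, if_neg (by omega)]
        · have hjn : j + 1 = 0 + n := by omega
          have hij : (i : ℕ) = j := by omega
          rw [hjn, co_add_n, LinearMap.smul_apply, d.co_single_nat hn hn, if_pos rfl, if_pos hij,
            smul_smul, mul_inv_cancel₀ ha, one_smul, hij]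
    rw [Finset.sum_congr rfl fun i _ => h1 i, Finset.sum_eq_single ⟨j, hj⟩]
    · rw [if_pos rfl]
    · intro b _ hb
      rw [if_neg]
      intro h
      exact hb (Fin.ext h)
    · intro h; exact absurd (Finset.mem_univ _) h
  have all : ∀ q j, j < n → ∀ x, d.co (j + q * n + 1) (x * d.z) = σ (d.co (j + q * n) x) := by
    intro q
    induction q with
    | zero => intro j hj x; rw [zero_mul, add_zero]; exact base j hj x
    | succ q ih =>
      intro j hj x
      rw [show j + (q + 1) * n = j + q * n + n by ring]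
      exact red _ (ih j hj) x
  have h3 := all (j / n) (j % n) (Nat.mod_lt _ hn) x
  rwa [Nat.mod_add_div'] at h3

/-- Left multiplication by `z`. -/
theorem co_z_mul [NeZero n] (ha : a ≠ 0) (j : ℕ) (x : A) : d.co (j + 1) (d.z * x) = d.co j x := by
  have hn : 0 < n := Nat.pos_of_ne_zero (NeZero.ne n)
  have red : ∀ j, (∀ x, d.co (j + 1) (d.z * x) = d.co j x) →
      ∀ x, d.co (j + n + 1) (d.z * x) = d.co (j + n) x := by
    intro j h x
    rw [show j + n + 1 = j + 1 + n by ring, co_add_n, co_add_n, LinearMap.smul_apply, h,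
      LinearMap.smul_apply]
  have base : ∀ j, j < n → ∀ x, d.co (j + 1) (d.z * x) = d.co j x := by
    intro j hj x
    conv_lhs => rw [← d.sum_co x, Finset.mul_sum, map_sum]
    have h1 : ∀ i : Fin n, d.co (j + 1) (d.z * (d.z ^ (i : ℕ) * d.inc (d.co i x))) =
        if (i : ℕ) = j then d.co j x else 0 := by
      intro i
      rw [← mul_assoc, ← pow_succ']
      rcases Nat.lt_or_ge (i + 1) n with hi | hi
      · rcases Nat.lt_or_ge (j + 1) n with hj1 | hj1
        · rw [d.co_single_nat hi hj1]
          by_cases hij : (i : ℕ) = j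
          · rw [if_pos (by omega), if_pos hij, hij]
          · rw [if_neg (by omega), if_neg hij]
        · have hjn : j + 1 = 0 + n := by omega
          rw [hjn, co_add_n, LinearMap.smul_apply, d.co_single_nat hi hn, if_neg (by omega),
            smul_zero, if_neg (by omega)]
      · have hin : (i : ℕ) + 1 = n := by have := i.2; omega
        have h2 : d.z ^ ((i : ℕ) + 1) * d.inc (d.co i x) =
            a • (d.z ^ 0 * d.inc (d.co i x)) := by
          rw [hin, d.pow, pow_zero, one_mul, Algebra.smul_def]
        rw [h2, map_smul]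
        rcases Nat.lt_or_ge (j + 1) n with hj1 | hj1
        · rw [d.co_single_nat hn hj1, if_neg (by omega), smul_zero, if_neg (by omega)]
        · have hjn : j + 1 = 0 + n := by omega
          have hij : (i : ℕ) = j := by omega
          rw [hjn, co_add_n, LinearMap.smul_apply, d.co_single_nat hn hn, if_pos rfl, if_pos hij,
            smul_smul, mul_inv_cancel₀ ha, one_smul, hij]
    rw [Finset.sum_congr rfl fun i _ => h1 i, Finset.sum_eq_single ⟨j, hj⟩]
    · rw [if_pos rfl]
    · intro b _ hb
      rw [if_neg]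
      intro h
      exact hb (Fin.ext h)
    · intro h; exact absurd (Finset.mem_univ _) h
  have all : ∀ q j, j < n → ∀ x, d.co (j + q * n + 1) (d.z * x) = d.co (j + q * n) x := by
    intro q
    induction q with
    | zero => intro j hj x; rw [zero_mul, add_zero]; exact base j hj x
    | succ q ih =>
      intro j hj x
      rw [show j + (q + 1) * n = j + q * n + n by ring]
      exact red _ (ih j hj) x
  have h3 := all (j / n) (j % n) (Nat.mod_lt _ hn) x
  rwa [Nat.mod_add_div'] at h3

end CycData

end Pool.Agent.H49.Cyc
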