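import Mathlib

/-!
# Window determinants

`E` is a ring which is the direct sum of the `z ^ j R`, `j < n`, for a commutative subring `R` with
`r z = z s(r)`, and `z ^ n = α⁻¹`. The coordinates are extended to all natural numbers by
`co (j + n) = α co j`. For a right ideal with the echelon basis `b` (the coordinates with numbers
`j < m` of `b l` are `δ_{jl}`) the window determinants are `P j = det (co (j + r) (b l))`.
-/

namespace Pool.Agent.H49.Cyc

/-- Coordinates on `E`. -/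
structure Frame (R E : Type*) [CommRing R] [Ring E] (n : ℕ) (s : R →+* R) (α : R) where
  /-- coordinates -/
  co : ℕ → E →+ R
  /-- the inclusion -/
  inc : R →+* E
  /-- the element which induces `s` -/
  z : E
  co_add_n : ∀ j x, co (j + n) x = α * co j x
  co_inc : ∀ j x r, co j (x * inc r) = co j x * r
  co_z : ∀ j x, co (j + 1) (x * z) = s (co j x)
  sum_co : ∀ x, ∑ j : Fin n, z ^ (j : ℕ) * inc (co j x) = x
  co_sum : ∀ (f : Fin n → R) (j : Fin n), co j (∑ i : Fin n, z ^ (i : ℕ) * inc (f i)) = f j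

variable {R E E' : Type*} [CommRing R] [Ring E] [Ring E'] {n m : ℕ} {s : R →+* R} {α β : R}

namespace Frame

variable (𝔄 : Frame R E n s α) (𝔅 : Frame R E' n s β)

theorem co_add_mul (q j : ℕ) (x : E) : 𝔄.co (j + q * n) x = α ^ q * 𝔄.co j x := by
  induction q with
  | zero => simp
  | succ q ih => rw [show j + (q + 1) * n = j + q * n + n by ring, 𝔄.co_add_n, ih]; ring

theorem ext_fin {x y : E} (h : ∀ j : Fin n, 𝔄.co j x = 𝔄.co j y) : x = y := by
  rw [← 𝔄.sum_co x, ← 𝔄.sum_co y]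
  exact Finset.sum_congr rfl fun j _ => by rw [h]

/-- It is enough to compare the coordinates with positive numbers. -/
theorem ext_succ (hα : IsUnit α) {x y : E} (h : ∀ j, 𝔄.co (j + 1) x = 𝔄.co (j + 1) y) :
    x = y := by
  apply 𝔄.ext_fin
  intro j
  have hj := j.2
  have h1 := h (j + n - 1)
  rw [show (j : ℕ) + n - 1 + 1 = j + n by omega, 𝔄.co_add_n, 𝔄.co_add_n] at h1
  exact hα.mul_left_cancel h1

/-- The window matrix. -/
def win (b : Fin m → E) (j : ℕ) : Matrix (Fin m) (Fin m) R :=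
  Matrix.of fun r l => 𝔄.co (j + r) (b l)

/-- The window determinant. -/
noncomputable def P (b : Fin m → E) (j : ℕ) : R := (𝔄.win b j).det

variable {𝔄} {b : Fin m → E} (hb : ∀ j l : Fin m, 𝔄.co j (b l) = if j = l then 1 else 0)

include hb in
theorem P_zero : 𝔄.P b 0 = 1 := by
  have : 𝔄.win b 0 = 1 := by
    ext r l
    rw [win, Matrix.of_apply, zero_add, hb, Matrix.one_apply]
  rw [P, this, Matrix.det_one]

theorem P_add_n (j : ℕ) : 𝔄.P b (j + n) = α ^ m * 𝔄.P b j := by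
  have : 𝔄.win b (j + n) = α • 𝔄.win b j := by
    ext r l
    rw [Matrix.smul_apply, win, win, Matrix.of_apply, Matrix.of_apply, smul_eq_mul,
      show j + n + (r : ℕ) = j + r + n by ring, 𝔄.co_add_n]
  rw [P, P, this, Matrix.det_smul, Fintype.card_fin]

theorem co_sum_mul (C : Fin m → R) (j : ℕ) :
    𝔄.co j (∑ i, b i * 𝔄.inc (C i)) = ∑ i, 𝔄.co j (b i) * C i := by
  rw [map_sum]
  exact Finset.sum_congr rfl fun i _ => by rw [𝔄.co_inc]

variable {C : Matrix (Fin m) (Fin m) R} (hC : ∀ l, b l * 𝔄.z = ∑ i, b i * 𝔄.inc (C i l))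

include hC in
theorem win_succ (j : ℕ) : (𝔄.win b j).map s = 𝔄.win b (j + 1) * C := by
  ext r l
  rw [Matrix.map_apply, win, win, Matrix.of_apply, ← 𝔄.co_z, hC, co_sum_mul, Matrix.mul_apply]
  exact Finset.sum_congr rfl fun i _ => by
    rw [Matrix.of_apply, show j + 1 + (r : ℕ) = j + r + 1 by ring]

include hC in
theorem P_succ (j : ℕ) : s (𝔄.P b j) = 𝔄.P b (j + 1) * C.det := by
  rw [P, P, ← Matrix.det_mul, ← win_succ hC, RingHom.map_det, RingHom.mapMatrix_apply]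

include hb hC in
theorem P_isUnit (j : ℕ) : IsUnit (𝔄.P b j) := by
  have h0 : 𝔄.P b 1 * C.det = 1 := by
    rw [← zero_add 1, ← P_succ hC, P_zero hb, map_one]
  induction j with
  | zero => rw [P_zero hb]; exact isUnit_one
  | succ j ih =>
    have h1 : IsUnit (s (𝔄.P b j)) := ih.map s
    rw [P_succ hC] at h1
    exact isUnit_of_mul_isUnit_left h1

include hb hC in
theorem det_isUnit : IsUnit C.det := by
  have h0 : 𝔄.P b 1 * C.det = 1 := by
    rw [← zero_add 1, ← P_succ hC, P_zero hb, map_one]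
  exact IsUnit.of_mul_eq_one_right _ h0

/-- The multipliers. -/
noncomputable def psi (𝔄 : Frame R E n s α) (b : Fin m → E) (c j : ℕ) : R :=
  ∏ t ∈ Finset.range c, 𝔄.P b (j + 1 + m * t)

theorem psi_zero (j : ℕ) : 𝔄.psi b 0 j = 1 := by simp [psi]

theorem psi_step (c j : ℕ) : 𝔄.psi b (c + 1) j = 𝔄.psi b c j * 𝔄.P b (j + 1 + m * c) := by
  rw [psi, Finset.prod_range_succ, ← psi]

theorem psi_add_n (c j : ℕ) : 𝔄.psi b c (j + n) = α ^ (m * c) * 𝔄.psi b c j := by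
  induction c with
  | zero => simp [psi_zero]
  | succ c ih =>
    rw [psi_step, psi_step, ih, show j + n + 1 + m * c = j + 1 + m * c + n by ring, P_add_n]
    ring

include hC in
theorem psi_succ (c j : ℕ) : s (𝔄.psi b c j) = 𝔄.psi b c (j + 1) * C.det ^ c := by
  induction c with
  | zero => simp [psi_zero]
  | succ c ih =>
    rw [psi_step, psi_step, map_mul, ih, P_succ hC, show j + 1 + m * c + 1 = j + 1 + 1 + m * c by ring]
    ring

include hb hC in
theorem psi_isUnit (c j : ℕ) : IsUnit (𝔄.psi b c j) := by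
  induction c with
  | zero => simp [psi_zero]
  | succ c ih => rw [psi_step]; exact ih.mul (P_isUnit hb hC _)

/-- The map of `E` to `E'`. -/
def M (𝔄 : Frame R E n s α) (𝔅 : Frame R E' n s β) (ψ : ℕ → R) : E →+ E' where
  toFun x := ∑ j : Fin n, 𝔅.z ^ (j : ℕ) * 𝔅.inc (ψ j * 𝔄.co j x)
  map_zero' := by simp
  map_add' x y := by
    rw [← Finset.sum_add_distrib]
    exact Finset.sum_congr rfl fun j _ => by rw [map_add, mul_add, map_add, mul_add]

theorem M_apply (ψ : ℕ → R) (x : E) :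
    M 𝔄 𝔅 ψ x = ∑ j : Fin n, 𝔅.z ^ (j : ℕ) * 𝔅.inc (ψ j * 𝔄.co j x) := rfl

variable {𝔅} {ψ : ℕ → R} {γ : R}

theorem co_M (hn : 0 < n) (hψ : ∀ j, ψ (j + n) = γ * ψ j) (hβ : β = γ * α) (j : ℕ) (x : E) :
    𝔅.co j (M 𝔄 𝔅 ψ x) = ψ j * 𝔄.co j x := by
  have h1 : ∀ j : Fin n, 𝔅.co j (M 𝔄 𝔅 ψ x) = ψ j * 𝔄.co j x := fun j => by
    rw [M_apply]
    exact 𝔅.co_sum (fun j => ψ j * 𝔄.co j x) j
  have h2 : ∀ q, ψ (j % n + q * n) = γ ^ q * ψ (j % n) := by
    intro q
    induction q with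
    | zero => simp
    | succ q ih => rw [show j % n + (q + 1) * n = j % n + q * n + n by ring, hψ, ih]; ring
  have h3 := h1 ⟨j % n, Nat.mod_lt _ hn⟩
  have h4 : 𝔅.co (j % n + (j / n) * n) (M 𝔄 𝔅 ψ x) =
      ψ (j % n + (j / n) * n) * 𝔄.co (j % n + (j / n) * n) x := by
    rw [𝔅.co_add_mul, h3, h2, 𝔄.co_add_mul, hβ, mul_pow]
    ring
  rwa [Nat.mod_add_div'] at h4

variable (hn : 0 < n) (hψ : ∀ j, ψ (j + n) = γ * ψ j) (hβ : β = γ * α)

include hn hψ hβ in
theorem M_mul_inc (x : E) (r : R) : M 𝔄 𝔅 ψ (x * 𝔄.inc r) = M 𝔄 𝔅 ψ x * 𝔅.inc r := by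
  apply 𝔅.ext_fin
  intro j
  rw [co_M hn hψ hβ, 𝔅.co_inc, co_M hn hψ hβ, 𝔄.co_inc, mul_assoc]

include hn hψ hβ in
theorem M_mul_z (hu : IsUnit β) {u : R} (hs : ∀ j, s (ψ j) = ψ (j + 1) * u) (x : E) :
    M 𝔄 𝔅 ψ (x * 𝔄.z * 𝔄.inc u) = M 𝔄 𝔅 ψ x * 𝔅.z := by
  apply 𝔅.ext_succ hu
  intro j
  rw [𝔅.co_z, co_M hn hψ hβ, co_M hn hψ hβ, 𝔄.co_inc, 𝔄.co_z, map_mul, hs]
  ring

include hn hψ hβ in
theorem M_injective (hψu : ∀ j, IsUnit (ψ j)) : Function.Injective (M 𝔄 𝔅 ψ) := by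
  intro x y h
  apply 𝔄.ext_fin
  intro j
  have h1 := congrArg (𝔅.co j) h
  rw [co_M hn hψ hβ, co_M hn hψ hβ] at h1
  exact (hψu j).mul_left_cancel h1

end Frame

end Pool.Agent.H49.Cyc
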