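import Pool.Agent.H49.Cyc.Coord
import Pool.Agent.H49.Cyc.Frame

/-!
# The frame of a cyclic algebra after extension of scalars
-/

open Module TensorProduct

namespace Pool.Agent.H49.Cyc

open Pool.Agent.H49.GSB

universe u

variable {k : Type u} [Field k] {L : Type u} [Field L] [Algebra k L] {n : ℕ} {σ : L ≃ₐ[k] L}
  {a : k} {A : Type u} [Ring A] [Algebra k A]

/-- `σ` after extension of scalars. -/
noncomputable def sigK (σ : L ≃ₐ[k] L) (K : Type u) [Field K] [Algebra k K] :
    K ⊗[k] L →ₐ[K] K ⊗[k] L :=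
  Algebra.TensorProduct.map (AlgHom.id K K) (σ : L →ₐ[k] L)

@[simp] theorem sigK_tmul (σ : L ≃ₐ[k] L) {K : Type u} [Field K] [Algebra k K] (c : K) (l : L) :
    sigK σ K (c ⊗ₜ l) = c ⊗ₜ σ l := by
  simp [sigK]

namespace CycData

variable (d : CycData L n σ a A) (K : Type u) [Field K] [Algebra k K]

/-- The inclusion of `K ⊗ L`. -/
noncomputable def incK : K ⊗[k] L →ₐ[K] K ⊗[k] A :=
  Algebra.TensorProduct.map (AlgHom.id K K) d.inc

@[simp] theorem incK_tmul (c : K) (l : L) : d.incK K (c ⊗ₜ l) = c ⊗ₜ d.inc l := by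
  simp [incK]

/-- Coordinates after extension of scalars. -/
noncomputable def coK [NeZero n] (j : ℕ) : K ⊗[k] A →ₗ[K] K ⊗[k] L := (d.co j).baseChange K

variable {K}

@[simp] theorem coK_tmul [NeZero n] (j : ℕ) (c : K) (x : A) :
    d.coK K j (c ⊗ₜ x) = c ⊗ₜ d.co j x := by
  simp [coK]

theorem coK_add_n [NeZero n] (j : ℕ) (x : K ⊗[k] A) :
    d.coK K (j + n) x = (1 ⊗ₜ algebraMap k L a⁻¹) * d.coK K j x := by
  induction x using TensorProduct.induction_on with
  | zero => simp
  | tmul c x =>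
    rw [coK_tmul, coK_tmul, co_add_n, LinearMap.smul_apply, Algebra.TensorProduct.tmul_mul_tmul,
      one_mul, Algebra.smul_def]
  | add x y hx hy => rw [map_add, map_add, hx, hy, mul_add]

theorem coK_mul_inc [NeZero n] (j : ℕ) (x : K ⊗[k] A) (r : K ⊗[k] L) :
    d.coK K j (x * d.incK K r) = d.coK K j x * r := by
  induction x using TensorProduct.induction_on with
  | zero => simp
  | tmul c x =>
    induction r using TensorProduct.induction_on with
    | zero => simp
    | tmul e l =>
      rw [incK_tmul, Algebra.TensorProduct.tmul_mul_tmul, coK_tmul, coK_tmul, co_mul_inc,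
        Algebra.TensorProduct.tmul_mul_tmul]
    | add r s hr hs => rw [map_add, mul_add, map_add, hr, hs, mul_add]
  | add x y hx hy => rw [add_mul, map_add, hx, hy, map_add, add_mul]

theorem coK_mul_z [NeZero n] (ha : a ≠ 0) (j : ℕ) (x : K ⊗[k] A) :
    d.coK K (j + 1) (x * (1 ⊗ₜ d.z)) = sigK σ K (d.coK K j x) := by
  induction x using TensorProduct.induction_on with
  | zero => simp
  | tmul c x =>
    rw [Algebra.TensorProduct.tmul_mul_tmul, coK_tmul, coK_tmul, co_mul_z d ha, sigK_tmul, mul_one]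
  | add x y hx hy => rw [add_mul, map_add, hx, hy, map_add, map_add]

theorem coK_z_mul [NeZero n] (ha : a ≠ 0) (j : ℕ) (x : K ⊗[k] A) :
    d.coK K (j + 1) ((1 ⊗ₜ d.z) * x) = d.coK K j x := by
  induction x using TensorProduct.induction_on with
  | zero => simp
  | tmul c x =>
    rw [Algebra.TensorProduct.tmul_mul_tmul, coK_tmul, coK_tmul, co_z_mul d ha, one_mul]
  | add x y hx hy => rw [mul_add, map_add, hx, hy, map_add]

theorem sum_coK [NeZero n] (x : K ⊗[k] A) :
    ∑ j : Fin n, (1 ⊗ₜ d.z : K ⊗[k] A) ^ (j : ℕ) * d.incK K (d.coK K j x) = x := by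
  induction x using TensorProduct.induction_on with
  | zero => simp
  | tmul c x =>
    conv_rhs => rw [← d.sum_co x, TensorProduct.tmul_sum]
    refine Finset.sum_congr rfl fun j _ => ?_
    rw [coK_tmul, incK_tmul, Algebra.TensorProduct.tmul_pow, one_pow,
      Algebra.TensorProduct.tmul_mul_tmul, one_mul]
  | add x y hx hy =>
    conv_rhs => rw [← hx, ← hy]
    rw [← Finset.sum_add_distrib]
    exact Finset.sum_congr rfl fun j _ => by rw [map_add, map_add, mul_add]

theorem coK_single [NeZero n] (i : Fin n) (r : K ⊗[k] L) (j : Fin n) :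
    d.coK K j ((1 ⊗ₜ d.z : K ⊗[k] A) ^ (i : ℕ) * d.incK K r) = if j = i then r else 0 := by
  induction r using TensorProduct.induction_on with
  | zero => simp
  | tmul e l =>
    rw [incK_tmul, Algebra.TensorProduct.tmul_pow, one_pow, Algebra.TensorProduct.tmul_mul_tmul,
      coK_tmul, one_mul, d.co_single]
    split_ifs <;> simp
  | add r s hr hs =>
    rw [map_add, mul_add, map_add, hr, hs]
    split_ifs <;> simp

theorem coK_sum [NeZero n] (f : Fin n → K ⊗[k] L) (j : Fin n) :
    d.coK K j (∑ i : Fin n, (1 ⊗ₜ d.z : K ⊗[k] A) ^ (i : ℕ) * d.incK K (f i)) = f j := by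
  rw [map_sum, Finset.sum_eq_single j]
  · rw [coK_single, if_pos rfl]
  · intro b _ hb
    rw [coK_single, if_neg hb.symm]
  · intro h; exact absurd (Finset.mem_univ _) h

variable (K)

/-- The frame. -/
noncomputable def frame [NeZero n] (ha : a ≠ 0) :
    Frame (K ⊗[k] L) (K ⊗[k] A) n (sigK σ K).toRingHom (1 ⊗ₜ algebraMap k L a⁻¹) where
  co j := (d.coK K j).toAddMonoidHom
  inc := (d.incK K).toRingHom
  z := 1 ⊗ₜ d.z
  co_add_n := d.coK_add_n
  co_inc := d.coK_mul_inc
  co_z := d.coK_mul_z ha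
  sum_co := d.sum_coK
  co_sum := d.coK_sum

theorem frame_co [NeZero n] (ha : a ≠ 0) (j : ℕ) (x : K ⊗[k] A) :
    (d.frame K ha).co j x = d.coK K j x := rfl

theorem frame_inc [NeZero n] (ha : a ≠ 0) (r : K ⊗[k] L) :
    (d.frame K ha).inc r = d.incK K r := rfl

theorem frame_z [NeZero n] (ha : a ≠ 0) : (d.frame K ha).z = 1 ⊗ₜ d.z := rfl

/-- `lam` commutes with the coordinates. -/
theorem coK_lam [NeZero n] {K : Type u} [Field K] [Algebra k K] (l : K →ₗ[k] K) (j : ℕ)
    (x : K ⊗[k] A) : d.coK K j (lam l x) = lam l (d.coK K j x) := by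
  induction x using TensorProduct.induction_on with
  | zero => simp
  | tmul c x => rw [lam_tmul, coK_tmul, coK_tmul, lam_tmul]
  | add x y hx hy => rw [map_add, map_add, map_add, hx, hy, map_add]

end CycData

end Pool.Agent.H49.Cyc
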