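import Mathlib

/-!
# Cyclic algebras

`IsCyc L n σ a A` says that `A` is the cyclic algebra `(L/k, σ, a)`: it contains `L` and an element
`z` with `ℓ z = z σ(ℓ)` for `ℓ` in `L`, `z ^ n = a`, and `A` is the direct sum of the `z ^ j L`,
`j < n`.
-/

open Module

namespace Pool.Agent.H49.Cyc

universe u

/-- `A` is the cyclic algebra `(L/k, σ, a)`. -/
structure CycData {k : Type u} [Field k] (L : Type u) [Field L] [Algebra k L] (n : ℕ)
    (σ : L ≃ₐ[k] L) (a : k) (A : Type u) [Ring A] [Algebra k A] where
  /-- the inclusion of the field -/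
  inc : L →ₐ[k] A
  /-- the element which induces `σ` -/
  z : A
  comm : ∀ l, inc l * z = z * inc (σ l)
  pow : z ^ n = algebraMap k A a
  bij : Function.Bijective fun f : Fin n → L => ∑ j : Fin n, z ^ (j : ℕ) * inc (f j)

end Pool.Agent.H49.Cyc
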