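import Pool.Agent.H49.Cyc.Transfer
import Pool.Agent.H49.GSB.Units
import Pool.Agent.H49.GSB.Simple
import Pool.Agent.H72.SB.Dens

/-!
# Ideals with an echelon basis

After multiplication by a unit of `A` a right ideal of `A_K` has an echelon basis. Over an algebraically
closed field there is a special right ideal: the annihilator of `g(z)` where `g` divides `X ^ n - a`.
-/

open Module TensorProduct Polynomial

namespace Pool.Agent.H49.Cyc

open Pool.Agent.H49.GSB

universe u

variable {k : Type u} [Field k] {L : Type u} [Field L] [Algebra k L] {Ω : Type u} [Field Ω]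
  [Algebra k Ω] {n m : ℕ} {σ : L ≃ₐ[k] L} {a : k} {A : Type u} [Ring A] [Algebra k A]

section special

variable [NeZero n] (d : CycData L n σ a A) (ha : a ≠ 0)

include ha in
theorem coK_pow_mul (q j : ℕ) (x : Ω ⊗[k] A) :
    d.coK Ω (j + q) ((1 ⊗ₜ d.z) ^ q * x) = d.coK Ω j x := by
  induction q generalizing x with
  | zero => rw [pow_zero, one_mul, add_zero]
  | succ q ih => rw [pow_succ', mul_assoc, ← add_assoc, d.coK_z_mul ha, ih]

include ha in
theorem ann_disjoint {g : Polynomial Ω} (hg : g.natDegree = m) (hg0 : g.coeff 0 ≠ 0) {y : Ω ⊗[k] A}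
    (h1 : aeval (1 ⊗ₜ d.z : Ω ⊗[k] A) g * y = 0) (h2 : ∀ j < m, d.coK Ω j y = 0) : y = 0 := by
  have h3 : ∀ t, d.coK Ω t y = 0 := by
    intro t
    induction t using Nat.strong_induction_on with
    | _ t ih =>
      rcases Nat.lt_or_ge t m with ht | ht
      · exact h2 t ht
      · obtain ⟨j, rfl⟩ := Nat.exists_eq_add_of_le' ht
        have h4 : d.coK Ω (j + m) (aeval (1 ⊗ₜ d.z : Ω ⊗[k] A) g * y) = 0 := by
          rw [h1, map_zero]
        rw [aeval_eq_sum_range, hg, Finset.sum_mul, map_sum, Finset.sum_range_succ'] at h4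
        rw [Finset.sum_eq_zero, zero_add, pow_zero, smul_mul_assoc, one_mul, map_smul] at h4
        · exact (smul_eq_zero.1 h4).resolve_left hg0
        · intro q hq
          have hq' := Finset.mem_range.1 hq
          rw [smul_mul_assoc, map_smul]
          have h5 : j + m = (j + m - (q + 1)) + (q + 1) := by omega
          rw [h5, coK_pow_mul d ha, ih _ (by omega), smul_zero]
  rw [← d.sum_coK y]
  exact Finset.sum_eq_zero fun j _ => by rw [h3, map_zero, mul_zero]

/-- The annihilator of `g(z)`. -/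
noncomputable def annZ (d : CycData L n σ a A) (g : Polynomial Ω) : Submodule Ω (Ω ⊗[k] A) :=
  LinearMap.ker (LinearMap.mulLeft Ω (aeval (1 ⊗ₜ d.z : Ω ⊗[k] A) g))

omit [NeZero n] in
theorem mem_annZ {g : Polynomial Ω} {y : Ω ⊗[k] A} :
    y ∈ annZ d g ↔ aeval (1 ⊗ₜ d.z : Ω ⊗[k] A) g * y = 0 := Iff.rfl

include ha in
theorem finrank_annZ_le [FiniteDimensional k L] (hL : finrank k L = n) {g : Polynomial Ω}
    (hg : g.natDegree = m) (hg0 : g.coeff 0 ≠ 0) : finrank Ω (annZ d g) ≤ m * n := by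
  have := finite_of_data d
  let T : annZ d g →ₗ[Ω] (Fin m → Ω ⊗[k] L) :=
    LinearMap.pi fun j => d.coK Ω j ∘ₗ (annZ d g).subtype
  have hinj : Function.Injective T := by
    rw [← LinearMap.ker_eq_bot, LinearMap.ker_eq_bot']
    intro x hx
    refine Subtype.ext (ann_disjoint d ha hg hg0 x.2 fun j hj => ?_)
    exact congrFun hx ⟨j, hj⟩
  have h1 := LinearMap.finrank_le_finrank_of_injective hinj
  rw [Module.finrank_pi_fintype] at h1
  simpa only [Module.finrank_baseChange, hL, Finset.sum_const, Finset.card_univ,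
      Fintype.card_fin, smul_eq_mul] using h1

include ha in
theorem finrank_annZ [FiniteDimensional k L] (hL : finrank k L = n) (hm : m ≤ n) {g h : Polynomial Ω}
    (hg : g.natDegree = m) (hh : h.natDegree = n - m)
    (hgh : g * h = X ^ n - C (algebraMap k Ω a)) : finrank Ω (annZ d g) = m * n := by
  have := finite_of_data d
  have hn : 0 < n := Nat.pos_of_ne_zero (NeZero.ne n)
  have h0 : g.coeff 0 * h.coeff 0 ≠ 0 := by
    rw [← mul_coeff_zero, hgh, coeff_sub, coeff_X_pow, if_neg (by omega), coeff_C_zero, zero_sub]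
    rw [neg_ne_zero]
    exact (_root_.map_ne_zero _).2 ha
  refine le_antisymm (finrank_annZ_le d ha hL hg (left_ne_zero_of_mul h0)) ?_
  have h1 := finrank_annZ_le d ha hL hh (right_ne_zero_of_mul h0)
  have h2 : LinearMap.range (LinearMap.mulLeft Ω (aeval (1 ⊗ₜ d.z : Ω ⊗[k] A) g)) ≤ annZ d h := by
    rintro _ ⟨y, rfl⟩
    rw [LinearMap.mulLeft_apply, mem_annZ, ← mul_assoc, ← map_mul, mul_comm h g, hgh, map_sub,
      map_pow, aeval_X, aeval_C, Algebra.TensorProduct.tmul_pow, one_pow, d.pow]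
    have h3 : (1 : Ω) ⊗ₜ[k] algebraMap k A a = algebraMap Ω (Ω ⊗[k] A) (algebraMap k Ω a) := by
      rw [Algebra.TensorProduct.algebraMap_apply, Algebra.algebraMap_self, RingHom.id_apply,
        Algebra.algebraMap_eq_smul_one, Algebra.algebraMap_eq_smul_one, TensorProduct.smul_tmul]
    rw [h3, sub_self, zero_mul]
  have h3 := Submodule.finrank_mono h2
  have h4 := LinearMap.finrank_range_add_finrank_ker
    (LinearMap.mulLeft Ω (aeval (1 ⊗ₜ d.z : Ω ⊗[k] A) g))
  have h5 : finrank Ω (Ω ⊗[k] A) = n * n := by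
    rw [Module.finrank_baseChange, finrank_of_data d, hL]
  rw [h5] at h4
  have h6 : finrank Ω (LinearMap.ker (LinearMap.mulLeft Ω (aeval (1 ⊗ₜ d.z : Ω ⊗[k] A) g))) =
    finrank Ω (annZ d g) := rfl
  rw [h6] at h4
  have h7 : (n - m) * n + m * n = n * n := by
    rw [← add_mul]; congr 1; omega
  omega

theorem exists_factor_poly [IsAlgClosed Ω] (p : Polynomial Ω) (hp : p.natDegree = n) (m : ℕ)
    (hm : m ≤ n) : ∃ g h : Polynomial Ω, g.natDegree = m ∧ h.natDegree = n - m ∧ g * h = p := by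
  have hn : 0 < n := Nat.pos_of_ne_zero (NeZero.ne n)
  have hp0 : p ≠ 0 := by
    rintro rfl
    rw [natDegree_zero] at hp
    omega
  induction m with
  | zero => exact ⟨1, p, natDegree_one, by rw [hp, Nat.sub_zero], one_mul p⟩
  | succ m ih =>
    obtain ⟨g, h, hg, hh, hgh⟩ := ih (by omega)
    have hh0 : h ≠ 0 := by
      rintro rfl
      rw [mul_zero] at hgh
      exact hp0 hgh.symm
    have hg0 : g ≠ 0 := by
      rintro rfl
      rw [zero_mul] at hgh
      exact hp0 hgh.symm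
    obtain ⟨r, hr⟩ := IsAlgClosed.exists_root h (by
      rw [degree_eq_natDegree hh0, hh]
      exact_mod_cast (by omega : n - m ≠ 0))
    obtain ⟨q, rfl⟩ := dvd_iff_isRoot.2 hr
    have hq0 : q ≠ 0 := right_ne_zero_of_mul hh0
    refine ⟨g * (X - C r), q, ?_, ?_, by rw [← hgh]; ring⟩
    · rw [natDegree_mul hg0 (X_sub_C_ne_zero r), hg, natDegree_X_sub_C]
    · rw [natDegree_mul (X_sub_C_ne_zero r) hq0, natDegree_X_sub_C] at hh
      omega

end special

/-- Right ideals of the same dimension. -/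
theorem exists_mul {E : Type u} [Ring E] [Algebra Ω E] [FiniteDimensional Ω E] [IsSimpleRing E]
    {I N : Submodule Ω E} (hI : ∀ x ∈ I, ∀ y, x * y ∈ I) (hN : ∀ x ∈ N, ∀ y, x * y ∈ N)
    (h : finrank Ω I = finrank Ω N) :
    ∃ ξ : E, (∀ x ∈ I, ξ * x ∈ N) ∧ ∀ x ∈ I, ξ * x = 0 → x = 0 := by
  let I' : Submodule Eᵐᵒᵖ E :=
    { carrier := I
      add_mem' := I.add_mem
      zero_mem' := I.zero_mem
      smul_mem' := fun c x hx => hI x hx c.unop }
  let N' : Submodule Eᵐᵒᵖ E :=
    { carrier := N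
      add_mem' := N.add_mem
      zero_mem' := N.zero_mem
      smul_mem' := fun c x hx => hN x hx c.unop }
  have : IsArtinianRing Eᵐᵒᵖ := IsArtinianRing.of_finite Ω Eᵐᵒᵖ
  have hfin : FiniteDimensional Ω I' :=
    FiniteDimensional.of_injective (I'.subtype.restrictScalars Ω) I'.subtype_injective
  have hfin' : FiniteDimensional Ω N' :=
    FiniteDimensional.of_injective (N'.subtype.restrictScalars Ω) N'.subtype_injective
  obtain ⟨e⟩ := exists_linearEquiv (K := Ω) (S := Eᵐᵒᵖ) (M := I') (N := N') h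
  obtain ⟨J, hJ⟩ := exists_isCompl I'
  let φ : E →ₗ[Eᵐᵒᵖ] E := N'.subtype ∘ₗ e.toLinearMap ∘ₗ I'.projectionOnto J hJ
  have hφ : ∀ x, φ 1 * x = φ x := by
    intro x
    have h1 := φ.map_smul (MulOpposite.op x) 1
    rw [op_smul_eq_mul, one_mul, op_smul_eq_mul] at h1
    exact h1.symm
  have hφI : ∀ x (hx : x ∈ I), φ x = e ⟨x, hx⟩ := by
    intro x hx
    have h1 := Submodule.projectionOnto_apply_left hJ (⟨x, hx⟩ : I')
    change ((e (I'.projectionOnto J hJ x) : N') : E) = _
    rw [h1]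
  refine ⟨φ 1, fun x hx => ?_, fun x hx h0 => ?_⟩
  · rw [hφ, hφI x hx]
    exact (e ⟨x, hx⟩).2
  · rw [hφ, hφI x hx] at h0
    have h1 : e ⟨x, hx⟩ = 0 := Subtype.ext h0
    have h2 : (⟨x, hx⟩ : I') = 0 := (LinearEquiv.map_eq_zero_iff e).1 h1
    exact congrArg Subtype.val h2

/-- Coordinates after a further extension of scalars. -/
theorem coK_bc [NeZero n] (d : CycData L n σ a A) {K : Type u} [Field K] [Algebra k K]
    [Algebra K Ω] [IsScalarTower k K Ω] (j : ℕ) (x : K ⊗[k] A) :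
    d.coK Ω j (bc k A K Ω x) = bc k L K Ω (d.coK K j x) := by
  induction x using TensorProduct.induction_on with
  | zero => simp
  | tmul c x => rw [bc_tmul, d.coK_tmul, d.coK_tmul, bc_tmul]
  | add x y hx hy => rw [map_add, map_add, map_add, map_add, hx, hy]

/-- A rational element comes from `A`. -/
theorem exists_of_ratV {ι : Type*} [Fintype ι] (b : Basis ι k A) {x : Ω ⊗[k] A}
    (h : Pool.Agent.H72.SB.RatV (bas Ω b) (⊥ : IntermediateField k Ω) x) :
    ∃ u : A, x = 1 ⊗ₜ u := by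
  choose c hc using fun i => IntermediateField.mem_bot.1 (h i)
  refine ⟨∑ i, c i • b i, ?_⟩
  rw [TensorProduct.tmul_sum, ← (bas Ω b).sum_repr x]
  refine Finset.sum_congr rfl fun i _ => ?_
  rw [← hc i, Algebra.TensorProduct.basis_apply, TensorProduct.smul_tmul',
    TensorProduct.tmul_smul, TensorProduct.smul_tmul', smul_eq_mul, mul_one,
    Algebra.smul_def, mul_one]

/-- After multiplication by a unit of `A` there is an echelon basis. -/
theorem exists_good [Infinite k] [NeZero n] [FiniteDimensional k L] (hL : finrank k L = n)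
    (ha : a ≠ 0) (d : CycData L n σ a A) [IsSimpleRing A] [Algebra.IsCentral k A]
    {K : Type u} [Field K] [Algebra k K] (hm : m ≤ n) {I : Submodule K (K ⊗[k] A)}
    (hI : ∀ x ∈ I, ∀ y : K ⊗[k] A, x * y ∈ I) (hdim : finrank K I = m * n) :
    ∃ u : A, IsUnit u ∧ ∀ x ∈ I, (∀ j : Fin m, d.coK K j ((1 ⊗ₜ u) * x) = 0) → x = 0 := by
  have hfd := finite_of_data d
  let Ω := AlgebraicClosure K
  have hsimple : IsSimpleRing (Ω ⊗[k] A) := isSimple_tensor
  have hinfΩ : Infinite Ω := Infinite.of_injective (algebraMap k Ω) (algebraMap k Ω).injective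
  obtain ⟨g, h, hg, hh, hgh⟩ := exists_factor_poly (n := n) (X ^ n - C (algebraMap k Ω a))
    (natDegree_X_pow_sub_C) m hm
  have h1 := finrank_annZ d ha hL hm hg hh hgh
  have hn : 0 < n := Nat.pos_of_ne_zero (NeZero.ne n)
  have hg0 : g.coeff 0 ≠ 0 := by
    have h0 : g.coeff 0 * h.coeff 0 ≠ 0 := by
      rw [← mul_coeff_zero, hgh, coeff_sub, coeff_X_pow, if_neg (by omega), coeff_C_zero,
        zero_sub, neg_ne_zero]
      exact (_root_.map_ne_zero _).2 ha
    exact left_ne_zero_of_mul h0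
  let IΩ := ext Ω I
  have hIΩ : ∀ x ∈ IΩ, ∀ y, x * y ∈ IΩ := fun x hx y => ext_right hI hx y
  obtain ⟨ξ₀, hξ1, hξ2⟩ := exists_mul (I := IΩ) (N := annZ d g) hIΩ
    (fun x hx y => by rw [mem_annZ, ← mul_assoc, (mem_annZ d).1 hx, zero_mul])
    (by rw [ext_finrank, hdim, h1])
  -- the two open conditions
  let T : Ω ⊗[k] A → (IΩ →ₗ[Ω] (Fin m → Ω ⊗[k] L)) := fun ξ =>
    LinearMap.pi fun j => d.coK Ω j ∘ₗ LinearMap.mulLeft Ω ξ ∘ₗ IΩ.subtype
  have hT : ∀ ξ x j, T ξ x j = d.coK Ω j (ξ * (x : Ω ⊗[k] A)) := fun ξ x j => rfl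
  have hP1 := Pool.Agent.H72.SB.lineOpen_injective (Ω := Ω) T (fun x y => ⟨T y, fun t => by
    ext v j
    rw [LinearMap.add_apply, LinearMap.smul_apply, Pi.add_apply, Pi.smul_apply, hT, hT, hT,
      add_mul, map_add, smul_mul_assoc, map_smul]⟩)
  let T2 : Ω ⊗[k] A → (Ω ⊗[k] A →ₗ[Ω] Ω ⊗[k] A) := fun ξ => LinearMap.mulLeft Ω ξ
  have hP2 := Pool.Agent.H72.SB.lineOpen_injective (Ω := Ω) T2 (fun x y => ⟨T2 y, fun t => by
    ext v
    simp [T2, add_mul]⟩)
  have h2 := hP1.exists_common hP2 ⟨ξ₀, by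
    rw [← LinearMap.ker_eq_bot, LinearMap.ker_eq_bot']
    intro x hx
    refine Subtype.ext (hξ2 x x.2 (ann_disjoint d ha hg hg0 (hξ1 x x.2) fun j hj => ?_))
    exact congrFun hx ⟨j, hj⟩⟩ ⟨1, fun x y hxy => by simpa [T2] using hxy⟩
  let b := Module.finBasis k A
  obtain ⟨ξ, hξr, h3, h4⟩ := (hP1.and hP2).exists_rat (k := k) (bas Ω b) h2
  obtain ⟨u, rfl⟩ := exists_of_ratV b hξr
  refine ⟨u, ?_, fun x hx h5 => ?_⟩
  · have h6 : Function.Injective (LinearMap.mulLeft k u) := by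
      rw [← LinearMap.ker_eq_bot, LinearMap.ker_eq_bot']
      intro v hv
      rw [LinearMap.mulLeft_apply] at hv
      have h7 : T2 (1 ⊗ₜ u) (1 ⊗ₜ v) = T2 (1 ⊗ₜ u) 0 := by
        simp [T2, hv]
      have h8 := h4 h7
      have h9 : bc k A k Ω (1 ⊗ₜ v) = bc k A k Ω 0 := by rw [bc_tmul, map_one, h8, map_zero]
      have h10 := bc_injective h9
      have h11 := congrArg (TensorProduct.lid k A) h10
      simpa using h11
    have h7 : Function.Surjective (LinearMap.mulLeft k u) :=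
      LinearMap.surjective_of_injective h6
    obtain ⟨v, hv⟩ := h7 1
    rw [LinearMap.mulLeft_apply] at hv
    have : IsArtinianRing A := IsArtinianRing.of_finite k A
    exact IsUnit.of_mul_eq_one v hv
  · have h6 : T (1 ⊗ₜ u) ⟨bc k A K Ω x, bc_mem_ext hx⟩ = T (1 ⊗ₜ u) 0 := by
      rw [map_zero]
      funext j
      rw [hT]
      have h7 : (1 ⊗ₜ u : Ω ⊗[k] A) * bc k A K Ω x = bc k A K Ω ((1 ⊗ₜ u) * x) := by
        rw [map_mul, bc_tmul, map_one]
      change d.coK Ω j ((1 ⊗ₜ u) * bc k A K Ω x) = 0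
      rw [h7, coK_bc, h5 j, map_zero]
    have h7 := congrArg Subtype.val (h3 h6)
    exact bc_injective (h7.trans (map_zero _).symm)

end Pool.Agent.H49.Cyc
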