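import Pool.Agent.H49.Cyc.Transfer

/-!
# The opposite algebra, change of the generator
-/

open Module TensorProduct MulOpposite

namespace Pool.Agent.H49.Cyc

universe u

variable {k : Type u} [Field k] {L : Type u} [Field L] [Algebra k L] {n : ℕ} {σ : L ≃ₐ[k] L}
  {a : k} {A : Type u} [Ring A] [Algebra k A]

/-- A linear map between spaces of the same dimension. -/
theorem bij_of_inj {V W : Type*} [AddCommGroup V] [Module k V] [AddCommGroup W] [Module k W]
    [FiniteDimensional k V] [FiniteDimensional k W] (h : finrank k V = finrank k W)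
    (f : V →ₗ[k] W) (hf : Function.Injective f) : Function.Bijective f :=
  ⟨hf, (LinearMap.injective_iff_surjective_of_finrank_eq_finrank h).1 hf⟩

namespace CycData

/-- Replace `z` by `c z`. -/
noncomputable def twist (d : CycData L n σ a A) {c : k} (hc : c ≠ 0) :
    CycData L n σ (c ^ n * a) A where
  inc := d.inc
  z := algebraMap k A c * d.z
  comm l := by
    rw [← mul_assoc, ← Algebra.commutes, mul_assoc, d.comm, mul_assoc]
  pow := by
    rw [(Algebra.commute_algebraMap_left c d.z).mul_pow, d.pow, ← map_pow, ← map_mul]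
  bij := by
    have h : (fun f : Fin n → L => ∑ j : Fin n, (algebraMap k A c * d.z) ^ (j : ℕ) * d.inc (f j)) =
        (fun f : Fin n → L => ∑ j : Fin n, d.z ^ (j : ℕ) * d.inc (f j)) ∘
          (LinearEquiv.piCongrRight fun j : Fin n =>
            (LinearEquiv.smulOfUnit ((Units.mk0 c hc) ^ (j : ℕ)) : L ≃ₗ[k] L)) := by
      funext f
      refine Finset.sum_congr rfl fun j _ => ?_
      rw [(Algebra.commute_algebraMap_left c d.z).mul_pow, ← map_pow]
      change _ = d.z ^ (j : ℕ) * d.inc ((Units.mk0 c hc ^ (j : ℕ) : kˣ) • f j)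
      rw [Units.smul_def, map_smul, mul_smul_comm, Algebra.smul_def, mul_assoc]
      simp
    rw [h]
    exact d.bij.comp (LinearEquiv.bijective _)

theorem inc_mul_pow (d : CycData L n σ a A) (q : ℕ) (l : L) :
    d.inc l * d.z ^ q = d.z ^ q * d.inc ((σ ^ q) l) := by
  induction q generalizing l with
  | zero => simp
  | succ q ih =>
    rw [pow_succ', ← mul_assoc, d.comm, mul_assoc, ih, ← mul_assoc, ← pow_succ', pow_succ]
    rfl

/-- The inverse of `z`. -/
noncomputable def zi (d : CycData L n σ a A) : A := algebraMap k A a⁻¹ * d.z ^ (n - 1)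

theorem z_mul_zi (d : CycData L n σ a A) (hn : 0 < n) (ha : a ≠ 0) : d.z * d.zi = 1 := by
  rw [zi, ← mul_assoc, ← Algebra.commutes, mul_assoc, ← pow_succ', Nat.sub_add_cancel hn, d.pow,
    ← map_mul, inv_mul_cancel₀ ha, map_one]

theorem zi_mul_z (d : CycData L n σ a A) (hn : 0 < n) (ha : a ≠ 0) : d.zi * d.z = 1 := by
  rw [zi, mul_assoc, ← pow_succ, Nat.sub_add_cancel hn, d.pow,
    ← map_mul, inv_mul_cancel₀ ha, map_one]

/-- The opposite algebra. -/
noncomputable def op [FiniteDimensional k L] (d : CycData L n σ a A) (hn : 0 < n) (ha : a ≠ 0) :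
    CycData L n σ a⁻¹ Aᵐᵒᵖ where
  inc := (AlgHom.op d.inc).comp (AlgEquiv.toOpposite k L : L ≃ₐ[k] Lᵐᵒᵖ).toAlgHom
  z := MulOpposite.op d.zi
  comm l := by
    change MulOpposite.op (d.inc l) * MulOpposite.op d.zi =
      MulOpposite.op d.zi * MulOpposite.op (d.inc (σ l))
    rw [← MulOpposite.op_mul, ← MulOpposite.op_mul]
    congr 1
    calc d.zi * d.inc l = d.zi * (d.inc l * d.z) * d.zi := by
          rw [mul_assoc, mul_assoc, d.z_mul_zi hn ha, mul_one]
      _ = d.inc (σ l) * d.zi := by
          rw [d.comm, ← mul_assoc, d.zi_mul_z hn ha, one_mul]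
  pow := by
    rw [← MulOpposite.op_pow, MulOpposite.algebraMap_apply]
    congr 1
    have h1 : Commute d.z d.zi := by
      rw [commute_iff_eq, d.z_mul_zi hn ha, d.zi_mul_z hn ha]
    have h2 : d.z ^ n * d.zi ^ n = 1 := by rw [← h1.mul_pow, d.z_mul_zi hn ha, one_pow]
    calc d.zi ^ n = algebraMap k A a⁻¹ * (d.z ^ n * d.zi ^ n) := by
          rw [← mul_assoc, d.pow, ← map_mul, inv_mul_cancel₀ ha, map_one, one_mul]
      _ = _ := by rw [h2, mul_one]
  bij := by
    have hfA : FiniteDimensional k A := finite_of_data d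
    have hfA' : FiniteDimensional k Aᵐᵒᵖ := Module.Finite.equiv (MulOpposite.opLinearEquiv k)
    have h1 : Commute d.z d.zi := by
      rw [commute_iff_eq, d.z_mul_zi hn ha, d.zi_mul_z hn ha]
    let f : (Fin n → L) →ₗ[k] Aᵐᵒᵖ :=
      { toFun := fun f => ∑ j : Fin n, (MulOpposite.op d.zi) ^ (j : ℕ) *
          ((AlgHom.op d.inc).comp (AlgEquiv.toOpposite k L : L ≃ₐ[k] Lᵐᵒᵖ).toAlgHom) (f j)
        map_add' := fun f g => by
          rw [← Finset.sum_add_distrib]
          exact Finset.sum_congr rfl fun j _ => by rw [Pi.add_apply, map_add, mul_add]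
        map_smul' := fun c f => by
          rw [RingHom.id_apply, Finset.smul_sum]
          exact Finset.sum_congr rfl fun j _ => by rw [Pi.smul_apply, map_smul, mul_smul_comm] }
    refine bij_of_inj ?_ f ?_
    · rw [← (MulOpposite.opLinearEquiv k : A ≃ₗ[k] Aᵐᵒᵖ).finrank_eq, d.equiv.finrank_eq]
    · rw [← LinearMap.ker_eq_bot, LinearMap.ker_eq_bot']
      intro g hg
      have h2 : ∑ j : Fin n, d.inc (g j) * d.zi ^ (j : ℕ) = 0 := by
        have h3 := congrArg MulOpposite.unop hg
        rw [MulOpposite.unop_zero] at h3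
        rw [← h3]
        change _ = MulOpposite.unop (∑ j : Fin n, _)
        rw [Finset.unop_sum]
        rfl
      have h3 : ∑ j : Fin n, d.z ^ (j : ℕ) *
          d.inc ((σ ^ (j : ℕ)) (g (Fin.rev j))) = 0 := by
        have h4 := congrArg (fun x => x * d.z ^ (n - 1)) h2
        simp only [zero_mul, Finset.sum_mul] at h4
        rw [← h4, ← Equiv.sum_comp Fin.revPerm]
        refine Finset.sum_congr rfl fun j _ => ?_
        rw [Fin.revPerm_apply, Fin.rev_rev, ← d.inc_mul_pow, mul_assoc]
        congr 1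
        have hj := j.2
        have h5 : n - 1 = (j : ℕ) + (Fin.rev j : ℕ) := by
          rw [Fin.val_rev]; omega
        rw [h5, pow_add, ← mul_assoc, ← h1.symm.mul_pow, d.zi_mul_z hn ha, one_pow, one_mul]
      have h4 := d.bij.1 (a₁ := fun j => (σ ^ (j : ℕ)) (g (Fin.rev j))) (a₂ := 0) (by
        simpa using h3)
      funext j
      have h5 := congrFun h4 (Fin.rev j)
      simp only [Fin.rev_rev, Pi.zero_apply] at h5
      exact (map_eq_zero_iff _ (σ ^ _).injective).1 h5

end CycData

end Pool.Agent.H49.Cyc
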