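import Pool.Agent.H49.Cyc.CoordK

/-!
# Rational elements
-/

open Module TensorProduct

namespace Pool.Agent.H49.Cyc

open Pool.Agent.H49.GSB

universe u

variable {k : Type u} [Field k] {L : Type u} [Field L] [Algebra k L] {K : Type u} [Field K]
  [Algebra k K]

/-- The subring of rational elements. -/
noncomputable def ratS (L : Type u) [Field L] [Algebra k L] (F : IntermediateField k K) :
    Subring (K ⊗[k] L) :=
  (GSB.inc (A := L) F).toRingHom.range

theorem mem_ratS {F : IntermediateField k K} {x : K ⊗[k] L} :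
    x ∈ ratS L F ↔ IsRational F x := Iff.rfl

theorem inc_injective (A : Type u) [Ring A] [Algebra k A] (F : IntermediateField k K) :
    Function.Injective (GSB.inc (A := A) F) := by
  have h : GSB.inc (A := A) F = bc k A F K := by
    ext x
    · simp [bc]
    · simp [bc]
  rw [h]
  exact bc_injective

theorem ratS_inv [FiniteDimensional k L] (F : IntermediateField k K) (x : K ⊗[k] L)
    (hx : x ∈ ratS L F) (hu : IsUnit x) : ∃ y ∈ ratS L F, x * y = 1 := by
  obtain ⟨w, rfl⟩ := hx
  have h1 : Function.Injective (LinearMap.mulLeft F w) := by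
    rw [← LinearMap.ker_eq_bot, LinearMap.ker_eq_bot']
    intro v hv
    rw [LinearMap.mulLeft_apply] at hv
    have h2 : GSB.inc (A := L) F w * GSB.inc (A := L) F v = 0 := by rw [← map_mul, hv, map_zero]
    have h3 : GSB.inc (A := L) F v = 0 := by
      obtain ⟨u, hu⟩ := hu
      have h4 : (u : K ⊗[k] L) * GSB.inc (A := L) F v = 0 := by rw [hu]; exact h2
      exact (Units.mul_right_eq_zero u).1 h4
    exact inc_injective L F (by rw [h3, map_zero])
  have h2 : Function.Surjective (LinearMap.mulLeft F w) :=
    LinearMap.surjective_of_injective h1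
  obtain ⟨v, hv⟩ := h2 1
  rw [LinearMap.mulLeft_apply] at hv
  refine ⟨GSB.inc (A := L) F v, ⟨v, rfl⟩, ?_⟩
  change GSB.inc (A := L) F w * GSB.inc (A := L) F v = 1
  rw [← map_mul, hv]
  exact (GSB.inc (A := L) F).map_one

theorem isRational_mul {A : Type u} [Ring A] [Algebra k A] {F : IntermediateField k K}
    {x y : K ⊗[k] A} (hx : IsRational F x) (hy : IsRational F y) : IsRational F (x * y) := by
  obtain ⟨x', rfl⟩ := hx
  obtain ⟨y', rfl⟩ := hy
  exact ⟨x' * y', map_mul _ _ _⟩

theorem isRational_sum {A ι : Type*} [Ring A] [Algebra k A] {F : IntermediateField k K}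
    (s : Finset ι) {f : ι → K ⊗[k] A}
    (h : ∀ i ∈ s, ∃ y : F ⊗[k] A, Algebra.TensorProduct.map F.val (AlgHom.id k A) y = f i) :
    ∃ y : F ⊗[k] A, Algebra.TensorProduct.map F.val (AlgHom.id k A) y = ∑ i ∈ s, f i := by
  classical
  choose! g hg using h
  exact ⟨∑ i ∈ s, g i, by rw [map_sum]; exact Finset.sum_congr rfl hg⟩

theorem isRational_one_tmul {A : Type u} [Ring A] [Algebra k A] (F : IntermediateField k K)
    (x : A) : IsRational F ((1 : K) ⊗ₜ[k] x) :=
  ⟨1 ⊗ₜ x, by simp⟩

theorem isRational_incK {n : ℕ} {σ : L ≃ₐ[k] L} {a : k} {A : Type u} [Ring A] [Algebra k A]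
    (d : CycData L n σ a A) {F : IntermediateField k K} {r : K ⊗[k] L} (hr : IsRational F r) :
    IsRational F (d.incK K r) := by
  obtain ⟨r', rfl⟩ := hr
  induction r' using TensorProduct.induction_on with
  | zero => exact ⟨0, by simp⟩
  | tmul c x => exact ⟨c ⊗ₜ d.inc x, by simp⟩
  | add x y hx hy =>
    obtain ⟨x', hx'⟩ := hx
    obtain ⟨y', hy'⟩ := hy
    exact ⟨x' + y', by rw [map_add, map_add, map_add, hx', hy']⟩

theorem isRational_of_lam [FiniteDimensional k L] {F : IntermediateField k K} {r : K ⊗[k] L}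
    (h : ∀ l : K →ₗ[F] K, lam (l.restrictScalars k) r = l 1 • r) : IsRational F r := by
  let b := Module.finBasis k L
  have key : ∀ i, (bas K b).repr r i ∈ F := by
    intro i
    apply mem_of_forall
    intro l
    have h1 := congrArg (fun x => (bas K b).repr x i) (h l)
    simpa only [bas_repr_lam, map_smul, Finsupp.smul_apply, smul_eq_mul,
      LinearMap.coe_restrictScalars] using h1
  refine ⟨∑ i, (⟨_, key i⟩ : F) ⊗ₜ b i, ?_⟩
  rw [map_sum]
  conv_rhs => rw [← (bas K b).sum_repr r]
  refine Finset.sum_congr rfl fun i _ => ?_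
  rw [Algebra.TensorProduct.map_tmul, Algebra.TensorProduct.basis_apply,
    TensorProduct.smul_tmul', smul_eq_mul, mul_one]
  rfl

variable {n m : ℕ} {σ : L ≃ₐ[k] L} {a : k} {A : Type u} [Ring A] [Algebra k A]

/-- The echelon basis of a subspace which is defined over `F` is rational over `F`. -/
theorem rational_of_stable [NeZero n] [FiniteDimensional k L] (d : CycData L n σ a A)
    {F : IntermediateField k K} {I : Submodule K (K ⊗[k] A)} (hF : DefinedOver F I)
    (good : ∀ x ∈ I, (∀ j : Fin m, d.coK K j x = 0) → x = 0) {e : K ⊗[k] A} (he : e ∈ I)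
    {l : Fin m} (h : ∀ j : Fin m, d.coK K j e = if j = l then 1 else 0) (j : ℕ) :
    IsRational F (d.coK K j e) := by
  apply isRational_of_lam
  intro f
  have h1 : lam (f.restrictScalars k) e - f 1 • e = 0 := by
    apply good
    · exact I.sub_mem (hF.stable f e he) (I.smul_mem _ he)
    · intro j
      rw [map_sub, map_smul, d.coK_lam, h]
      split_ifs
      · rw [Algebra.TensorProduct.one_def, lam_tmul, LinearMap.coe_restrictScalars,
          TensorProduct.smul_tmul', smul_eq_mul, mul_one, sub_self]
      · simp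
  rw [← d.coK_lam, sub_eq_zero.1 h1, map_smul]

/-- If the coordinates are rational then so is the element. -/
theorem rational_of_coK [NeZero n] (d : CycData L n σ a A) {F : IntermediateField k K}
    {x : K ⊗[k] A} (h : ∀ j : Fin n, IsRational F (d.coK K j x)) : IsRational F x := by
  rw [← d.sum_coK x]
  refine isRational_sum _ fun j _ => ?_
  refine isRational_mul ?_ (isRational_incK d (h j))
  rw [Algebra.TensorProduct.tmul_pow, one_pow]
  exact isRational_one_tmul F _

end Pool.Agent.H49.Cyc
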