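import Pool.Agent.H49.Cyc.Good
import Pool.Agent.H49.Cyc.Op
import Pool.Agent.H49.GSB.Final

/-!
# Function fields of generalized Brauer-Severi varieties of cyclic algebras
-/

open Module TensorProduct

namespace Pool.Agent.H49.Cyc

open Pool.Agent.H49.GSB

universe u

variable {k : Type u} [Field k] {L : Type u} [Field L] [Algebra k L] {n m : ℕ} {σ : L ≃ₐ[k] L}
  {a : k} {A B : Type u} [Ring A] [Algebra k A] [Ring B] [Algebra k B]
  {K : Type u} [Field K] [Algebra k K]

/-- Multiplication of an ideal by a rational element. -/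
theorem definedOver_map {F : IntermediateField k K} {I : Submodule K (K ⊗[k] A)} (u : A)
    (h : DefinedOver F I) : DefinedOver F (I.map (LinearMap.mulLeft K ((1 : K) ⊗ₜ[k] u))) := by
  rintro _ ⟨x, hx, rfl⟩
  have h1 : ∀ y ∈ Submodule.span K {x | x ∈ I ∧ IsRational F x},
      LinearMap.mulLeft K ((1 : K) ⊗ₜ[k] u) y ∈ Submodule.span K
        {x | x ∈ I.map (LinearMap.mulLeft K ((1 : K) ⊗ₜ[k] u)) ∧ IsRational F x} := by
    intro y hy
    induction hy using Submodule.span_induction with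
    | mem y hy =>
      exact Submodule.subset_span ⟨⟨y, hy.1, rfl⟩, isRational_mul (isRational_one_tmul F u) hy.2⟩
    | zero => rw [map_zero]; exact Submodule.zero_mem _
    | add y z _ _ hy hz => rw [map_add]; exact Submodule.add_mem _ hy hz
    | smul c y _ hy => rw [map_smul]; exact Submodule.smul_mem _ _ hy
  exact h1 x (h hx)

theorem functionField_transfer [Infinite k] [NeZero n] [FiniteDimensional k L]
    [IsSimpleRing A] [Algebra.IsCentral k A] (hL : finrank k L = n) (ha : a ≠ 0)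
    {i c l t : ℕ} (hi : i = 1 + m * c) (hil : i * l = 1 + n * t) (dA : CycData L n σ a A)
    (dB : CycData L n σ (a ^ i) B) (hm : m ≤ n) (hK : IsFunctionField k A m n K) :
    IsFunctionField k B m n K := by
  obtain ⟨⟨I, ⟨hI, hdim⟩, hmin⟩, htr⟩ := hK
  obtain ⟨u, ⟨v, rfl⟩, hgood⟩ := exists_good hL ha dA hm hI hdim
  have hvu : ((1 : K) ⊗ₜ[k] (((v⁻¹ : Aˣ) : A))) * ((1 : K) ⊗ₜ[k] (v : A)) = 1 := by
    rw [Algebra.TensorProduct.tmul_mul_tmul, one_mul, Units.inv_mul]
    rfl
  let I' : Submodule K (K ⊗[k] A) := I.map (LinearMap.mulLeft K ((1 : K) ⊗ₜ[k] (v : A)))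
  have hback : I'.map (LinearMap.mulLeft K ((1 : K) ⊗ₜ[k] ((v⁻¹ : Aˣ) : A))) = I := by
    ext x
    constructor
    · rintro ⟨_, ⟨y, hy, rfl⟩, rfl⟩
      rw [LinearMap.mulLeft_apply, LinearMap.mulLeft_apply, ← mul_assoc, hvu, one_mul]
      exact hy
    · intro hx
      refine ⟨_, ⟨x, hx, rfl⟩, ?_⟩
      rw [LinearMap.mulLeft_apply, LinearMap.mulLeft_apply, ← mul_assoc, hvu, one_mul]
  have hinj : Function.Injective (LinearMap.mulLeft K ((1 : K) ⊗ₜ[k] (v : A))) := by
    intro x y hxy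
    rw [LinearMap.mulLeft_apply, LinearMap.mulLeft_apply] at hxy
    have := congrArg (fun w => ((1 : K) ⊗ₜ[k] (((v⁻¹ : Aˣ) : A))) * w) hxy
    simpa only [← mul_assoc, hvu, one_mul] using this
  have hI' : ∀ x ∈ I', ∀ y : K ⊗[k] A, x * y ∈ I' := by
    rintro _ ⟨x, hx, rfl⟩ y
    exact ⟨x * y, hI x hx y, by rw [LinearMap.mulLeft_apply, LinearMap.mulLeft_apply, mul_assoc]⟩
  have hdim' : finrank K I' = m * n := by
    rw [← hdim]
    exact (Submodule.equivMapOfInjective _ hinj I).finrank_eq.symm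
  have hgood' : ∀ x ∈ I', (∀ j : Fin m, dA.coK K j x = 0) → x = 0 := by
    rintro _ ⟨x, hx, rfl⟩ h
    rw [hgood x hx h, map_zero]
  have hmin' : ∀ F : IntermediateField k K, DefinedOver F I' → F = ⊤ := by
    intro F hF
    apply hmin
    rw [← hback]
    exact definedOver_map _ hF
  exact ⟨transfer_point hL ha hi hil dA dB hI' hdim' hgood' hmin', htr⟩

/-- arithmetic -/
theorem exists_inverse {i n : ℕ} (hn : 1 < n) (h : Nat.Coprime i n) :
    ∃ l t, i * l = 1 + n * t := by
  obtain ⟨q, _, hq⟩ := Nat.exists_mul_mod_eq_one_of_coprime h hn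
  refine ⟨q, i * q / n, ?_⟩
  have h1 := Nat.div_add_mod (i * q) n
  omega

end Pool.Agent.H49.Cyc
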