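import Pool.Agent.H49.Cyc.Back
import Pool.Agent.H49.Cyc.Rat

/-!
# The birational map

A right ideal of `(L/k, σ, a)_K` of dimension `m n` with an echelon basis is mapped to a right ideal of
`(L/k, σ, a ^ i)_K`, `i = 1 + m c`, with the same field of definition.
-/

open Module TensorProduct

namespace Pool.Agent.H49.Cyc

open Pool.Agent.H49.GSB

universe u

variable {k : Type u} [Field k] {L : Type u} [Field L] [Algebra k L] {K : Type u} [Field K]
  [Algebra k K] {n m : ℕ} {σ : L ≃ₐ[k] L} {a : k} {A : Type u} [Ring A] [Algebra k A]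

theorem finite_of_data [FiniteDimensional k L] (d : CycData L n σ a A) : FiniteDimensional k A :=
  Module.Finite.equiv d.equiv

theorem finrank_of_data [FiniteDimensional k L] (d : CycData L n σ a A) : finrank k A = n * finrank k L := by
  rw [← d.equiv.finrank_eq, Module.finrank_pi_fintype]
  simp

/-- The echelon basis. -/
theorem exists_echelon [NeZero n] [FiniteDimensional k L] (hL : finrank k L = n)
    (d : CycData L n σ a A) {I : Submodule K (K ⊗[k] A)} (hdim : finrank K I = m * n)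
    (good : ∀ x ∈ I, (∀ j : Fin m, d.coK K j x = 0) → x = 0) :
    ∃ b : Fin m → K ⊗[k] A, (∀ l, b l ∈ I) ∧
      ∀ j l : Fin m, d.coK K j (b l) = if j = l then 1 else 0 := by
  have := finite_of_data d
  let T : I →ₗ[K] (Fin m → K ⊗[k] L) := LinearMap.pi fun j => d.coK K j ∘ₗ I.subtype
  have hT : ∀ x j, T x j = d.coK K j x := fun x j => rfl
  have hinj : Function.Injective T := by
    rw [← LinearMap.ker_eq_bot, LinearMap.ker_eq_bot']
    intro x hx
    exact Subtype.ext (good x x.2 fun j => by rw [← hT, hx]; rfl)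
  have hsurj : Function.Surjective T := by
    refine (LinearMap.injective_iff_surjective_of_finrank_eq_finrank ?_).1 hinj
    rw [hdim, Module.finrank_pi_fintype]
    simp only [Module.finrank_baseChange, hL, Finset.sum_const, Finset.card_univ,
      Fintype.card_fin, smul_eq_mul]
  choose g hg using hsurj
  refine ⟨fun l => g (Pi.single l 1), fun l => (g _).2, fun j l => ?_⟩
  rw [← hT, hg, Pi.single_apply]

section

variable [NeZero n] (d : CycData L n σ a A)
  {I : Submodule K (K ⊗[k] A)} (hI : ∀ x ∈ I, ∀ y : K ⊗[k] A, x * y ∈ I)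
  (good : ∀ x ∈ I, (∀ j : Fin m, d.coK K j x = 0) → x = 0)
  {b : Fin m → K ⊗[k] A} (hbI : ∀ l, b l ∈ I)
  (hb : ∀ j l : Fin m, d.coK K j (b l) = if j = l then 1 else 0)

include hI good hbI hb in
theorem expand {x : K ⊗[k] A} (hx : x ∈ I) :
    x = ∑ l : Fin m, b l * d.incK K (d.coK K l x) := by
  rw [← sub_eq_zero]
  apply good
  · exact I.sub_mem hx (I.sum_mem fun l _ => hI _ (hbI l) _)
  · intro j
    rw [map_sub, map_sum, Finset.sum_eq_single j]
    · rw [d.coK_mul_inc, hb, if_pos rfl, one_mul, sub_self]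
    · intro l _ hl
      rw [d.coK_mul_inc, hb, if_neg hl.symm, zero_mul]
    · intro h; exact absurd (Finset.mem_univ _) h

include hI good hbI hb in
/-- If the coordinates of the echelon basis are rational then so is the ideal. -/
theorem definedOver_of_coK {F : IntermediateField k K}
    (h : ∀ j (l : Fin m), IsRational F (d.coK K j (b l))) : DefinedOver F I := by
  intro x hx
  have hbr : ∀ l, IsRational F (b l) := fun l => rational_of_coK d fun j => h j l
  rw [expand d hI good hbI hb hx]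
  refine Submodule.sum_mem _ fun l _ => ?_
  generalize d.coK K l x = r
  induction r using TensorProduct.induction_on with
  | zero => rw [map_zero, mul_zero]; exact Submodule.zero_mem _
  | tmul c y =>
    have h1 : b l * d.incK K (c ⊗ₜ y) = c • (b l * ((1 : K) ⊗ₜ d.inc y)) := by
      rw [d.incK_tmul, ← mul_smul_comm, TensorProduct.smul_tmul', smul_eq_mul, mul_one]
    rw [h1]
    refine Submodule.smul_mem _ _ (Submodule.subset_span ⟨hI _ (hbI l) _, ?_⟩)
    exact isRational_mul (hbr l) (isRational_one_tmul F _)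
  | add r s hr hs => rw [map_add, mul_add]; exact Submodule.add_mem _ hr hs

end

/-- The transfer of points. -/
theorem transfer_point [NeZero n] [FiniteDimensional k L] (hL : finrank k L = n) (ha : a ≠ 0)
    {B : Type u} [Ring B] [Algebra k B] {i c l t : ℕ} (hi : i = 1 + m * c)
    (hil : i * l = 1 + n * t) (dA : CycData L n σ a A) (dB : CycData L n σ (a ^ i) B)
    {I : Submodule K (K ⊗[k] A)} (hI : ∀ x ∈ I, ∀ y : K ⊗[k] A, x * y ∈ I)
    (hdim : finrank K I = m * n)
    (good : ∀ x ∈ I, (∀ j : Fin m, dA.coK K j x = 0) → x = 0)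
    (hmin : ∀ F : IntermediateField k K, DefinedOver F I → F = ⊤) :
    ∃ J : Submodule K (K ⊗[k] B), IsPoint m n J ∧
      ∀ F : IntermediateField k K, DefinedOver F J → F = ⊤ := by
  obtain ⟨b, hbI, hb⟩ := exists_echelon hL dA hdim good
  have hn : 0 < n := Nat.pos_of_ne_zero (NeZero.ne n)
  have hai : a ^ i ≠ 0 := pow_ne_zero _ ha
  let 𝔄 := dA.frame K ha
  let 𝔅 := dB.frame K hai
  let α : K ⊗[k] L := 1 ⊗ₜ algebraMap k L a⁻¹
  have hα : IsUnit α := by
    refine IsUnit.of_mul_eq_one (1 ⊗ₜ algebraMap k L a) ?_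
    rw [Algebra.TensorProduct.tmul_mul_tmul, one_mul, ← map_mul, inv_mul_cancel₀ ha, map_one]
    rfl
  have hβ : (1 ⊗ₜ algebraMap k L (a ^ i)⁻¹ : K ⊗[k] L) = α ^ (m * c) * α := by
    rw [← pow_succ, show m * c + 1 = i by omega, Algebra.TensorProduct.tmul_pow, one_pow,
      ← map_pow, inv_pow]
  have hβu : IsUnit (1 ⊗ₜ algebraMap k L (a ^ i)⁻¹ : K ⊗[k] L) := by
    rw [hβ]; exact (hα.pow _).mul hα
  let C : Matrix (Fin m) (Fin m) (K ⊗[k] L) := Matrix.of fun i l => dA.coK K i (b l * (1 ⊗ₜ dA.z))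
  have hC : ∀ l, b l * 𝔄.z = ∑ i, b i * 𝔄.inc (C i l) := fun l =>
    expand dA hI good hbI hb (hI _ (hbI l) _)
  have hbf : ∀ j l : Fin m, 𝔄.co j (b l) = if j = l then 1 else 0 := hb
  let ψ : ℕ → K ⊗[k] L := 𝔄.psi b c
  have hψu : ∀ j, IsUnit (ψ j) := Frame.psi_isUnit hbf hC c
  have hψn : ∀ j, ψ (j + n) = α ^ (m * c) * ψ j := Frame.psi_add_n c
  have hψs : ∀ j, (sigK σ K).toRingHom (ψ j) = ψ (j + 1) * C.det ^ c := Frame.psi_succ hC c
  -- the linear map
  let M : K ⊗[k] A →ₗ[K] K ⊗[k] B :=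
    { Frame.M 𝔄 𝔅 ψ with
      map_smul' := fun e x => by
        have h1 : e • x = x * 𝔄.inc (algebraMap K _ e) := by
          change e • x = x * dA.incK K (algebraMap K _ e)
          rw [AlgHom.commutes, ← Algebra.commutes, Algebra.smul_def]
        have h2 : ∀ y : K ⊗[k] B, e • y = y * 𝔅.inc (algebraMap K _ e) := fun y => by
          change e • y = y * dB.incK K (algebraMap K _ e)
          rw [AlgHom.commutes, ← Algebra.commutes, Algebra.smul_def]
        change Frame.M 𝔄 𝔅 ψ (e • x) = e • Frame.M 𝔄 𝔅 ψ x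
        rw [h1, h2, Frame.M_mul_inc hn hψn hβ] }
  have hM : ∀ x, M x = Frame.M 𝔄 𝔅 ψ x := fun x => rfl
  have hco : ∀ j x, dB.coK K j (M x) = ψ j * dA.coK K j x := fun j x =>
    Frame.co_M (𝔄 := 𝔄) (𝔅 := 𝔅) hn hψn hβ j x
  have hMinc : ∀ x r, M (x * dA.incK K r) = M x * dB.incK K r := fun x r =>
    Frame.M_mul_inc (𝔄 := 𝔄) (𝔅 := 𝔅) hn hψn hβ x r
  have hMz : ∀ x, M (x * (1 ⊗ₜ dA.z) * dA.incK K (C.det ^ c)) = M x * (1 ⊗ₜ dB.z) := fun x =>
    Frame.M_mul_z (𝔄 := 𝔄) (𝔅 := 𝔅) hn hψn hβ hβu hψs x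
  have hMinj : Function.Injective M := Frame.M_injective (𝔄 := 𝔄) (𝔅 := 𝔅) hn hψn hβ hψu
  let J : Submodule K (K ⊗[k] B) := I.map M
  have hJinc : ∀ x ∈ J, ∀ r, x * dB.incK K r ∈ J := by
    rintro _ ⟨x, hx, rfl⟩ r
    exact ⟨x * dA.incK K r, hI x hx _, hMinc x r⟩
  have hJz : ∀ q : ℕ, ∀ x ∈ J, x * (1 ⊗ₜ dB.z) ^ q ∈ J := by
    intro q
    induction q with
    | zero => intro x hx; rwa [pow_zero, mul_one]
    | succ q ih =>
      intro x hx
      rw [pow_succ, ← mul_assoc]
      obtain ⟨y, hy, hyx⟩ := ih x hx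
      rw [← hyx]
      exact ⟨_, hI _ (hI y hy _) _, hMz y⟩
  have hJ : ∀ x ∈ J, ∀ y : K ⊗[k] B, x * y ∈ J := by
    intro x hx y
    rw [← dB.sum_coK y, Finset.mul_sum]
    refine J.sum_mem fun j _ => ?_
    rw [← mul_assoc]
    exact hJinc _ (hJz _ _ hx) _
  have hJdim : finrank K J = m * n := by
    rw [← hdim]
    exact (Submodule.equivMapOfInjective M hMinj I).finrank_eq.symm
  have hJgood : ∀ x ∈ J, (∀ j : Fin m, dB.coK K j x = 0) → x = 0 := by
    rintro _ ⟨x, hx, rfl⟩ h
    rw [good x hx, map_zero]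
    intro j
    have h1 := h j
    rw [hco] at h1
    exact (hψu j).mul_right_eq_zero.1 h1
  refine ⟨J, ⟨hJ, hJdim⟩, fun F hF => hmin F ?_⟩
  -- the inverse direction
  choose φ hφ using fun j => (hψu j).exists_right_inv
  apply definedOver_of_coK dA hI good hbI hb
  intro j l'
  rw [← mem_ratS]
  refine Frame.rat_of_rat (𝔄 := 𝔄) hbf hC (ratS_inv F) ?_ hα (c := c) (l := l) (t := t)
    (by rw [← hi]; exact hil) (φ := fun l : Fin m => φ l) (fun l => hφ l) ?_ j l'
  · exact isRational_one_tmul F _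
  · intro j l'
    rw [mem_ratS]
    have h1 : M (b l' * dA.incK K (φ l')) ∈ J := ⟨_, hI _ (hbI l') _, rfl⟩
    have h2 : ∀ j, dB.coK K j (M (b l' * dA.incK K (φ l'))) =
        ψ j * dA.coK K j (b l') * φ l' := fun j => by
      rw [hco, dA.coK_mul_inc, mul_assoc]
    change IsRational F (ψ j * dA.coK K j (b l') * φ l')
    rw [← h2]
    refine rational_of_stable dB hF hJgood h1 (l := l') (fun j => ?_) j
    rw [h2, hb]
    split_ifs with h
    · rw [h, mul_one, hφ]
    · rw [mul_zero, zero_mul]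

end Pool.Agent.H49.Cyc
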